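import Mathlib

/-!
# MP_1fca17_co : outer k-planar graphs and levelled k-planar graphs are O(√k)-quasiplanar

Definitions and the statements of the modules.  Complete proofs: team store
`MP_1fca17_co_plan.md`.  All modules are independent of each other: a module takes the statements
that it uses as hypotheses.
-/

namespace Pool.Agent.Lib.MP_1fca17_co

open Finset
open scoped Classical

noncomputable section

/-! ## 1. Straight-line drawings and L-crossings -/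

/-- The open segment of the edge `e` in the straight-line drawing with the vertices `P v`. -/
def sg {V : Type} (P : V → ℝ × ℝ) (e : V × V) : Set (ℝ × ℝ) := openSegment ℝ (P e.1) (P e.2)

/-- General position: distinct points, no three on a line, no three segments with six distinct
endpoints have a common interior point. -/
structure GenPos {V : Type} (P : V → ℝ × ℝ) : Prop where
  inj : Function.Injective P
  col : ∀ u v w : V, u ≠ v → u ≠ w → v ≠ w → ¬ Collinear ℝ {P u, P v, P w}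
  conc : ∀ a b c d e f : V, [a, b, c, d, e, f].Nodup →
    sg P (a, b) ∩ sg P (c, d) ∩ sg P (e, f) = ∅

/-- `x` is strictly between `a` and `b` in the order given by `ρ`. -/
def Btw {V : Type} (ρ : V → ℕ) (x a b : V) : Prop :=
  (ρ a < ρ x ∧ ρ x < ρ b) ∨ (ρ b < ρ x ∧ ρ x < ρ a)

/-- Edges are oriented as (bottom, top).  `LC ρ T f e` : the top of `e` is higher (for `T`) than
the top of `f`, and the bottom of `e` lies (for `ρ`) strictly inside the span of `f` and is lower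
than the top of `f`. -/
def LC {V : Type} (ρ T : V → ℕ) (f e : V × V) : Prop :=
  T f.2 < T e.2 ∧ T e.1 < T f.2 ∧ Btw ρ e.1 f.1 f.2

/-- A family of pairwise L-crossing edges, oriented as (bottom, top). -/
def Fam {V : Type} (ρ T : V → ℕ) (F : Finset (V × V)) : Prop :=
  (∀ e ∈ F, T e.1 < T e.2) ∧ ∀ e ∈ F, ∀ f ∈ F, e ≠ f → LC ρ T f e ∨ LC ρ T e f

/-- GEO: for all orders `ρ` (left to right) and `T` (bottom to top) there is a straight-line
drawing in general position in which only L-crossing edges cross. -/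
def StGeo : Prop := ∀ (V : Type) [Fintype V] (ρ T : V → ℕ), Function.Injective ρ →
  Function.Injective T → ∃ P : V → ℝ × ℝ, GenPos P ∧ ∀ e f : V × V, T e.1 < T e.2 →
    T f.1 < T f.2 → e ≠ f → (sg P e ∩ sg P f).Nonempty → LC ρ T f e ∨ LC ρ T e f

/-! ## 2. Random heights -/

/-- A monotone family of pairs (bottom, top): distinct tops, and the heights `X` of the tops are
weakly increasing in the order `s` of the bottoms. -/
def MonoFam {V : Type} (s : V → ℤ) (X : V → ℕ) (F : Finset (V × V)) : Prop :=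
  ∀ e ∈ F, ∀ f ∈ F, e ≠ f → e.2 ≠ f.2 ∧
    ((s e.1 < s f.1 ∧ X e.2 ≤ X f.2) ∨ (s f.1 < s e.1 ∧ X f.2 ≤ X e.2))

/-- COUNT: few functions `X : V → {0,…,m-1}` have a monotone family of size `m` inside a given
set `E` of pairs. -/
def StCount : Prop := ∀ (V : Type) [Fintype V] (m : ℕ), 1 ≤ m → ∀ (E : Finset (V × V))
  (s : V → ℤ),
  ((univ : Finset (V → Fin m)).filter (fun X => ∃ F ⊆ E, F.card = m ∧
    MonoFam s (fun v => (X v : ℕ)) F)).card * m ^ m ≤
    E.card.choose m * (2 * m - 1).choose m * m ^ Fintype.card V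

/-- NUM1 -/
def StNum1 : Prop := ∀ k m : ℕ, 1 ≤ k → 192 * k ≤ m ^ 2 →
  2 * ((2 * k + 1) * (2 * k + 2)) * ((4 * k).choose m * (2 * m - 1).choose m) < m ^ m

/-- NUM2 -/
def StNum2 : Prop := ∀ k m : ℕ, 1 ≤ k → 48 * k ≤ m ^ 2 →
  8 * (2 * k ^ 2 + 1) * (k.choose m * (2 * m - 1).choose m) ≤ m ^ m

/-! ## 3. Outer k-planar graphs -/

section Outer

variable {N : ℕ}

/-- The chords `ab` and `cd` (`a < b`, `c < d`) alternate: they cross in a convex drawing. -/
def Alt (a b c d : Fin (N + 1)) : Prop := (a < c ∧ c < b ∧ b < d) ∨ (c < a ∧ a < d ∧ d < b)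

/-- the edges of `G` that cross the chord `ab` -/
def crs (G : SimpleGraph (Fin (N + 1))) (a b : Fin (N + 1)) :
    Finset (Fin (N + 1) × Fin (N + 1)) :=
  univ.filter (fun e => e.1 < e.2 ∧ G.Adj e.1 e.2 ∧ Alt a b e.1 e.2)

/-- `G` is outer k-planar for the order `0, 1, …, N` of the vertices on the circle. -/
def OKP (k : ℕ) (G : SimpleGraph (Fin (N + 1))) : Prop :=
  ∀ a b : Fin (N + 1), a < b → G.Adj a b → (crs G a b).card ≤ k

/-- `a < b` are consecutive elements of `S` -/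
def Cons (S : Finset (Fin (N + 1))) (a b : Fin (N + 1)) : Prop :=
  a ∈ S ∧ b ∈ S ∧ a < b ∧ ∀ z ∈ S, ¬ (a < z ∧ z < b)

/-- the edges (inside, outside) of `G` that leave the open arc `(a,b)` across the chord `ab` -/
def io (G : SimpleGraph (Fin (N + 1))) (a b : Fin (N + 1)) :
    Finset (Fin (N + 1) × Fin (N + 1)) :=
  univ.filter (fun e => a < e.1 ∧ e.1 < b ∧ (e.2 < a ∨ b < e.2) ∧ G.Adj e.1 e.2)

/-- the vertices in the open arc `(a,b)` with a neighbour outside `[a,b]` -/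
def outP (G : SimpleGraph (Fin (N + 1))) (a b : Fin (N + 1)) : Finset (Fin (N + 1)) :=
  univ.filter (fun y => a < y ∧ y < b ∧ ∃ z, (z < a ∨ b < z) ∧ G.Adj y z)

/-- the neighbours of `a` in the open arc `(a,b)` -/
def nbP (G : SimpleGraph (Fin (N + 1))) (a b : Fin (N + 1)) : Finset (Fin (N + 1)) :=
  univ.filter (fun y => a < y ∧ y < b ∧ G.Adj a y)

/-- the new corners in the cell `(a,b)` -/
def PP (G : SimpleGraph (Fin (N + 1))) (a b : Fin (N + 1)) : Finset (Fin (N + 1)) :=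
  if (outP G a b).Nonempty then outP G a b
  else if h : (nbP G a b).Nonempty then {(nbP G a b).max' h}
  else if h' : (Ioo a b).Nonempty then {(Ioo a b).min' h'}
  else ∅

/-- the vertices of level at most `d` -/
def SS (G : SimpleGraph (Fin (N + 1))) : ℕ → Finset (Fin (N + 1))
  | 0 => {0, Fin.last N}
  | d + 1 => univ.filter (fun y => y ∈ SS G d ∨ ∃ a b, Cons (SS G d) a b ∧ y ∈ PP G a b)

/-- the level of a vertex -/
def lv (G : SimpleGraph (Fin (N + 1))) (v : Fin (N + 1)) : ℕ := sInf {d | v ∈ SS G d}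

end Outer

/-- S1: elementary properties of the sets `SS G d` (no hypothesis on `G`) -/
def StS1 : Prop := ∀ (N : ℕ) (G : SimpleGraph (Fin (N + 1))),
  (∀ d, SS G d ⊆ SS G (d + 1)) ∧
  (∀ v, ∃ d, v ∈ SS G d) ∧
  (∀ v d, v ∈ SS G d ↔ lv G v ≤ d) ∧
  (∀ d a b, Cons (SS G d) a b → ∀ y, a < y → y < b → (y ∈ SS G (d + 1) ↔ y ∈ PP G a b)) ∧
  (∀ d u v w, w ∈ SS G d → u < w → w < v → G.Adj u v →
    u ∈ SS G (d + 1) ∧ v ∈ SS G (d + 1)) ∧
  (∀ d v, v ∉ SS G d → ∃ a b, Cons (SS G d) a b ∧ a < v ∧ v < b) ∧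
  (∀ d, ∀ c : Fin (N + 1), c < Fin.last N → ∃ a b, Cons (SS G d) a b ∧ a ≤ c ∧ c < b)

/-- S2: the counting properties for outer k-planar graphs -/
def StS2 : Prop := ∀ (N k : ℕ) (G : SimpleGraph (Fin (N + 1))), 1 ≤ k → OKP k G →
  ∀ d a b, Cons (SS G d) a b →
    (io G a b).card ≤ 2 * k ∧ (PP G a b).card ≤ 2 * k ∧
    ∀ x ∈ PP G a b, (univ.filter (fun e : Fin (N + 1) × Fin (N + 1) =>
      a < e.1 ∧ e.1 < x ∧ x < e.2 ∧ e.2 < b ∧ G.Adj e.1 e.2)).card ≤ k

/-- the list of edges (left, right) of the gap `(x,x')` of `SS G (d+1)` -/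
def lst {N : ℕ} (G : SimpleGraph (Fin (N + 1))) (d : ℕ) (x x' : Fin (N + 1)) :
    Finset (Fin (N + 1) × Fin (N + 1)) :=
  univ.filter (fun e => e.1 < e.2 ∧ G.Adj e.1 e.2 ∧
    ((x < e.1 ∧ e.1 < x' ∧ x' < e.2) ∨ (e.1 < x ∧ x < e.2 ∧ e.2 < x') ∨
     (e.1 < x ∧ x < e.2 ∧ ∀ s ∈ SS G d, ¬ (e.1 ≤ s ∧ s ≤ e.2)) ∨
     (e.1 < x' ∧ x' < e.2 ∧ ∀ s ∈ SS G d, ¬ (e.1 ≤ s ∧ s ≤ e.2))))

/-- K1: the lists are short -/
def StK1 : Prop := ∀ (N k : ℕ) (G : SimpleGraph (Fin (N + 1))), 1 ≤ k → OKP k G →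
  ∀ d x x', Cons (SS G (d + 1)) x x' → (lst G d x x').card ≤ 4 * k

/-- K2: the edges of class `d + 1` that pass over the cut after `c` are in the list of the gap -/
def StK2 : Prop := ∀ (N : ℕ) (G : SimpleGraph (Fin (N + 1))) (d : ℕ)
  (x x' c u v : Fin (N + 1)), Cons (SS G (d + 1)) x x' → x ≤ c → c < x' →
  u ≤ c → c < v → G.Adj u v →
  (∀ w, u < w → w < v → d + 1 ≤ lv G w) → (∃ w, u < w ∧ w < v ∧ lv G w = d + 1) →
  d + 1 ≤ lv G u → d + 1 ≤ lv G v → (u, v) ∈ lst G d x x'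

/-- K3: there are few gaps in a block -/
def StK3 : Prop := ∀ (N k : ℕ) (G : SimpleGraph (Fin (N + 1))), 1 ≤ k → OKP k G →
  ∀ d a b, Cons (SS G d) a b →
    ((SS G (d + 1)).filter (fun x => a ≤ x ∧ x < b)).card ≤ 2 * k + 1 ∧
    ((SS G (d + 2)).filter (fun x => a ≤ x ∧ x < b)).card ≤ (2 * k + 1) ^ 2

/-- the property of the heights `X` in the block of level `l` in `(a,b)` -/
def GoodX {N : ℕ} (G : SimpleGraph (Fin (N + 1))) (m l : ℕ) (a b : Fin (N + 1))
    (X : Fin (N + 1) → Fin m) : Prop :=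
  ∀ d x x', (d + 1 = l ∨ d + 2 = l) → Cons (SS G (d + 1)) x x' → a ≤ x → x' ≤ b →
    (∀ F ⊆ lst G d x x', F.card = m →
      ¬ MonoFam (fun v : Fin (N + 1) => ((v : ℕ) : ℤ)) (fun v => (X v : ℕ)) F) ∧
    (∀ F ⊆ (lst G d x x').image Prod.swap, F.card = m →
      ¬ MonoFam (fun v : Fin (N + 1) => - ((v : ℕ) : ℤ)) (fun v => (X v : ℕ)) F)

/-- B: good heights exist in every block (`l - 2` is truncated subtraction) -/
def StB : Prop := ∀ (N k m : ℕ) (G : SimpleGraph (Fin (N + 1))), 1 ≤ k → OKP k G →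
  192 * k ≤ m ^ 2 → ∀ l, 1 ≤ l → ∀ a b, Cons (SS G (l - 2)) a b → ∃ X, GoodX G m l a b X

/-- the property of the final order `T` -/
def GoodT {N : ℕ} (G : SimpleGraph (Fin (N + 1))) (m : ℕ) (T : Fin (N + 1) → ℕ) : Prop :=
  Function.Injective T ∧ (∀ u v, lv G u < lv G v → T v < T u) ∧
  ∀ l, 1 ≤ l → ∀ a b, Cons (SS G (l - 2)) a b → ∃ X, GoodX G m l a b X ∧
    ∀ p q, lv G p = l → lv G q = l → a < p → p < b → a < q → q < b → T p < T q → X p ≤ X q

/-- T: a good order exists -/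
def StT : Prop := ∀ (N k m : ℕ) (G : SimpleGraph (Fin (N + 1))), 1 ≤ k → OKP k G →
  192 * k ≤ m ^ 2 → ∃ T, GoodT G m T

/-- H: at most four hub members -/
def StH : Prop := ∀ (N : ℕ) (G : SimpleGraph (Fin (N + 1))) (T : Fin (N + 1) → ℕ),
  Function.Injective T → (∀ u v, lv G u < lv G v → T v < T u) →
  ∀ F : Finset (Fin (N + 1) × Fin (N + 1)), Fam (fun v : Fin (N + 1) => (v : ℕ)) T F →
    (∀ e ∈ F, G.Adj e.1 e.2) →
    (∀ e ∈ F, ∀ w, Btw (fun v : Fin (N + 1) => (v : ℕ)) w e.1 e.2 → lv G e.2 < lv G w) →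
    F.card ≤ 4

/-- C: a class (all members have the same minimal level `d + 1` inside the span, tops of the same
level `l`, the same direction) has fewer than `m` members -/
def StC : Prop := ∀ (N m : ℕ) (G : SimpleGraph (Fin (N + 1))) (T : Fin (N + 1) → ℕ),
  1 ≤ m → GoodT G m T → ∀ (d l : ℕ), (l = d + 1 ∨ l = d + 2) →
  ∀ F : Finset (Fin (N + 1) × Fin (N + 1)), Fam (fun v : Fin (N + 1) => (v : ℕ)) T F →
    (∀ e ∈ F, G.Adj e.1 e.2) → (∀ e ∈ F, lv G e.2 = l) →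
    (∀ e ∈ F, (∀ w, Btw (fun v : Fin (N + 1) => (v : ℕ)) w e.1 e.2 → d + 1 ≤ lv G w) ∧
      ∃ w, Btw (fun v : Fin (N + 1) => (v : ℕ)) w e.1 e.2 ∧ lv G w = d + 1) →
    ((∀ e ∈ F, e.1 < e.2) ∨ (∀ e ∈ F, e.2 < e.1)) → F.card < m

/-- D: the four classes of the members that are not hub members -/
def StD : Prop := ∀ (N : ℕ) (G : SimpleGraph (Fin (N + 1))) (T : Fin (N + 1) → ℕ),
  Function.Injective T → (∀ u v, lv G u < lv G v → T v < T u) →
  ∀ F : Finset (Fin (N + 1) × Fin (N + 1)), Fam (fun v : Fin (N + 1) => (v : ℕ)) T F →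
    (∀ e ∈ F, G.Adj e.1 e.2) →
    (∀ e ∈ F, ∃ w, Btw (fun v : Fin (N + 1) => (v : ℕ)) w e.1 e.2 ∧ lv G w ≤ lv G e.2) →
    ∃ c : ℕ, ∀ e ∈ F, ∃ d l : ℕ, lv G e.2 = l ∧
      (∀ w, Btw (fun v : Fin (N + 1) => (v : ℕ)) w e.1 e.2 → d + 1 ≤ lv G w) ∧
      (∃ w, Btw (fun v : Fin (N + 1) => (v : ℕ)) w e.1 e.2 ∧ lv G w = d + 1) ∧
      ((d + 1 = c ∧ l = c + 1) ∨ (d + 1 = c + 1 ∧ l = c + 1) ∨
       (d + 1 = c + 1 ∧ l = c + 2) ∨ (d + 1 = c + 2 ∧ l = c + 2))

/-- the combinatorial theorem for outer k-planar graphs -/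
def StOuter : Prop := ∀ (N k m : ℕ) (G : SimpleGraph (Fin (N + 1))), 1 ≤ k → OKP k G →
  192 * k ≤ m ^ 2 → ∃ T : Fin (N + 1) → ℕ, Function.Injective T ∧
    ∀ F : Finset (Fin (N + 1) × Fin (N + 1)), Fam (fun v : Fin (N + 1) => (v : ℕ)) T F →
      (∀ e ∈ F, G.Adj e.1 e.2) → F.card ≤ 8 * m

/-! ## 4. Levelled k-planar graphs -/

/-- Levelled k-planar: `L` is the level of a vertex, `p` its position on the level; the edges join
consecutive levels and every edge is crossed by at most `k` others in the straight-line drawing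
with the vertices at `(p v, L v)`.  Edges are written (lower, upper). -/
structure LKP {V : Type} [Fintype V] (k : ℕ) (G : SimpleGraph V) (L p : V → ℕ) : Prop where
  inj : ∀ u v, L u = L v → p u = p v → u = v
  lev : ∀ u v, G.Adj u v → L v = L u + 1 ∨ L u = L v + 1
  crs : ∀ u v, G.Adj u v → L v = L u + 1 →
    (univ.filter (fun e : V × V => G.Adj e.1 e.2 ∧ L e.1 = L u ∧ L e.2 = L v ∧
      ((p e.1 < p u ∧ p v < p e.2) ∨ (p u < p e.1 ∧ p e.2 < p v)))).card ≤ k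

/-- LX: the order from left to right.  `lu u` is the leftmost upper neighbour of `u`. -/
def StLX : Prop := ∀ (V : Type) [Fintype V] (G : SimpleGraph V) (L p : V → ℕ),
  (∀ u v, L u = L v → p u = p v → u = v) →
  ∃ (ρ : V → ℕ), Function.Injective ρ ∧
    (∀ u v, L u = L v → (ρ u < ρ v ↔ p u < p v)) ∧
    (∀ u, (∃ v, G.Adj u v ∧ L v = L u + 1) → ∃ v, G.Adj u v ∧ L v = L u + 1 ∧ ρ v < ρ u) ∧
    (∀ u v, L v = L u + 1 → ρ v < ρ u → ∃ u' v', L u' = L u ∧ p u' ≤ p u ∧ G.Adj u' v' ∧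
      L v' = L u + 1 ∧ p v ≤ p v' ∧ (∀ v'', G.Adj u' v'' → L v'' = L u + 1 → p v' ≤ p v'') ∧
      ∀ w, L w = L u + 1 → ρ w < ρ u → p w ≤ p v')

/-- the edges (lower, upper) that cross the edge from `u` to its leftmost upper neighbour, on the
left side (`true`: lower end left of `u`) or on the right side (`false`) -/
def cl {V : Type} [Fintype V] (G : SimpleGraph V) (L p : V → ℕ) (side : Bool) (u : V) :
    Finset (V × V) :=
  univ.filter (fun e => G.Adj e.1 e.2 ∧ L e.1 = L u ∧ L e.2 = L u + 1 ∧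
    ∃ v, G.Adj u v ∧ L v = L u + 1 ∧ (∀ w, G.Adj u w → L w = L u + 1 → p v ≤ p w) ∧
      (if side then p e.1 < p u ∧ p v < p e.2 else p u < p e.1 ∧ p e.2 < p v))

/-- LL: heights by the local lemma -/
def StLL : Prop := ∀ (V : Type) [Fintype V] (k m : ℕ) (G : SimpleGraph V) (L p : V → ℕ),
  1 ≤ k → 48 * k ≤ m ^ 2 → LKP k G L p → ∃ X : V → Fin m, ∀ u,
    (∀ F ⊆ cl G L p true u, F.card = m →
      ¬ MonoFam (fun v => (p v : ℤ)) (fun v => (X v : ℕ)) F) ∧
    (∀ F ⊆ cl G L p false u, F.card = m →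
      ¬ MonoFam (fun v => - (p v : ℤ)) (fun v => (X v : ℕ)) F)

/-- the combinatorial theorem for levelled k-planar graphs -/
def StLevel : Prop := ∀ (V : Type) [Fintype V] (k m : ℕ) (G : SimpleGraph V) (L p : V → ℕ),
  1 ≤ k → 48 * k ≤ m ^ 2 → LKP k G L p → ∃ ρ T : V → ℕ, Function.Injective ρ ∧
    Function.Injective T ∧ ∀ F : Finset (V × V), Fam ρ T F →
      (∀ e ∈ F, G.Adj e.1 e.2) → F.card ≤ 4 * m + 2

end

end Pool.Agent.Lib.MP_1fca17_co
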