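import Mathlib
import Pool.Agent.Lib.MP_1fca17_co.Stmts

/-!
# B : good heights exist in every block (union bound)
-/

namespace Pool.Agent.Lib.MP_1fca17_co

open Finset
open scoped Classical

noncomputable section

namespace BAux

variable {N : ℕ}

/-- the heights with a monotone family of size `m` -/
def bad (m : ℕ) (E : Finset (Fin (N + 1) × Fin (N + 1))) (s : Fin (N + 1) → ℤ) :
    Finset (Fin (N + 1) → Fin m) :=
  univ.filter (fun X => ∃ F ⊆ E, F.card = m ∧ MonoFam s (fun v => (X v : ℕ)) F)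

theorem cons_unique {S : Finset (Fin (N + 1))} {x y z : Fin (N + 1)} (h1 : Cons S x y)
    (h2 : Cons S x z) : y = z := by
  obtain ⟨_, hy, hxy, h1'⟩ := h1
  obtain ⟨_, hz, hxz, h2'⟩ := h2
  rcases lt_trichotomy y z with h | h | h
  · exact absurd ⟨hxy, h⟩ (h2' y hy)
  · exact h
  · exact absurd ⟨hxz, h⟩ (h1' z hz)

/-- the heights which are bad for the gap starting at `x` -/
def bad3 (m : ℕ) (G : SimpleGraph (Fin (N + 1))) (d : ℕ) (x : Fin (N + 1)) :
    Finset (Fin (N + 1) → Fin m) :=
  univ.filter (fun X => ∃ x', Cons (SS G (d + 1)) x x' ∧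
    (X ∈ bad m (lst G d x x') (fun v : Fin (N + 1) => ((v : ℕ) : ℤ)) ∨
     X ∈ bad m ((lst G d x x').image Prod.swap) (fun v : Fin (N + 1) => - ((v : ℕ) : ℤ))))

theorem card_bad (hc : StCount) {m K : ℕ} (hm : 1 ≤ m)
    (E : Finset (Fin (N + 1) × Fin (N + 1))) (s : Fin (N + 1) → ℤ) (hE : E.card ≤ K) :
    (bad m E s).card * m ^ m ≤ K.choose m * (2 * m - 1).choose m * m ^ (N + 1) := by
  have h := hc (Fin (N + 1)) m hm E s
  rw [Fintype.card_fin] at h
  have h' : (bad m E s).card * m ^ m ≤
      E.card.choose m * (2 * m - 1).choose m * m ^ (N + 1) := by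
    unfold bad
    convert h using 3
    ext X
    simp only [Finset.mem_filter, Finset.mem_univ, true_and]
  refine le_trans h' ?_
  gcongr

theorem card_bad3 (hc : StCount) {m K : ℕ} (hm : 1 ≤ m) (G : SimpleGraph (Fin (N + 1)))
    (d : ℕ) (x : Fin (N + 1))
    (hK : ∀ x', Cons (SS G (d + 1)) x x' → (lst G d x x').card ≤ K) :
    (bad3 m G d x).card * m ^ m ≤
      2 * (K.choose m * (2 * m - 1).choose m * m ^ (N + 1)) := by
  by_cases hex : ∃ x', Cons (SS G (d + 1)) x x'
  · obtain ⟨x', hx'⟩ := hex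
    have hsub : bad3 m G d x ⊆
        bad m (lst G d x x') (fun v : Fin (N + 1) => ((v : ℕ) : ℤ)) ∪
        bad m ((lst G d x x').image Prod.swap) (fun v : Fin (N + 1) => - ((v : ℕ) : ℤ)) := by
      intro X hX
      obtain ⟨x'', hx'', h⟩ := (Finset.mem_filter.mp hX).2
      rw [cons_unique hx'' hx'] at h
      exact Finset.mem_union.mpr h
    have h1 := card_bad hc hm (lst G d x x') (fun v : Fin (N + 1) => ((v : ℕ) : ℤ)) (hK x' hx')
    have h2 := card_bad hc hm ((lst G d x x').image Prod.swap)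
      (fun v : Fin (N + 1) => - ((v : ℕ) : ℤ)) (Finset.card_image_le.trans (hK x' hx'))
    have h3 := (Finset.card_le_card hsub).trans (Finset.card_union_le _ _)
    calc (bad3 m G d x).card * m ^ m
        ≤ ((bad m (lst G d x x') (fun v : Fin (N + 1) => ((v : ℕ) : ℤ))).card +
          (bad m ((lst G d x x').image Prod.swap)
            (fun v : Fin (N + 1) => - ((v : ℕ) : ℤ))).card) * m ^ m :=
          Nat.mul_le_mul_right _ h3
      _ ≤ 2 * (K.choose m * (2 * m - 1).choose m * m ^ (N + 1)) := by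
          rw [add_mul]; omega
  · have : bad3 m G d x = ∅ := by
      rw [Finset.eq_empty_iff_forall_notMem]
      intro X hX
      obtain ⟨x'', hx'', _⟩ := (Finset.mem_filter.mp hX).2
      exact hex ⟨x'', hx''⟩
    rw [this]
    simp

end BAux

open BAux in
theorem stB (_h1 : StS1) (hc : StCount) (hn : StNum1) (hk1 : StK1) (hk3 : StK3) : StB := by
  intro N k m G hk hG hkm l hl a b hab
  have hm : 1 ≤ m := by
    rcases Nat.eq_zero_or_pos m with h | h
    · subst h
      have : 192 * k ≤ 0 := by simpa using hkm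
      omega
    · exact h
  by_contra hcon
  push Not at hcon
  -- the gaps
  let I : Finset (ℕ × Fin (N + 1)) :=
    ((SS G l).filter (fun x => a ≤ x ∧ x < b)).image (fun x => (l - 1, x)) ∪
      (if 2 ≤ l then ((SS G (l - 1)).filter (fun x => a ≤ x ∧ x < b)).image (fun x => (l - 2, x))
        else ∅)
  have hI : I.card ≤ (2 * k + 1) * (2 * k + 2) := by
    obtain ⟨h1, h2⟩ := hk3 N k G hk hG (l - 2) a b hab
    have hc1 : I.card ≤ ((SS G l).filter (fun x => a ≤ x ∧ x < b)).card +
        (if 2 ≤ l then ((SS G (l - 1)).filter (fun x => a ≤ x ∧ x < b)).image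
          (fun x => (l - 2, x)) else (∅ : Finset (ℕ × Fin (N + 1)))).card :=
      (Finset.card_union_le _ _).trans (Nat.add_le_add_right Finset.card_image_le _)
    by_cases hl2 : 2 ≤ l
    · have e1 : l - 2 + 1 = l - 1 := by omega
      have e2 : l - 2 + 2 = l := by omega
      rw [e1] at h1
      rw [e2] at h2
      rw [if_pos hl2] at hc1
      have h3 : (((SS G (l - 1)).filter (fun x => a ≤ x ∧ x < b)).image
          (fun x => (l - 2, x))).card ≤ 2 * k + 1 := Finset.card_image_le.trans h1
      nlinarith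
    · have e1 : l - 2 + 1 = l := by omega
      rw [e1] at h1
      rw [if_neg hl2, Finset.card_empty] at hc1
      nlinarith
  -- every X is bad
  have hall : (univ : Finset (Fin (N + 1) → Fin m)) ⊆ I.biUnion (fun i => bad3 m G i.1 i.2) := by
    intro X _
    have hX := hcon X
    unfold GoodX at hX
    push Not at hX
    obtain ⟨d, x, x', hd, hx, hax, hxb, h⟩ := hX
    rw [Finset.mem_biUnion]
    refine ⟨(d, x), ?_, ?_⟩
    · have hxS : x ∈ SS G (d + 1) := hx.1
      have hxb' : x < b := lt_of_lt_of_le hx.2.2.1 hxb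
      rcases hd with hd | hd
      · refine Finset.mem_union_left _ (Finset.mem_image.mpr ⟨x, ?_, ?_⟩)
        · rw [Finset.mem_filter, ← hd]
          exact ⟨hxS, hax, hxb'⟩
        · have : l - 1 = d := by omega
          rw [this]
      · have hl2 : 2 ≤ l := by omega
        refine Finset.mem_union_right _ ?_
        rw [if_pos hl2]
        refine Finset.mem_image.mpr ⟨x, ?_, ?_⟩
        · have : l - 1 = d + 1 := by omega
          rw [Finset.mem_filter, this]
          exact ⟨hxS, hax, hxb'⟩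
        · have : l - 2 = d := by omega
          rw [this]
    · rw [bad3, Finset.mem_filter]
      refine ⟨Finset.mem_univ _, x', hx, ?_⟩
      by_cases hA : ∀ F ⊆ lst G d x x', F.card = m →
          ¬ MonoFam (fun v : Fin (N + 1) => ((v : ℕ) : ℤ)) (fun v => (X v : ℕ)) F
      · right
        obtain ⟨F, hF, hFm, hM⟩ := h hA
        exact Finset.mem_filter.mpr ⟨Finset.mem_univ _, F, hF, hFm, hM⟩
      · left
        push Not at hA
        obtain ⟨F, hF, hFm, hM⟩ := hA
        exact Finset.mem_filter.mpr ⟨Finset.mem_univ _, F, hF, hFm, hM⟩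
  have hcard : m ^ (N + 1) ≤ ∑ i ∈ I, (bad3 m G i.1 i.2).card := by
    have h := (Finset.card_le_card hall).trans Finset.card_biUnion_le
    rw [Finset.card_univ, Fintype.card_fun, Fintype.card_fin, Fintype.card_fin] at h
    exact h
  set Q := 2 * ((4 * k).choose m * (2 * m - 1).choose m * m ^ (N + 1)) with hQ
  have hsum : m ^ (N + 1) * m ^ m ≤ (2 * k + 1) * (2 * k + 2) * Q := by
    calc m ^ (N + 1) * m ^ m ≤ (∑ i ∈ I, (bad3 m G i.1 i.2).card) * m ^ m :=
          Nat.mul_le_mul_right _ hcard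
      _ = ∑ i ∈ I, (bad3 m G i.1 i.2).card * m ^ m := Finset.sum_mul _ _ _
      _ ≤ ∑ i ∈ I, Q := Finset.sum_le_sum fun i _ =>
          card_bad3 hc hm G i.1 i.2 (fun x' hx' => hk1 N k G hk hG i.1 i.2 x' hx')
      _ = I.card * Q := by rw [Finset.sum_const, smul_eq_mul]
      _ ≤ (2 * k + 1) * (2 * k + 2) * Q := Nat.mul_le_mul_right _ hI
  have hnum := hn k m hk hkm
  have hpos : 0 < m ^ (N + 1) := pow_pos (by omega) _
  have h1 : (2 * k + 1) * (2 * k + 2) * Q =
      2 * ((2 * k + 1) * (2 * k + 2)) * ((4 * k).choose m * (2 * m - 1).choose m) *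
        m ^ (N + 1) := by
    rw [hQ]; ring
  rw [h1, mul_comm (m ^ (N + 1))] at hsum
  have h2 := Nat.mul_lt_mul_of_pos_right hnum hpos
  exact absurd hsum (not_le.mpr h2)

end

end Pool.Agent.Lib.MP_1fca17_co
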