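import Mathlib
import Pool.Agent.Lib.MP_1fca17_co.Stmts

/-!
# MP_1fca17_co : module C

A class of pairwise L-crossing edges (all members have the same minimal level inside the span,
tops of the same level, the same direction) has fewer than `m` members.
-/

namespace Pool.Agent.Lib.MP_1fca17_co

open Finset
open scoped Classical

/-- The gap, the block and the heights that belong to a cut point `c`. -/
theorem c_key (h1 : StS1) (hk2 : StK2) {N m : ℕ} (G : SimpleGraph (Fin (N + 1)))
    (T : Fin (N + 1) → ℕ) (hT : GoodT G m T) (d l : ℕ) (hl : l = d + 1 ∨ l = d + 2)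
    (c : Fin (N + 1)) (hc : c < Fin.last N) :
    ∃ (x x' a b : Fin (N + 1)) (X : Fin (N + 1) → Fin m),
      (∀ F ⊆ lst G d x x', F.card = m →
        ¬ MonoFam (fun v : Fin (N + 1) => ((v : ℕ) : ℤ)) (fun v => (X v : ℕ)) F) ∧
      (∀ F ⊆ (lst G d x x').image Prod.swap, F.card = m →
        ¬ MonoFam (fun v : Fin (N + 1) => - ((v : ℕ) : ℤ)) (fun v => (X v : ℕ)) F) ∧
      (∀ p q, lv G p = l → lv G q = l → a < p → p < b → a < q → q < b → T p < T q →
        X p ≤ X q) ∧
      (∀ u v, u ≤ c → c < v → G.Adj u v → (∀ w, u < w → w < v → d + 1 ≤ lv G w) →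
        (∃ w, u < w ∧ w < v ∧ lv G w = d + 1) → d + 1 ≤ lv G u → d + 1 ≤ lv G v →
        (u, v) ∈ lst G d x x' ∧ a < u ∧ v < b) := by
  obtain ⟨-, -, S3, -, -, -, S7⟩ := h1 N G
  obtain ⟨x, x', hcons, hxc, hcx⟩ := S7 (d + 1) c hc
  obtain ⟨a, b, hab, hac, hcb⟩ := S7 (l - 2) c hc
  obtain ⟨X, hX, hmono⟩ := hT.2.2 l (by omega) a b hab
  have hsub : ∀ s, s ∈ SS G (l - 2) → lv G s ≤ d := fun s hs =>
    ((S3 s (l - 2)).1 hs).trans (by omega)
  have hax : a ≤ x := by
    by_contra h
    push Not at h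
    have ha : a ∈ SS G (d + 1) := (S3 a (d + 1)).2 ((hsub a hab.1).trans (by omega))
    exact hcons.2.2.2 a ha ⟨h, lt_of_le_of_lt hac hcx⟩
  have hxb : x' ≤ b := by
    by_contra h
    push Not at h
    have hb : b ∈ SS G (d + 1) := (S3 b (d + 1)).2 ((hsub b hab.2.1).trans (by omega))
    exact hcons.2.2.2 b hb ⟨lt_of_le_of_lt hxc hcb, h⟩
  obtain ⟨g1, g2⟩ := hX d x x' (by omega) hcons hax hxb
  refine ⟨x, x', a, b, X, g1, g2, hmono, ?_⟩
  intro u v huc hcv hadj hall hex hu hv
  refine ⟨hk2 N G d x x' c u v hcons hxc hcx huc hcv hadj hall hex hu hv, ?_, ?_⟩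
  · by_contra h
    push Not at h
    have hla := hsub a hab.1
    rcases h.eq_or_lt with rfl | h
    · omega
    · have := hall a h (lt_of_le_of_lt hac hcv)
      omega
  · by_contra h
    push Not at h
    have hlb := hsub b hab.2.1
    rcases h.eq_or_lt with rfl | h
    · omega
    · have := hall b (lt_of_le_of_lt huc hcb) h
      omega

/-- **C.** -/
theorem stC (h1 : StS1) (hk2 : StK2) : StC := by
  intro N m G T hm hT d l hl F hF hadj hlv hcls hdir
  by_contra hcard
  push Not at hcard
  obtain ⟨F', hF', hcard'⟩ := Finset.exists_subset_card_eq hcard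
  have hne : F.Nonempty := by
    rw [← Finset.card_pos]
    omega
  have hlv1 : ∀ e ∈ F, l ≤ lv G e.1 := by
    intro e he
    by_contra h
    push Not at h
    have h2 := hT.2.1 e.1 e.2 (by rw [hlv e he]; exact h)
    have h3 := hF.1 e he
    omega
  rcases hdir with hdir | hdir
  · -- all members go to the right
    obtain ⟨e0, he0, hmax⟩ := F.exists_max_image (fun e => e.1) hne
    have hcut : ∀ f ∈ F, f.1 ≤ e0.1 ∧ e0.1 < f.2 := by
      intro f hf
      refine ⟨hmax f hf, ?_⟩
      by_cases hef : e0 = f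
      · rw [← hef]
        exact hdir e0 he0
      · have hd0 := hdir e0 he0
        have hdf := hdir f hf
        have hmf := hmax f hf
        rcases hF.2 e0 he0 f hf hef with h | h
        · rcases h.2.2 with h | h
          · exact Fin.lt_def.2 h.2
          · simp only [Fin.lt_def, Fin.le_def] at *
            omega
        · rcases h.2.2 with h | h
          · simp only [Fin.lt_def, Fin.le_def] at *
            omega
          · simp only [Fin.lt_def, Fin.le_def] at *
            omega
    have hc : e0.1 < Fin.last N := lt_of_lt_of_le (hdir e0 he0) (Fin.le_last _)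
    obtain ⟨x, x', a, b, X, g1, -, hmono, hin⟩ := c_key h1 hk2 G T hT d l hl e0.1 hc
    have hmem : ∀ e ∈ F, e ∈ lst G d x x' ∧ a < e.1 ∧ e.2 < b := by
      intro e he
      have hd := hdir e he
      have hcl := hcls e he
      refine hin e.1 e.2 (hcut e he).1 (hcut e he).2 (hadj e he) ?_ ?_ ?_ ?_
      · intro w hw1 hw2
        exact hcl.1 w (Or.inl ⟨Fin.lt_def.1 hw1, Fin.lt_def.1 hw2⟩)
      · obtain ⟨w, hw, hw'⟩ := hcl.2
        rcases hw with hw | hw
        · exact ⟨w, Fin.lt_def.2 hw.1, Fin.lt_def.2 hw.2, hw'⟩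
        · simp only [Fin.lt_def, Fin.le_def] at *
          omega
      · have := hlv1 e he
        omega
      · rw [hlv e he]
        omega
    refine g1 F' (fun e he => (hmem e (hF' he)).1) hcard' ?_
    have hstep : ∀ e ∈ F, ∀ f ∈ F, LC (fun v : Fin (N + 1) => (v : ℕ)) T f e →
        f.2 ≠ e.2 ∧ (((f.1 : ℕ) : ℤ) < ((e.1 : ℕ) : ℤ) ∧ (X f.2 : ℕ) ≤ (X e.2 : ℕ)) := by
      intro e he f hf h
      refine ⟨fun h' => ?_, ?_, ?_⟩
      · have := h.1
        rw [h'] at this
        exact lt_irrefl _ this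
      · have hdf := hdir f hf
        rcases h.2.2 with h | h
        · exact_mod_cast h.1
        · simp only [Fin.lt_def, Fin.le_def] at *
          omega
      · have hme := hmem e he
        have hmf := hmem f hf
        exact Fin.le_def.1 (hmono f.2 e.2 (hlv f hf) (hlv e he)
          (hmf.2.1.trans (hdir f hf)) hmf.2.2 (hme.2.1.trans (hdir e he)) hme.2.2 h.1)
    intro e he f hf hef
    rcases hF.2 e (hF' he) f (hF' hf) hef with h | h
    · obtain ⟨q1, q2⟩ := hstep e (hF' he) f (hF' hf) h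
      exact ⟨q1.symm, Or.inr q2⟩
    · obtain ⟨q1, q2⟩ := hstep f (hF' hf) e (hF' he) h
      exact ⟨q1, Or.inl q2⟩
  · -- all members go to the left
    obtain ⟨e0, he0, hmin⟩ := F.exists_min_image (fun e => e.1) hne
    have hcut : ∀ f ∈ F, e0.1 ≤ f.1 ∧ f.2 < e0.1 := by
      intro f hf
      refine ⟨hmin f hf, ?_⟩
      by_cases hef : e0 = f
      · rw [← hef]
        exact hdir e0 he0
      · have hd0 := hdir e0 he0
        have hdf := hdir f hf
        have hmf := hmin f hf
        rcases hF.2 e0 he0 f hf hef with h | h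
        · rcases h.2.2 with h | h
          · simp only [Fin.lt_def, Fin.le_def] at *
            omega
          · exact Fin.lt_def.2 h.1
        · rcases h.2.2 with h | h
          · simp only [Fin.lt_def, Fin.le_def] at *
            omega
          · simp only [Fin.lt_def, Fin.le_def] at *
            omega
    have hpos : 0 < (e0.1 : ℕ) := lt_of_le_of_lt (Nat.zero_le _) (Fin.lt_def.1 (hdir e0 he0))
    have hc0 : (e0.1 : ℕ) - 1 < N + 1 := by
      have := e0.1.isLt
      omega
    have hc : (⟨(e0.1 : ℕ) - 1, hc0⟩ : Fin (N + 1)) < Fin.last N := by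
      rw [Fin.lt_def, Fin.val_last]
      have := e0.1.isLt
      show (e0.1 : ℕ) - 1 < N
      omega
    obtain ⟨x, x', a, b, X, -, g2, hmono, hin⟩ :=
      c_key h1 hk2 G T hT d l hl ⟨(e0.1 : ℕ) - 1, hc0⟩ hc
    have hmem : ∀ e ∈ F, (e.2, e.1) ∈ lst G d x x' ∧ a < e.2 ∧ e.1 < b := by
      intro e he
      have hd := hdir e he
      have hcl := hcls e he
      have hcu := hcut e he
      refine hin e.2 e.1 ?_ ?_ (hadj e he).symm ?_ ?_ ?_ ?_
      · rw [Fin.le_def]
        show (e.2 : ℕ) ≤ (e0.1 : ℕ) - 1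
        have := Fin.lt_def.1 hcu.2
        omega
      · rw [Fin.lt_def]
        show (e0.1 : ℕ) - 1 < (e.1 : ℕ)
        have := Fin.le_def.1 hcu.1
        omega
      · intro w hw1 hw2
        exact hcl.1 w (Or.inr ⟨Fin.lt_def.1 hw1, Fin.lt_def.1 hw2⟩)
      · obtain ⟨w, hw, hw'⟩ := hcl.2
        rcases hw with hw | hw
        · simp only [Fin.lt_def, Fin.le_def] at *
          omega
        · exact ⟨w, Fin.lt_def.2 hw.1, Fin.lt_def.2 hw.2, hw'⟩
      · rw [hlv e he]
        omega
      · have := hlv1 e he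
        omega
    refine g2 F' (fun e he => Finset.mem_image.2 ⟨(e.2, e.1), (hmem e (hF' he)).1, rfl⟩)
      hcard' ?_
    have hstep : ∀ e ∈ F, ∀ f ∈ F, LC (fun v : Fin (N + 1) => (v : ℕ)) T f e →
        f.2 ≠ e.2 ∧ (-((f.1 : ℕ) : ℤ) < -((e.1 : ℕ) : ℤ) ∧ (X f.2 : ℕ) ≤ (X e.2 : ℕ)) := by
      intro e he f hf h
      refine ⟨fun h' => ?_, ?_, ?_⟩
      · have := h.1
        rw [h'] at this
        exact lt_irrefl _ this
      · have hdf := hdir f hf
        rcases h.2.2 with h | h
        · simp only [Fin.lt_def, Fin.le_def] at *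
          omega
        · have h3 := h.2
          have h4 : ((e.1 : ℕ) : ℤ) < ((f.1 : ℕ) : ℤ) := by exact_mod_cast h3
          linarith
      · have hme := hmem e he
        have hmf := hmem f hf
        exact Fin.le_def.1 (hmono f.2 e.2 (hlv f hf) (hlv e he)
          hmf.2.1 ((hdir f hf).trans hmf.2.2) hme.2.1 ((hdir e he).trans hme.2.2) h.1)
    intro e he f hf hef
    rcases hF.2 e (hF' he) f (hF' hf) hef with h | h
    · obtain ⟨q1, q2⟩ := hstep e (hF' he) f (hF' hf) h
      exact ⟨q1.symm, Or.inr q2⟩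
    · obtain ⟨q1, q2⟩ := hstep f (hF' hf) e (hF' he) h
      exact ⟨q1, Or.inl q2⟩

end Pool.Agent.Lib.MP_1fca17_co
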