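import Pool.Agent.Lib.MP_1fca17_co.Stmts

/-!
# COUNT: few heights have a monotone family of size `m`
-/

namespace Pool.Agent.Lib.MP_1fca17_co

open Finset
open scoped Classical

noncomputable section

namespace CountAux

/-- The multiset of the values of a function. -/
def ms {m : ℕ} (g : Fin m → Fin m) : Sym (Fin m) m :=
  ⟨((List.ofFn g : List (Fin m)) : Multiset (Fin m)), by simp⟩

lemma ms_inj {m : ℕ} {g g' : Fin m → Fin m} (hg : Monotone g) (hg' : Monotone g')
    (h : ms g = ms g') : g = g' := by
  have h1 : ((List.ofFn g : List (Fin m)) : Multiset (Fin m)) = (List.ofFn g' : List (Fin m)) :=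
    congrArg Subtype.val h
  have h2 := Multiset.coe_eq_coe.mp h1
  exact List.ofFn_injective (h2.eq_of_sortedLE hg.sortedLE_ofFn hg'.sortedLE_ofFn)

/-- Functions that are monotone along an injective sequence of length `m`. -/
lemma card_mono {V : Type} [Fintype V] {m : ℕ} (hm : 1 ≤ m) (t : Fin m → V)
    (ht : Function.Injective t) :
    ((univ : Finset (V → Fin m)).filter (fun X => Monotone (X ∘ t))).card * m ^ m ≤
      (2 * m - 1).choose m * m ^ Fintype.card V := by
  have h1 : ((univ : Finset (V → Fin m)).filter (fun X => Monotone (X ∘ t))).card ≤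
      Fintype.card (Sym (Fin m) m × ({v // v ∉ Set.range t} → Fin m)) := by
    rw [← Fintype.card_subtype]
    refine Fintype.card_le_of_injective
      (fun X => (ms (X.1 ∘ t), fun v => X.1 v.1)) ?_
    rintro ⟨X, hX⟩ ⟨Y, hY⟩ h
    simp only [Prod.mk.injEq] at h
    have h2 := ms_inj hX hY h.1
    apply Subtype.ext
    funext v
    by_cases hv : v ∈ Set.range t
    · obtain ⟨i, rfl⟩ := hv
      exact congrFun h2 i
    · exact congrFun h.2 ⟨v, hv⟩
  have h3 : Fintype.card {v // v ∉ Set.range t} + m = Fintype.card V := by
    have h4 : Fintype.card {v // v ∈ Set.range t} = m := by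
      have := Fintype.card_congr (Equiv.ofInjective t ht)
      rw [Fintype.card_fin] at this
      exact this.symm
    have h5 := Fintype.card_subtype_compl (fun v => v ∈ Set.range t)
    have h6 := Fintype.card_subtype_le (fun v => v ∈ Set.range t)
    omega
  rw [Fintype.card_prod, Sym.card_sym_eq_choose, Fintype.card_fin, Fintype.card_fun,
    Fintype.card_fin] at h1
  calc _ ≤ ((m + m - 1).choose m * m ^ Fintype.card {v // v ∉ Set.range t}) * m ^ m :=
        Nat.mul_le_mul_right _ h1
    _ = (2 * m - 1).choose m * m ^ Fintype.card V := by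
        rw [← two_mul, mul_assoc, ← pow_add, h3]

/-- The bound for a single family. -/
lemma card_fam {V : Type} [Fintype V] {m : ℕ} (hm : 1 ≤ m) (s : V → ℤ) (F : Finset (V × V))
    (hF : F.card = m) :
    ((univ : Finset (V → Fin m)).filter (fun X => MonoFam s (fun v => (X v : ℕ)) F)).card * m ^ m ≤
      (2 * m - 1).choose m * m ^ Fintype.card V := by
  rcases Finset.eq_empty_or_nonempty
    ((univ : Finset (V → Fin m)).filter (fun X => MonoFam s (fun v => (X v : ℕ)) F)) with
    h0 | ⟨X₀, h0⟩
  · rw [h0, Finset.card_empty, zero_mul]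
    exact Nat.zero_le _
  simp only [mem_filter, mem_univ, true_and] at h0
  have hs : Set.InjOn (fun e : V × V => s e.1) (F : Set (V × V)) := by
    intro e he f hf hef
    by_contra hne
    have := (h0 e he f hf hne).2
    simp only at hef
    omega
  have hcard : (F.image (fun e : V × V => s e.1)).card = m := by
    rw [Finset.card_image_of_injOn hs, hF]
  have hex : ∀ i : Fin m, ∃ e ∈ F,
      s e.1 = (F.image (fun e : V × V => s e.1)).orderEmbOfFin hcard i := by
    intro i
    have := Finset.orderEmbOfFin_mem (F.image (fun e : V × V => s e.1)) hcard i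
    rw [Finset.mem_image] at this
    obtain ⟨e, he, hes⟩ := this
    exact ⟨e, he, hes⟩
  choose e he hes using hex
  have hlt : ∀ i j : Fin m, i < j → s (e i).1 < s (e j).1 := by
    intro i j hij
    rw [hes, hes]
    exact (OrderEmbedding.strictMono _) hij
  have hne : ∀ i j : Fin m, i ≠ j → e i ≠ e j := by
    intro i j hij h
    rcases lt_or_gt_of_ne hij with h1 | h1
    · have := hlt i j h1
      rw [h] at this
      exact lt_irrefl _ this
    · have := hlt j i h1
      rw [h] at this
      exact lt_irrefl _ this
  have ht : Function.Injective (fun i => (e i).2) := by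
    intro i j hij
    by_contra h
    exact (h0 (e i) (he i) (e j) (he j) (hne i j h)).1 hij
  refine le_trans (Nat.mul_le_mul_right _ (Finset.card_le_card ?_))
    (card_mono hm (fun i => (e i).2) ht)
  intro X hX
  simp only [mem_filter, mem_univ, true_and] at hX ⊢
  intro i j hij
  rcases hij.eq_or_lt with rfl | h1
  · exact le_rfl
  · have h2 := hlt i j h1
    rcases (hX (e i) (he i) (e j) (he j) (hne i j h1.ne)).2 with ⟨_, h3⟩ | ⟨h3, _⟩
    · exact h3
    · omega

end CountAux

open CountAux in
theorem stCount : StCount := by
  intro V _ m hm E s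
  calc ((univ : Finset (V → Fin m)).filter (fun X => ∃ F ⊆ E, F.card = m ∧
        MonoFam s (fun v => (X v : ℕ)) F)).card * m ^ m
      ≤ (∑ F ∈ E.powersetCard m, ((univ : Finset (V → Fin m)).filter
          (fun X => MonoFam s (fun v => (X v : ℕ)) F)).card) * m ^ m := by
        apply Nat.mul_le_mul_right
        refine (Finset.card_le_card ?_).trans (Finset.card_biUnion_le
          (s := E.powersetCard m) (t := fun F => (univ : Finset (V → Fin m)).filter
          (fun X => MonoFam s (fun v => (X v : ℕ)) F)))
        intro X hX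
        simp only [mem_filter, mem_univ, true_and] at hX
        obtain ⟨F, hFE, hF, hM⟩ := hX
        simp only [mem_biUnion, mem_powersetCard, mem_filter, mem_univ, true_and]
        exact ⟨F, ⟨hFE, hF⟩, hM⟩
    _ = ∑ F ∈ E.powersetCard m, (((univ : Finset (V → Fin m)).filter
          (fun X => MonoFam s (fun v => (X v : ℕ)) F)).card * m ^ m) := by rw [sum_mul]
    _ ≤ ∑ F ∈ E.powersetCard m, (2 * m - 1).choose m * m ^ Fintype.card V := by
        refine Finset.sum_le_sum fun F hF => card_fam hm s F ?_
        exact (mem_powersetCard.mp hF).2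
    _ = E.card.choose m * (2 * m - 1).choose m * m ^ Fintype.card V := by
        rw [sum_const, card_powersetCard, smul_eq_mul, mul_assoc]

end

end Pool.Agent.Lib.MP_1fca17_co
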