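import Mathlib
import Pool.Agent.Lib.MP_1fca17_co.Stmts

/-!
# MP_1fca17_co : the four classes of the members that are not hub members
-/

set_option autoImplicit false

namespace Pool.Agent.Lib.MP_1fca17_co

open Finset
open scoped Classical

namespace DAux

variable {N : ℕ}

/-- The minimal level strictly inside an edge. -/
lemma min_level (G : SimpleGraph (Fin (N + 1))) (e : Fin (N + 1) × Fin (N + 1))
    (h : ∃ w, Btw (fun v : Fin (N + 1) => (v : ℕ)) w e.1 e.2) :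
    ∃ μ, (∀ w, Btw (fun v : Fin (N + 1) => (v : ℕ)) w e.1 e.2 → μ ≤ lv G w) ∧
      ∃ w, Btw (fun v : Fin (N + 1) => (v : ℕ)) w e.1 e.2 ∧ lv G w = μ := by
  have hex : ∃ μ, ∃ w, Btw (fun v : Fin (N + 1) => (v : ℕ)) w e.1 e.2 ∧ lv G w = μ := by
    obtain ⟨w, hw⟩ := h
    exact ⟨_, w, hw, rfl⟩
  refine ⟨Nat.find hex, fun w hw => Nat.find_min' hex ⟨w, hw, rfl⟩, Nat.find_spec hex⟩

end DAux

open DAux in
theorem stD (h1 : StS1) : StD := by
  intro N G T hT hlv F hF hadj hnh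
  obtain ⟨_, _, hmem, _, hpass, _, _⟩ := h1 N G
  -- the data of a member
  have hdat : ∀ e ∈ F, ∃ μ, 1 ≤ μ ∧
      (∀ w, Btw (fun v : Fin (N + 1) => (v : ℕ)) w e.1 e.2 → μ ≤ lv G w) ∧
      (∃ w, Btw (fun v : Fin (N + 1) => (v : ℕ)) w e.1 e.2 ∧ lv G w = μ) ∧
      lv G e.1 ≤ μ + 1 ∧ lv G e.2 ≤ μ + 1 ∧ μ ≤ lv G e.2 := by
    intro e he
    obtain ⟨w₀, hw₀, hl₀⟩ := hnh e he
    obtain ⟨μ, hmin, w, hw, hlw⟩ := min_level G e ⟨w₀, hw₀⟩
    have hw1 : w ∈ SS G μ := (hmem w μ).2 hlw.le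
    refine ⟨μ, ?_, hmin, ⟨w, hw, hlw⟩, ?_, ?_, (hmin w₀ hw₀).trans hl₀⟩
    · by_contra h0
      have h0' : μ = 0 := by omega
      rw [h0'] at hw1
      simp only [SS, mem_insert, mem_singleton] at hw1
      have hb : (w : ℕ) ≠ 0 ∧ (w : ℕ) ≠ N := by
        have l1 := e.1.2
        have l2 := e.2.2
        rcases hw with ⟨a, b⟩ | ⟨a, b⟩
        · dsimp only at a b
          constructor <;> omega
        · dsimp only at a b
          constructor <;> omega
      rcases hw1 with h | h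
      · exact hb.1 (by rw [h]; rfl)
      · exact hb.2 (by rw [h]; rfl)
    · rcases hw with ⟨a, b⟩ | ⟨a, b⟩
      · exact (hmem _ _).1 (hpass μ e.1 e.2 w hw1 a b (hadj e he)).1
      · exact (hmem _ _).1 (hpass μ e.2 e.1 w hw1 a b (hadj e he).symm).2
    · rcases hw with ⟨a, b⟩ | ⟨a, b⟩
      · exact (hmem _ _).1 (hpass μ e.1 e.2 w hw1 a b (hadj e he)).2
      · exact (hmem _ _).1 (hpass μ e.2 e.1 w hw1 a b (hadj e he).symm).1
  rcases F.eq_empty_or_nonempty with hE | hne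
  · subst hE
    exact ⟨0, fun e he => absurd he (notMem_empty e)⟩
  obtain ⟨s, hs, hmax⟩ := F.exists_max_image (fun e => T e.2) hne
  obtain ⟨μs, hμ1, hμmin, hμw, hμa, hμb, hμc⟩ := hdat s hs
  refine ⟨μs - 1, fun f hf => ?_⟩
  obtain ⟨μ, h1', hmin, hw, ha, hb, hc⟩ := hdat f hf
  refine ⟨μ - 1, lv G f.2, rfl, fun w hw' => ?_, ?_, ?_⟩
  · have := hmin w hw'
    omega
  · obtain ⟨w, hw1, hw2⟩ := hw
    exact ⟨w, hw1, by omega⟩
  · by_cases hfs : f = s
    · subst hfs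
      -- both minimal levels agree
      obtain ⟨w, hw1, hw2⟩ := hw
      obtain ⟨w', hw1', hw2'⟩ := hμw
      have i1 := hμmin w hw1
      have i2 := hmin w' hw1'
      have : μ = μs := by omega
      omega
    · have hlc : LC (fun v : Fin (N + 1) => (v : ℕ)) T f s := by
        rcases hF.2 f hf s hs hfs with h | h
        · exact absurd h.1 (not_lt.2 (hmax f hf))
        · exact h
      have k1 : lv G s.2 ≤ lv G f.2 := by
        by_contra hlt
        exact absurd (hlv _ _ (not_le.1 hlt)) (not_lt.2 hlc.1.le)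
      have k2 : lv G f.2 ≤ lv G s.1 := by
        by_contra hlt
        exact absurd (hlv _ _ (not_le.1 hlt)) (not_lt.2 hlc.2.1.le)
      omega

end Pool.Agent.Lib.MP_1fca17_co
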