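import Mathlib
import Pool.Agent.Lib.MP_1fca17_co.Stmts

/-!
# GEO: straight-line drawings with exponential heights

`P v = (ρ v, R ^ T v)` with `R = 2 M + 2`, where `M` bounds `ρ`.
-/

namespace Pool.Agent.Lib.MP_1fca17_co

open Finset
open scoped Classical

noncomputable section

namespace GeoAux

/-- coordinates of a point of an open segment -/
theorem mem_sg {V : Type} {P : V → ℝ × ℝ} {a b : V} {z : ℝ × ℝ} (h : z ∈ sg P (a, b)) :
    ∃ t : ℝ, 0 < t ∧ t < 1 ∧ z.1 = (P a).1 + t * ((P b).1 - (P a).1) ∧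
      z.2 = (P a).2 + t * ((P b).2 - (P a).2) := by
  obtain ⟨s, t, hs, ht, hst, rfl⟩ := h
  refine ⟨t, ht, by linarith, ?_, ?_⟩
  · simp only [Prod.fst_add, Prod.smul_fst, smul_eq_mul]
    have : s = 1 - t := by linarith
    rw [this]
    ring
  · simp only [Prod.snd_add, Prod.smul_snd, smul_eq_mul]
    have : s = 1 - t := by linarith
    rw [this]
    ring

/-- twice the area of the triangle -/
def cr {V : Type} (P : V → ℝ × ℝ) (u v w : V) : ℝ :=
  ((P v).2 - (P u).2) * ((P w).1 - (P u).1) - ((P w).2 - (P u).2) * ((P v).1 - (P u).1)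

theorem cr_of_col {V : Type} {P : V → ℝ × ℝ} {u v w : V}
    (h : Collinear ℝ ({P u, P v, P w} : Set (ℝ × ℝ))) : cr P u v w = 0 := by
  rw [collinear_iff_of_mem (p₀ := P u) (by simp)] at h
  obtain ⟨d, hd⟩ := h
  obtain ⟨r, hr⟩ := hd (P v) (by simp)
  obtain ⟨s, hs⟩ := hd (P w) (by simp)
  have r1 : (P v).1 - (P u).1 = r * d.1 := by rw [hr]; simp
  have r2 : (P v).2 - (P u).2 = r * d.2 := by rw [hr]; simp
  have s1 : (P w).1 - (P u).1 = s * d.1 := by rw [hs]; simp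
  have s2 : (P w).2 - (P u).2 = s * d.2 := by rw [hs]; simp
  unfold cr
  rw [r1, r2, s1, s2]
  ring

theorem cr_swap {V : Type} (P : V → ℝ × ℝ) (u v w : V) : cr P v u w = - cr P u v w := by
  unfold cr; ring

theorem cr_rot {V : Type} (P : V → ℝ × ℝ) (u v w : V) : cr P v w u = cr P u v w := by
  unfold cr; ring

/-- two open segments with a common endpoint `p` -/
theorem cr_of_share {V : Type} {P : V → ℝ × ℝ} {p q r : V} {z : ℝ × ℝ}
    (h1 : z ∈ sg P (p, q)) (h2 : z ∈ sg P (p, r)) : cr P p q r = 0 := by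
  obtain ⟨t, ht, -, e1, e2⟩ := mem_sg h1
  obtain ⟨s, hs, -, e3, e4⟩ := mem_sg h2
  have k1 : t * ((P q).1 - (P p).1) = s * ((P r).1 - (P p).1) := by linarith
  have k2 : t * ((P q).2 - (P p).2) = s * ((P r).2 - (P p).2) := by linarith
  have : t * s * cr P p q r = 0 := by
    unfold cr
    have : t * s * (((P q).2 - (P p).2) * ((P r).1 - (P p).1) -
        ((P r).2 - (P p).2) * ((P q).1 - (P p).1)) =
        (t * ((P q).2 - (P p).2)) * (s * ((P r).1 - (P p).1)) -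
        (s * ((P r).2 - (P p).2)) * (t * ((P q).1 - (P p).1)) := by ring
    rw [this, k1, k2]
    ring
  rcases mul_eq_zero.1 this with h | h
  · exact absurd h (mul_pos ht hs).ne'
  · exact h

section

variable {V : Type} (ρ T : V → ℕ) (M : ℕ)

/-- the drawing -/
def pt (v : V) : ℝ × ℝ := ((ρ v : ℝ), (2 * (M : ℝ) + 2) ^ T v)

variable {ρ T M}

theorem R_ge : (2 : ℝ) ≤ 2 * (M : ℝ) + 2 := by
  have : (0 : ℝ) ≤ M := Nat.cast_nonneg M
  linarith

theorem R_gt_one : (1 : ℝ) < 2 * (M : ℝ) + 2 := lt_of_lt_of_le (by norm_num) R_ge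

theorem y_pos (v : V) : 0 < (pt ρ T M v).2 := by
  have := R_ge (M := M)
  exact pow_pos (by linarith) _

theorem y_grow {u v : V} (h : T u < T v) :
    (2 * (M : ℝ) + 2) * (pt ρ T M u).2 ≤ (pt ρ T M v).2 := by
  change (2 * (M : ℝ) + 2) * (2 * (M : ℝ) + 2) ^ T u ≤ (2 * (M : ℝ) + 2) ^ T v
  rw [← pow_succ']
  exact pow_le_pow_right₀ R_gt_one.le h

theorem y_lt {u v : V} (h : T u < T v) : (pt ρ T M u).2 < (pt ρ T M v).2 :=
  pow_lt_pow_right₀ R_gt_one h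

theorem T_lt {u v : V} (h : (pt ρ T M u).2 < (pt ρ T M v).2) : T u < T v :=
  (pow_lt_pow_iff_right₀ R_gt_one).1 h

theorem x_diff (hM : ∀ v, ρ v ≤ M) (u v : V) : |(pt ρ T M u).1 - (pt ρ T M v).1| ≤ M := by
  have h1 : ((ρ u : ℕ) : ℝ) ≤ M := by exact_mod_cast hM u
  have h2 : ((ρ v : ℕ) : ℝ) ≤ M := by exact_mod_cast hM v
  have h3 : (0 : ℝ) ≤ ρ u := Nat.cast_nonneg _
  have h4 : (0 : ℝ) ≤ ρ v := Nat.cast_nonneg _
  change |((ρ u : ℕ) : ℝ) - (ρ v : ℕ)| ≤ M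
  rw [abs_le]
  constructor <;> linarith

theorem x_far (hρ : Function.Injective ρ) {u v : V} (h : u ≠ v) :
    1 ≤ |(pt ρ T M u).1 - (pt ρ T M v).1| := by
  change 1 ≤ |((ρ u : ℕ) : ℝ) - (ρ v : ℕ)|
  have h1 : (ρ u : ℤ) - ρ v ≠ 0 := by
    intro h2
    exact h (hρ (by omega))
  have h2 : (1 : ℤ) ≤ |(ρ u : ℤ) - ρ v| := Int.one_le_abs h1
  exact_mod_cast h2

theorem cr_ne_of_lt (hρ : Function.Injective ρ) (hM : ∀ v, ρ v ≤ M) {u v w : V}
    (h1 : T u < T v) (h2 : T v < T w) : cr (pt ρ T M) u v w ≠ 0 := by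
  intro h
  have huv : v ≠ u := by rintro rfl; exact lt_irrefl _ h1
  have e : ((pt ρ T M w).2 - (pt ρ T M u).2) * ((pt ρ T M v).1 - (pt ρ T M u).1) =
      ((pt ρ T M v).2 - (pt ρ T M u).2) * ((pt ρ T M w).1 - (pt ρ T M u).1) := by
    unfold cr at h
    linarith
  have e' := congrArg abs e
  rw [abs_mul, abs_mul] at e'
  have p1 := y_grow (ρ := ρ) (T := T) (M := M) h1
  have p2 := y_grow (ρ := ρ) (T := T) (M := M) h2
  have p3 := y_pos (ρ := ρ) (T := T) (M := M) u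
  have p4 := y_pos (ρ := ρ) (T := T) (M := M) v
  have p5 := y_lt (ρ := ρ) (T := T) (M := M) h1
  have p6 := y_lt (ρ := ρ) (T := T) (M := M) h2
  have hMn : (0 : ℝ) ≤ M := Nat.cast_nonneg M
  rw [abs_of_pos (by linarith : 0 < (pt ρ T M w).2 - (pt ρ T M u).2),
    abs_of_pos (by linarith : 0 < (pt ρ T M v).2 - (pt ρ T M u).2)] at e'
  have q1 := x_far (T := T) (M := M) hρ huv
  have q2 := x_diff (T := T) hM w u
  have a1 : (pt ρ T M w).2 - (pt ρ T M u).2 ≤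
      ((pt ρ T M w).2 - (pt ρ T M u).2) * |(pt ρ T M v).1 - (pt ρ T M u).1| :=
    le_mul_of_one_le_right (by linarith) q1
  have a2 : ((pt ρ T M v).2 - (pt ρ T M u).2) * |(pt ρ T M w).1 - (pt ρ T M u).1| ≤
      (pt ρ T M v).2 * M := by
    apply mul_le_mul (by linarith) q2 (abs_nonneg _) p4.le
  nlinarith

theorem cr_ne (hρ : Function.Injective ρ) (hT : Function.Injective T) (hM : ∀ v, ρ v ≤ M)
    {u v w : V} (h1 : u ≠ v) (h2 : u ≠ w) (h3 : v ≠ w) : cr (pt ρ T M) u v w ≠ 0 := by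
  have k1 : T u ≠ T v := fun h => h1 (hT h)
  have k2 : T u ≠ T w := fun h => h2 (hT h)
  have k3 : T v ≠ T w := fun h => h3 (hT h)
  rcases lt_or_gt_of_ne k1 with c1 | c1 <;> rcases lt_or_gt_of_ne k2 with c2 | c2 <;>
    rcases lt_or_gt_of_ne k3 with c3 | c3
  · exact cr_ne_of_lt hρ hM c1 c3
  · -- u < w < v
    have := cr_ne_of_lt hρ hM c2 c3
    rw [← cr_rot, cr_swap] at this
    intro h
    apply this
    rw [← cr_rot] at h
    rw [h, neg_zero]
  · omega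
  · -- w < u < v
    have := cr_ne_of_lt hρ hM c2 c1
    rwa [← cr_rot] at this
  · -- v < u < w
    have := cr_ne_of_lt hρ hM c1 c2
    rw [cr_swap] at this
    intro h
    exact this (by rw [h, neg_zero])
  · omega
  · -- v < w < u
    have := cr_ne_of_lt hρ hM c3 c2
    rwa [cr_rot] at this
  · -- w < v < u
    have := cr_ne_of_lt hρ hM c3 c1
    rw [cr_swap, cr_rot] at this
    intro h
    apply this
    rw [h, neg_zero]

/-- a point below the height of `b` on the segment `cd` is close to the bottom `c` -/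
theorem near (hM : ∀ v, ρ v ≤ M) {b c d : V} {z : ℝ × ℝ} (hcd : T c < T d)
    (hz : z ∈ sg (pt ρ T M) (c, d)) (hb : z.2 < (pt ρ T M b).2) (hbd : T b < T d) :
    |z.1 - (pt ρ T M c).1| < 1 / 2 := by
  obtain ⟨t, ht, ht1, e1, e2⟩ := mem_sg hz
  have p1 := y_grow (ρ := ρ) (T := T) (M := M) hbd
  have p2 := y_pos (ρ := ρ) (T := T) (M := M) c
  have p3 := y_lt (ρ := ρ) (T := T) (M := M) hcd
  have p4 := y_pos (ρ := ρ) (T := T) (M := M) b
  have p5 := y_lt (ρ := ρ) (T := T) (M := M) hbd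
  have hMn : (0 : ℝ) ≤ M := Nat.cast_nonneg M
  have q := x_diff (T := T) hM d c
  have k : z.1 - (pt ρ T M c).1 = t * ((pt ρ T M d).1 - (pt ρ T M c).1) := by rw [e1]; ring
  rw [k, abs_mul, abs_of_pos ht]
  have k1 : t * ((pt ρ T M d).2 - (pt ρ T M c).2) < (pt ρ T M b).2 - (pt ρ T M c).2 := by
    linarith
  -- `t * y_d < y_b`
  have k2 : t * (pt ρ T M d).2 < (pt ρ T M b).2 := by
    nlinarith [mul_pos ht p2, mul_lt_mul_of_pos_right ht1 p2]
  have k3 : t * (2 * (M : ℝ) + 2) < 1 := by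
    have : t * (2 * (M : ℝ) + 2) * (pt ρ T M b).2 < 1 * (pt ρ T M b).2 := by
      calc t * (2 * (M : ℝ) + 2) * (pt ρ T M b).2 =
          t * ((2 * (M : ℝ) + 2) * (pt ρ T M b).2) := by ring
        _ ≤ t * (pt ρ T M d).2 := mul_le_mul_of_nonneg_left p1 ht.le
        _ < (pt ρ T M b).2 := k2
        _ = 1 * (pt ρ T M b).2 := (one_mul _).symm
    exact lt_of_mul_lt_mul_right this p4.le
  calc t * |(pt ρ T M d).1 - (pt ρ T M c).1| ≤ t * M := mul_le_mul_of_nonneg_left q ht.le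
    _ < 1 / 2 := by linarith

theorem below {a b : V} {z : ℝ × ℝ} (h : T a < T b) (hz : z ∈ sg (pt ρ T M) (a, b)) :
    z.2 < (pt ρ T M b).2 ∧ (pt ρ T M a).2 < z.2 := by
  obtain ⟨t, ht, ht1, -, e2⟩ := mem_sg hz
  have p := y_lt (ρ := ρ) (T := T) (M := M) h
  rw [e2]
  constructor <;> nlinarith

theorem two (hρ : Function.Injective ρ) (hM : ∀ v, ρ v ≤ M) {b c d c' d' : V} {z : ℝ × ℝ}
    (hb : z.2 < (pt ρ T M b).2) (hcd : T c < T d) (hz : z ∈ sg (pt ρ T M) (c, d))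
    (hbd : T b < T d) (hcd' : T c' < T d') (hz' : z ∈ sg (pt ρ T M) (c', d'))
    (hbd' : T b < T d') : c = c' := by
  by_contra h
  have h1 := near hM hcd hz hb hbd
  have h2 := near hM hcd' hz' hb hbd'
  have h3 := x_far (T := T) (M := M) hρ h
  rw [abs_lt] at h1 h2
  rcases le_abs.1 h3 with h4 | h4 <;> linarith [h1.1, h1.2, h2.1, h2.2]

theorem three (hρ : Function.Injective ρ) (hT : Function.Injective T) (hM : ∀ v, ρ v ≤ M)
    {a b c d e f : V} {z : ℝ × ℝ} (h1 : T a < T b) (h2 : T c < T d) (h3 : T e < T f)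
    (z1 : z ∈ sg (pt ρ T M) (a, b)) (z2 : z ∈ sg (pt ρ T M) (c, d))
    (z3 : z ∈ sg (pt ρ T M) (e, f)) (k1 : a ≠ c) (k2 : a ≠ e) (k3 : c ≠ e) (l1 : b ≠ d)
    (l2 : b ≠ f) (l3 : d ≠ f) : False := by
  have m1 : T b ≠ T d := fun h => l1 (hT h)
  have m2 : T b ≠ T f := fun h => l2 (hT h)
  have m3 : T d ≠ T f := fun h => l3 (hT h)
  by_cases c1 : T b < T d ∧ T b < T f
  · exact k3 (two hρ hM (below h1 z1).1 h2 z2 c1.1 h3 z3 c1.2)
  · by_cases c2 : T d < T b ∧ T d < T f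
    · exact k2 (two hρ hM (below h2 z2).1 h1 z1 c2.1 h3 z3 c2.2)
    · have c3 : T f < T b ∧ T f < T d := by omega
      exact k1 (two hρ hM (below h3 z3).1 h1 z1 c3.1 h2 z2 c3.2)

theorem orient (hT : Function.Injective T) {a b : V} {z : ℝ × ℝ} (hab : a ≠ b)
    (hz : z ∈ sg (pt ρ T M) (a, b)) : ∃ a' b', T a' < T b' ∧ z ∈ sg (pt ρ T M) (a', b') ∧
      ((a' = a ∧ b' = b) ∨ (a' = b ∧ b' = a)) := by
  have h : T a ≠ T b := fun h => hab (hT h)
  rcases lt_or_gt_of_ne h with h | h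
  · exact ⟨a, b, h, hz, Or.inl ⟨rfl, rfl⟩⟩
  · refine ⟨b, a, h, ?_, Or.inr ⟨rfl, rfl⟩⟩
    unfold sg at hz ⊢
    rw [openSegment_symm]
    exact hz

theorem lc (hρ : Function.Injective ρ) (hT : Function.Injective T) (hM : ∀ v, ρ v ≤ M)
    {e f : V × V} {z : ℝ × ℝ} (he : T e.1 < T e.2) (hf : T f.1 < T f.2)
    (z1 : z ∈ sg (pt ρ T M) e) (z2 : z ∈ sg (pt ρ T M) f) (h : T f.2 < T e.2) :
    LC ρ T f e := by
  obtain ⟨q, p⟩ := e
  obtain ⟨q', p'⟩ := f
  simp only at he hf h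
  have b1 := below he z1
  have b2 := below hf z2
  have hqp : T q < T p' := T_lt (b1.2.trans b2.1)
  have hq1 : q ≠ p' := by rintro rfl; exact lt_irrefl _ hqp
  have hpp : p ≠ p' := by rintro rfl; exact lt_irrefl _ h
  have hqpp : q ≠ p := by rintro rfl; exact lt_irrefl _ he
  have hq2 : q ≠ q' := by
    rintro rfl
    exact cr_ne hρ hT hM hqpp hq1 hpp (cr_of_share z1 z2)
  refine ⟨h, hqp, ?_⟩
  have n := near hM he z1 b2.1 h
  rw [abs_lt] at n
  obtain ⟨t, ht, ht1, e1, -⟩ := mem_sg z2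
  have r1 : ρ q ≠ ρ q' := fun h => hq2 (hρ h)
  have r2 : ρ q ≠ ρ p' := fun h => hq1 (hρ h)
  have n1 : z.1 - (ρ q : ℝ) < 1 / 2 := n.2
  have n2 : -(1 / 2) < z.1 - (ρ q : ℝ) := n.1
  have e1' : z.1 = (ρ q' : ℝ) + t * ((ρ p' : ℝ) - ρ q') := e1
  unfold Btw
  simp only
  rcases lt_or_gt_of_ne (show ρ q' ≠ ρ p' from fun h => (by
    have h1 := hρ h
    rw [h1] at hf
    exact lt_irrefl _ hf)) with c | c
  · left
    have c' : (ρ q' : ℝ) < ρ p' := by exact_mod_cast c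
    have u1 : (ρ q' : ℝ) < z.1 := by rw [e1']; nlinarith
    have u2 : z.1 < (ρ p' : ℝ) := by rw [e1']; nlinarith
    have v1 : (ρ q' : ℝ) < ρ q + 1 := by linarith
    have v2 : (ρ q : ℝ) < ρ p' + 1 := by linarith
    have w1 : ρ q' < ρ q + 1 := by exact_mod_cast v1
    have w2 : ρ q < ρ p' + 1 := by exact_mod_cast v2
    omega
  · right
    have c' : (ρ p' : ℝ) < ρ q' := by exact_mod_cast c
    have u1 : (ρ p' : ℝ) < z.1 := by rw [e1']; nlinarith
    have u2 : z.1 < (ρ q' : ℝ) := by rw [e1']; nlinarith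
    have v1 : (ρ p' : ℝ) < ρ q + 1 := by linarith
    have v2 : (ρ q : ℝ) < ρ q' + 1 := by linarith
    have w1 : ρ p' < ρ q + 1 := by exact_mod_cast v1
    have w2 : ρ q < ρ q' + 1 := by exact_mod_cast v2
    omega

end

end GeoAux

open GeoAux in
theorem stGeo : StGeo := by
  intro V _ ρ T hρ hT
  obtain ⟨M, hM⟩ : ∃ M : ℕ, ∀ v, ρ v ≤ M :=
    ⟨univ.sup ρ, fun v => Finset.le_sup (f := ρ) (mem_univ v)⟩
  refine ⟨pt ρ T M, ⟨?_, ?_, ?_⟩, ?_⟩
  · intro u v h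
    have h1 : ((ρ u : ℕ) : ℝ) = (ρ v : ℕ) := congrArg Prod.fst h
    exact hρ (by exact_mod_cast h1)
  · intro u v w h1 h2 h3 h
    exact cr_ne hρ hT hM h1 h2 h3 (cr_of_col h)
  · intro a b c d e f hn
    rw [Set.eq_empty_iff_forall_notMem]
    rintro z ⟨⟨z1, z2⟩, z3⟩
    simp only [List.nodup_cons, List.mem_cons, List.not_mem_nil, or_false, not_or,
      List.nodup_nil, and_true, not_false_eq_true] at hn
    obtain ⟨⟨n1, n2, n3, n4, n5⟩, ⟨n6, n7, n8, n9⟩, ⟨n10, n11, n12⟩, ⟨n13, n14⟩, n15⟩ := hn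
    obtain ⟨a', b', k1, l1, m1⟩ := orient hT n1 z1
    obtain ⟨c', d', k2, l2, m2⟩ := orient hT n10 z2
    obtain ⟨e', f', k3, l3, m3⟩ := orient hT n15 z3
    rcases m1 with ⟨rfl, rfl⟩ | ⟨rfl, rfl⟩ <;> rcases m2 with ⟨rfl, rfl⟩ | ⟨rfl, rfl⟩ <;>
      rcases m3 with ⟨rfl, rfl⟩ | ⟨rfl, rfl⟩ <;>
      refine three hρ hT hM k1 k2 k3 l1 l2 l3 ?_ ?_ ?_ ?_ ?_ ?_ <;>
      first | assumption | (apply Ne.symm; assumption)
  · intro e f he hf hne hz
    obtain ⟨z, z1, z2⟩ := hz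
    rcases lt_trichotomy (T e.2) (T f.2) with h | h | h
    · right
      exact lc hρ hT hM hf he z2 z1 h
    · exfalso
      obtain ⟨q, p⟩ := e
      obtain ⟨q', p'⟩ := f
      have hp : p = p' := hT h
      subst hp
      have hq : q ≠ q' := by
        rintro rfl
        exact hne rfl
      simp only at he hf
      have h1 : p ≠ q := by rintro rfl; exact lt_irrefl _ he
      have h2 : p ≠ q' := by rintro rfl; exact lt_irrefl _ hf
      have z1' : z ∈ sg (pt ρ T M) (p, q) := by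
        unfold sg at z1 ⊢
        rw [openSegment_symm]
        exact z1
      have z2' : z ∈ sg (pt ρ T M) (p, q') := by
        unfold sg at z2 ⊢
        rw [openSegment_symm]
        exact z2
      exact cr_ne hρ hT hM h1 h2 hq (cr_of_share z1' z2')
    · left
      exact lc hρ hT hM he hf z1 z2 h

end

end Pool.Agent.Lib.MP_1fca17_co
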