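import Mathlib
import Pool.Agent.Lib.MP_1fca17_co.Stmts

/-!
# MP_1fca17_co : the two numerical inequalities (NUM1, NUM2)
-/

namespace Pool.Agent.Lib.MP_1fca17_co

open Nat

/-- `m ^ m ≤ m! * 3 ^ m`. -/
theorem num_fact (m : ℕ) : m ^ m ≤ m.factorial * 3 ^ m := by
  have h1 : (m : ℝ) ^ m / (m.factorial : ℝ) ≤ Real.exp m :=
    Real.pow_div_factorial_le_exp (m : ℝ) (Nat.cast_nonneg m) m
  have h2 : Real.exp (m : ℝ) ≤ 3 ^ m := by
    have h3 : Real.exp (m : ℝ) = Real.exp 1 ^ m := by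
      rw [← Real.exp_nat_mul, mul_one]
    rw [h3]
    have h4 : Real.exp 1 ≤ 3 := by
      have := Real.exp_one_lt_d9
      linarith
    exact pow_le_pow_left₀ (Real.exp_pos 1).le h4 m
  have hf : (0 : ℝ) < (m.factorial : ℝ) := by exact_mod_cast Nat.factorial_pos m
  have h5 : (m : ℝ) ^ m ≤ 3 ^ m * (m.factorial : ℝ) := by
    rw [div_le_iff₀ hf] at h1
    exact h1.trans (mul_le_mul_of_nonneg_right h2 hf.le)
  have h6 : ((m ^ m : ℕ) : ℝ) ≤ ((m.factorial * 3 ^ m : ℕ) : ℝ) := by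
    push_cast
    linarith
  exact_mod_cast h6

/-- The basic estimate. -/
theorem num_base (n m : ℕ) (hm : 1 ≤ m) (h : 48 * n ≤ m ^ 2) :
    4 ^ m * (2 * (n.choose m * (2 * m - 1).choose m)) ≤ m ^ m := by
  have h1 : m.factorial * n.choose m ≤ n ^ m := by
    rw [← Nat.descFactorial_eq_factorial_mul_choose]
    exact Nat.descFactorial_le_pow n m
  have h2 : 2 * (2 * m - 1).choose m ≤ 4 ^ m := by
    calc 2 * (2 * m - 1).choose m ≤ 2 * 2 ^ (2 * m - 1) :=
          Nat.mul_le_mul_left 2 (Nat.choose_le_two_pow _ _)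
      _ = 2 ^ (2 * m - 1 + 1) := by rw [pow_succ]; ring
      _ = 2 ^ (2 * m) := by congr 1; omega
      _ = 4 ^ m := by rw [pow_mul]; norm_num
  have h3 := num_fact m
  have hmm : 0 < m ^ m := Nat.pow_pos (by omega)
  have key : (4 ^ m * (2 * (n.choose m * (2 * m - 1).choose m))) * m ^ m ≤ m ^ m * m ^ m := by
    calc (4 ^ m * (2 * (n.choose m * (2 * m - 1).choose m))) * m ^ m
        ≤ (4 ^ m * (2 * (n.choose m * (2 * m - 1).choose m))) * (m.factorial * 3 ^ m) :=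
          Nat.mul_le_mul_left _ h3
      _ = (4 ^ m * 3 ^ m) * ((m.factorial * n.choose m) * (2 * (2 * m - 1).choose m)) := by ring
      _ ≤ (4 ^ m * 3 ^ m) * (n ^ m * 4 ^ m) :=
          Nat.mul_le_mul_left _ (Nat.mul_le_mul h1 h2)
      _ = (48 * n) ^ m := by
          rw [← mul_pow, ← mul_pow, ← mul_pow]
          congr 1
          ring
      _ ≤ (m ^ 2) ^ m := Nat.pow_le_pow_left h m
      _ = m ^ m * m ^ m := by rw [← pow_mul, ← pow_add]; congr 1; ring
  exact Nat.le_of_mul_le_mul_right key hmm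

/-- `m ^ 2 ≤ 2 ^ m` for `m ≥ 4`. -/
theorem num_sq (m : ℕ) (hm : 4 ≤ m) : m ^ 2 ≤ 2 ^ m := by
  induction m, hm using Nat.le_induction with
  | base => norm_num
  | succ k hk ih =>
    rw [pow_succ 2 k]
    nlinarith

theorem stNum1 : StNum1 := by
  intro k m hk h
  have hm : 4 ≤ m := by
    by_contra hcon
    have h1 : m ≤ 3 := by omega
    have h2 : m ^ 2 ≤ 3 ^ 2 := Nat.pow_le_pow_left h1 2
    omega
  have hb := num_base (4 * k) m (by omega) (by linarith)
  have hsq := num_sq m hm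
  have hmm : 0 < m ^ m := Nat.pow_pos (by omega)
  have h4 : (2 * k + 1) * (2 * k + 2) < 4 ^ m := by
    have e1 : 2 * k + 1 < 2 ^ m := by omega
    have e2 : 2 * k + 2 ≤ 2 ^ m := by omega
    calc (2 * k + 1) * (2 * k + 2) < 2 ^ m * 2 ^ m :=
          Nat.mul_lt_mul_of_lt_of_le e1 e2 (by positivity)
      _ = 4 ^ m := by rw [← mul_pow]; norm_num
  rcases Nat.eq_zero_or_pos ((4 * k).choose m * (2 * m - 1).choose m) with h0 | h0
  · rw [h0]
    simpa using hmm
  · calc 2 * ((2 * k + 1) * (2 * k + 2)) * ((4 * k).choose m * (2 * m - 1).choose m)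
        = ((2 * k + 1) * (2 * k + 2)) * (2 * ((4 * k).choose m * (2 * m - 1).choose m)) := by ring
      _ < 4 ^ m * (2 * ((4 * k).choose m * (2 * m - 1).choose m)) :=
          Nat.mul_lt_mul_of_pos_right h4 (by positivity)
      _ ≤ m ^ m := hb

theorem stNum2 : StNum2 := by
  intro k m hk h
  have hm : 4 ≤ m := by
    by_contra hcon
    have h1 : m ≤ 3 := by omega
    have h2 : m ^ 2 ≤ 3 ^ 2 := Nat.pow_le_pow_left h1 2
    omega
  have hb := num_base k m (by omega) h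
  have hsq := num_sq m hm
  have h4 : 4 * (2 * k ^ 2 + 1) ≤ 4 ^ m := by
    have e1 : 4 * k ≤ 2 ^ m := by omega
    calc 4 * (2 * k ^ 2 + 1) ≤ (4 * k) * (4 * k) := by nlinarith
      _ ≤ 2 ^ m * 2 ^ m := Nat.mul_le_mul e1 e1
      _ = 4 ^ m := by rw [← mul_pow]; norm_num
  calc 8 * (2 * k ^ 2 + 1) * (k.choose m * (2 * m - 1).choose m)
      = (4 * (2 * k ^ 2 + 1)) * (2 * (k.choose m * (2 * m - 1).choose m)) := by ring
    _ ≤ 4 ^ m * (2 * (k.choose m * (2 * m - 1).choose m)) := Nat.mul_le_mul_right _ h4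
    _ ≤ m ^ m := hb

end Pool.Agent.Lib.MP_1fca17_co
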