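import Mathlib
import Pool.Agent.Lib.MP_1fca17_co.Stmts

/-!
# MP_1fca17_co : from families of oriented pairs to sets of edges
-/

namespace Pool.Agent.Lib.MP_1fca17_co

open Finset
open scoped Classical

noncomputable section

/-- The open segment of an edge of the straight-line drawing in which the vertex `v` is the
point `P v`. -/
def edgeSeg {V : Type} (P : V → ℝ × ℝ) (e : Sym2 V) : Set (ℝ × ℝ) :=
  {z | ∃ u v : V, e = s(u, v) ∧ z ∈ openSegment ℝ (P u) (P v)}

theorem edgeSeg_mk {V : Type} (P : V → ℝ × ℝ) (u v : V) :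
    edgeSeg P s(u, v) = sg P (u, v) := by
  ext z
  simp only [edgeSeg, sg, Set.mem_ofPred_eq]
  constructor
  · rintro ⟨a, b, hab, hz⟩
    rcases Sym2.eq_iff.1 hab with ⟨rfl, rfl⟩ | ⟨rfl, rfl⟩
    · exact hz
    · rw [openSegment_symm]; exact hz
  · intro hz
    exact ⟨u, v, rfl, hz⟩

/-- The straight-line drawing of `G` with the vertices `P v` is in general position: distinct
points, no three of them on a line, no three edges with a common crossing point. -/
structure Good {V : Type} (G : SimpleGraph V) (P : V → ℝ × ℝ) : Prop where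
  inj : Function.Injective P
  col : ∀ u v w : V, u ≠ v → u ≠ w → v ≠ w → ¬ Collinear ℝ {P u, P v, P w}
  conc : ∀ e ∈ G.edgeSet, ∀ f ∈ G.edgeSet, ∀ g ∈ G.edgeSet, e ≠ f → e ≠ g → f ≠ g →
    edgeSeg P e ∩ edgeSeg P f ∩ edgeSeg P g = ∅

theorem final {V : Type} [Fintype V] (hgeo : StGeo) (G : SimpleGraph V) (ρ T : V → ℕ)
    (hρ : Function.Injective ρ) (hT : Function.Injective T) (B : ℕ)
    (hB : ∀ F : Finset (V × V), Fam ρ T F → (∀ e ∈ F, G.Adj e.1 e.2) → F.card ≤ B) :
    ∃ P : V → ℝ × ℝ, Good G P ∧ ∀ F : Finset (Sym2 V), (∀ e ∈ F, e ∈ G.edgeSet) →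
      (∀ e ∈ F, ∀ f ∈ F, e ≠ f → (edgeSeg P e ∩ edgeSeg P f).Nonempty) → F.card ≤ B := by
  obtain ⟨P, hP, hLC⟩ := hgeo V ρ T hρ hT
  -- orientation
  have hor : ∀ e ∈ G.edgeSet, ∃ p : V × V, T p.1 < T p.2 ∧ e = s(p.1, p.2) ∧ G.Adj p.1 p.2 := by
    intro e he
    induction e using Sym2.ind with
    | _ u v =>
      have huv : G.Adj u v := by simpa using he
      have hne : T u ≠ T v := fun h => huv.ne (hT h)
      rcases lt_or_gt_of_ne hne with h | h
      · exact ⟨(u, v), h, rfl, huv⟩
      · exact ⟨(v, u), h, Sym2.eq_swap, huv.symm⟩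
  -- crossing edges have four distinct endpoints
  have hshare : ∀ a b c : V, a ≠ b → a ≠ c → b ≠ c →
      openSegment ℝ (P a) (P b) ∩ openSegment ℝ (P a) (P c) = ∅ := by
    intro a b c hab hac hbc
    ext z
    simp only [Set.mem_inter_iff, Set.mem_empty_iff_false, iff_false, not_and]
    intro hz1 hz2
    apply hP.col a b c hab hac hbc
    rw [collinear_iff_of_mem (p₀ := P a) (by simp)]
    obtain ⟨s1, s2, hs1, hs2, hs, hz⟩ := hz1
    obtain ⟨t1, t2, ht1, ht2, ht, hz'⟩ := hz2
    have e1 : z - P a = s2 • (P b - P a) := by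
      rw [← hz]; have : s1 = 1 - s2 := by linarith
      rw [this]; module
    have e2 : z - P a = t2 • (P c - P a) := by
      rw [← hz']; have : t1 = 1 - t2 := by linarith
      rw [this]; module
    refine ⟨z - P a, ?_⟩
    intro p hp
    simp only [Set.mem_insert_iff, Set.mem_singleton_iff] at hp
    rcases hp with rfl | rfl | rfl
    · exact ⟨0, by simp⟩
    · refine ⟨s2⁻¹, ?_⟩
      rw [e1, smul_smul, inv_mul_cancel₀ hs2.ne', one_smul, vadd_eq_add]
      abel
    · refine ⟨t2⁻¹, ?_⟩
      rw [e2, smul_smul, inv_mul_cancel₀ ht2.ne', one_smul, vadd_eq_add]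
      abel
  have hdist : ∀ a b c d : V, G.Adj a b → G.Adj c d → s(a, b) ≠ s(c, d) →
      (sg P (a, b) ∩ sg P (c, d)).Nonempty → a ≠ c ∧ a ≠ d ∧ b ≠ c ∧ b ≠ d := by
    intro a b c d hab hcd hne hz
    have hab' := hab.ne
    have hcd' := hcd.ne
    refine ⟨?_, ?_, ?_, ?_⟩
    · rintro rfl
      have hbd : b ≠ d := by rintro rfl; exact hne rfl
      have := hshare a b d hab' hcd' hbd
      simp only [sg] at hz
      rw [this] at hz
      exact Set.not_nonempty_empty hz
    · rintro rfl
      have hbc : b ≠ c := by rintro rfl; exact hne Sym2.eq_swap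
      have := hshare a b c hab' hcd'.symm hbc
      simp only [sg] at hz
      rw [openSegment_symm ℝ (P c) (P a), this] at hz
      exact Set.not_nonempty_empty hz
    · rintro rfl
      have had : a ≠ d := by rintro rfl; exact hne Sym2.eq_swap
      have := hshare b a d hab'.symm hcd' had
      simp only [sg] at hz
      rw [openSegment_symm ℝ (P a) (P b), this] at hz
      exact Set.not_nonempty_empty hz
    · rintro rfl
      have hac : a ≠ c := by rintro rfl; exact hne rfl
      have := hshare b a c hab'.symm hcd'.symm hac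
      simp only [sg] at hz
      rw [openSegment_symm ℝ (P a) (P b), openSegment_symm ℝ (P c) (P b), this] at hz
      exact Set.not_nonempty_empty hz
  refine ⟨P, ⟨hP.inj, hP.col, ?_⟩, ?_⟩
  · intro e he f hf g hg hef heg hfg
    obtain ⟨p, -, rfl, hp⟩ := hor e he
    obtain ⟨q, -, rfl, hq⟩ := hor f hf
    obtain ⟨r, -, rfl, hr⟩ := hor g hg
    by_contra hne
    have hne' := Set.nonempty_iff_ne_empty.2 hne
    rw [edgeSeg_mk, edgeSeg_mk, edgeSeg_mk] at hne'
    obtain ⟨z, ⟨hz1, hz2⟩, hz3⟩ := hne'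
    have h12 := hdist _ _ _ _ hp hq hef ⟨z, hz1, hz2⟩
    have h13 := hdist _ _ _ _ hp hr heg ⟨z, hz1, hz3⟩
    have h23 := hdist _ _ _ _ hq hr hfg ⟨z, hz2, hz3⟩
    have hnd : [p.1, p.2, q.1, q.2, r.1, r.2].Nodup := by
      simp only [List.nodup_cons, List.mem_cons, List.not_mem_nil, or_false, not_or,
        not_false_eq_true, List.nodup_nil, and_true]
      have := hp.ne; have := hq.ne; have := hr.ne
      tauto
    have := hP.conc _ _ _ _ _ _ hnd
    rw [Set.eq_empty_iff_forall_notMem] at this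
    exact this z ⟨⟨hz1, hz2⟩, hz3⟩
  · intro F hF hcross
    have hor' : ∀ e : Sym2 V, ∃ p : V × V, e ∈ G.edgeSet →
        (T p.1 < T p.2 ∧ e = s(p.1, p.2) ∧ G.Adj p.1 p.2) := by
      intro e
      by_cases he : e ∈ G.edgeSet
      · obtain ⟨p, hp⟩ := hor e he
        exact ⟨p, fun _ => hp⟩
      · exact ⟨Quot.out e, fun h => absurd h he⟩
    choose o ho using hor'
    have ho1 := fun e he => (ho e he).1
    have ho2 := fun e he => (ho e he).2.1
    have ho3 := fun e he => (ho e he).2.2
    have hinj : Set.InjOn o (F : Set (Sym2 V)) := by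
      intro e he f hf hef
      rw [ho2 e (hF e he), ho2 f (hF f hf), hef]
    rw [← Finset.card_image_of_injOn hinj]
    apply hB
    · constructor
      · intro p hp
        obtain ⟨e, he, rfl⟩ := Finset.mem_image.1 hp
        exact ho1 e (hF e he)
      · intro p hp q hq hpq
        obtain ⟨e, he, rfl⟩ := Finset.mem_image.1 hp
        obtain ⟨f, hf, rfl⟩ := Finset.mem_image.1 hq
        have hef : e ≠ f := by rintro rfl; exact hpq rfl
        have hz := hcross e he f hf hef
        rw [ho2 e (hF e he), ho2 f (hF f hf), edgeSeg_mk, edgeSeg_mk] at hz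
        exact hLC (o e) (o f) (ho1 e (hF e he)) (ho1 f (hF f hf)) hpq hz
    · intro p hp
      obtain ⟨e, he, rfl⟩ := Finset.mem_image.1 hp
      exact ho3 e (hF e he)

end

end Pool.Agent.Lib.MP_1fca17_co
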