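import Pool.Agent.Lib.MP_1fca17_co.Stmts

/-!
# MP_1fca17_co, module H: at most four hub members
-/

namespace Pool.Agent.Lib.MP_1fca17_co

open Finset
open scoped Classical

noncomputable section

namespace HAux

variable {N : ℕ}

/-- Two members in the same direction. -/
theorem key (h1 : StS1) (G : SimpleGraph (Fin (N + 1))) (T : Fin (N + 1) → ℕ)
    (hT : ∀ u v, lv G u < lv G v → T v < T u) (e f : Fin (N + 1) × Fin (N + 1))
    (hadj : G.Adj e.1 e.2)
    (he : ∀ w, Btw (fun v : Fin (N + 1) => (v : ℕ)) w e.1 e.2 → lv G e.2 < lv G w)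
    (hf : ∀ w, Btw (fun v : Fin (N + 1) => (v : ℕ)) w f.1 f.2 → lv G f.2 < lv G w)
    (hdir : (e.1 < e.2 ∧ f.1 < f.2) ∨ (e.2 < e.1 ∧ f.2 < f.1))
    (hL : LC (fun v : Fin (N + 1) => (v : ℕ)) T f e) :
    lv G e.2 < lv G f.2 ∧ lv G e.1 = lv G f.2 + 1 := by
  obtain ⟨hl1, hl2, hl3, hl4, hl5, hl6, hl7⟩ := h1 N G
  obtain ⟨t1, t2, t3⟩ := hL
  have hin : lv G f.2 < lv G e.1 := hf e.1 t3
  have hne : e.2 ≠ f.2 := by
    intro h
    rw [h] at t1
    exact lt_irrefl _ t1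
  have hnb : ¬ Btw (fun v : Fin (N + 1) => (v : ℕ)) e.2 f.1 f.2 := by
    intro h
    have h2 := hT _ _ (hf e.2 h)
    omega
  have hnv : (e.2 : ℕ) ≠ (f.2 : ℕ) := fun h => hne (Fin.ext h)
  have hb : Btw (fun v : Fin (N + 1) => (v : ℕ)) f.2 e.1 e.2 := by
    simp only [Btw] at t3 hnb ⊢
    simp only [Fin.lt_def] at hdir
    omega
  have hlt : lv G e.2 < lv G f.2 := he f.2 hb
  have hmem : f.2 ∈ SS G (lv G f.2) := (hl3 f.2 _).2 le_rfl
  have hup : lv G e.1 ≤ lv G f.2 + 1 := by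
    rcases hb with ⟨b1, b2⟩ | ⟨b1, b2⟩
    · have := (hl5 (lv G f.2) e.1 e.2 f.2 hmem (Fin.lt_def.2 b1) (Fin.lt_def.2 b2) hadj).1
      exact (hl3 _ _).1 this
    · have := (hl5 (lv G f.2) e.2 e.1 f.2 hmem (Fin.lt_def.2 b1) (Fin.lt_def.2 b2) hadj.symm).2
      exact (hl3 _ _).1 this
  exact ⟨hlt, by omega⟩

/-- One direction has at most two members. -/
theorem two (h1 : StS1) (G : SimpleGraph (Fin (N + 1))) (T : Fin (N + 1) → ℕ)
    (hT : ∀ u v, lv G u < lv G v → T v < T u) (F : Finset (Fin (N + 1) × Fin (N + 1)))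
    (hadj : ∀ e ∈ F, G.Adj e.1 e.2)
    (hF : ∀ e ∈ F, ∀ f ∈ F, e ≠ f → LC (fun v : Fin (N + 1) => (v : ℕ)) T f e ∨
      LC (fun v : Fin (N + 1) => (v : ℕ)) T e f)
    (he : ∀ e ∈ F, ∀ w, Btw (fun v : Fin (N + 1) => (v : ℕ)) w e.1 e.2 → lv G e.2 < lv G w)
    (hdir : (∀ e ∈ F, e.1 < e.2) ∨ (∀ e ∈ F, e.2 < e.1)) : F.card ≤ 2 := by
  by_contra hc
  rw [not_le, Finset.two_lt_card] at hc
  obtain ⟨a, ha, b, hb, c, hc, hab, hac, hbc⟩ := hc
  have hd : ∀ e ∈ F, ∀ f ∈ F, (e.1 < e.2 ∧ f.1 < f.2) ∨ (e.2 < e.1 ∧ f.2 < f.1) := by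
    intro e hee f hff
    rcases hdir with h | h
    · exact Or.inl ⟨h e hee, h f hff⟩
    · exact Or.inr ⟨h e hee, h f hff⟩
  have K : ∀ e ∈ F, ∀ f ∈ F, LC (fun v : Fin (N + 1) => (v : ℕ)) T f e →
      lv G e.2 < lv G f.2 ∧ lv G e.1 = lv G f.2 + 1 := by
    intro e hee f hff h
    exact key h1 G T hT e f (hadj e hee) (he e hee) (he f hff) (hd e hee f hff) h
  rcases hF a ha b hb hab with h | h <;> rcases hF a ha c hc hac with h' | h' <;>
    rcases hF b hb c hc hbc with h'' | h''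
  · have k1 := K _ ha _ hb h
    have k2 := K _ ha _ hc h'
    have k3 := K _ hb _ hc h''
    omega
  · have k1 := K _ ha _ hb h
    have k2 := K _ ha _ hc h'
    have k3 := K _ hc _ hb h''
    omega
  · have k1 := K _ ha _ hb h
    have k2 := K _ hc _ ha h'
    have k3 := K _ hb _ hc h''
    omega
  · have k1 := K _ ha _ hb h
    have k2 := K _ hc _ ha h'
    have k3 := K _ hc _ hb h''
    omega
  · have k1 := K _ hb _ ha h
    have k2 := K _ ha _ hc h'
    have k3 := K _ hb _ hc h''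
    omega
  · have k1 := K _ hb _ ha h
    have k2 := K _ ha _ hc h'
    have k3 := K _ hc _ hb h''
    omega
  · have k1 := K _ hb _ ha h
    have k2 := K _ hc _ ha h'
    have k3 := K _ hb _ hc h''
    omega
  · have k1 := K _ hb _ ha h
    have k2 := K _ hc _ ha h'
    have k3 := K _ hc _ hb h''
    omega

end HAux

theorem stH (h1 : StS1) : StH := by
  intro N G T _ hT F hF hadj he
  have e1 := HAux.two h1 G T hT (F.filter fun e => e.1 < e.2)
    (fun e hee => hadj e (Finset.mem_filter.1 hee).1)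
    (fun e hee f hff hne => hF.2 e (Finset.mem_filter.1 hee).1 f (Finset.mem_filter.1 hff).1 hne)
    (fun e hee => he e (Finset.mem_filter.1 hee).1)
    (Or.inl fun e hee => (Finset.mem_filter.1 hee).2)
  have e2 := HAux.two h1 G T hT (F.filter fun e => ¬ e.1 < e.2)
    (fun e hee => hadj e (Finset.mem_filter.1 hee).1)
    (fun e hee f hff hne => hF.2 e (Finset.mem_filter.1 hee).1 f (Finset.mem_filter.1 hff).1 hne)
    (fun e hee => he e (Finset.mem_filter.1 hee).1)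
    (Or.inr fun e hee => lt_of_le_of_ne (not_lt.1 (Finset.mem_filter.1 hee).2)
      (hadj e (Finset.mem_filter.1 hee).1).ne')
  have e3 := Finset.card_filter_add_card_filter_not (s := F) (fun e => e.1 < e.2)
  omega

end

end Pool.Agent.Lib.MP_1fca17_co
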