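import Mathlib
import Pool.Agent.Lib.MP_1fca17_co.Stmts

set_option autoImplicit false

/-! K1, K2: the list of a gap is short, and catches the edges. -/

namespace Pool.Agent.Lib.MP_1fca17_co

open Finset
open scoped Classical

noncomputable section

namespace K12

variable {N : ℕ}

/-- the edges over `x` with no vertex of `SS G d` in their span -/
def ov (G : SimpleGraph (Fin (N + 1))) (d : ℕ) (x : Fin (N + 1)) :
    Finset (Fin (N + 1) × Fin (N + 1)) :=
  univ.filter (fun e => e.1 < e.2 ∧ G.Adj e.1 e.2 ∧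
    (e.1 < x ∧ x < e.2 ∧ ∀ s ∈ SS G d, ¬ (e.1 ≤ s ∧ s ≤ e.2)))

theorem ov_card (h1 : StS1) (h2 : StS2) {k : ℕ} {G : SimpleGraph (Fin (N + 1))} (hk : 1 ≤ k)
    (hG : OKP k G) (d : ℕ) {x : Fin (N + 1)} (hx : x ∈ SS G (d + 1)) : (ov G d x).card ≤ k := by
  obtain ⟨-, -, -, h4, -, h6, -⟩ := h1 N G
  rcases (ov G d x).eq_empty_or_nonempty with h0 | ⟨e0, he0⟩
  · rw [h0]; simp
  have hxd : x ∉ SS G d := by
    intro hx'
    unfold ov at he0
    rw [mem_filter] at he0
    exact he0.2.2.2.2.2 x hx' ⟨he0.2.2.2.1.le, he0.2.2.2.2.1.le⟩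
  obtain ⟨a, b, hab, hax, hxb⟩ := h6 d x hxd
  have hP : x ∈ PP G a b := (h4 d a b hab x hax hxb).1 hx
  refine (card_le_card ?_).trans ((h2 N k G hk hG d a b hab).2.2 x hP)
  intro e he
  unfold ov at he
  rw [mem_filter] at he ⊢
  obtain ⟨-, -, hadj, hl, hr, hs⟩ := he
  refine ⟨mem_univ _, ?_, hl, hr, ?_, hadj⟩
  · by_contra h
    exact hs a hab.1 ⟨not_lt.1 h, (hax.trans hr).le⟩
  · by_contra h
    exact hs b hab.2.1 ⟨(hl.trans hxb).le, not_lt.1 h⟩

end K12

open K12 in
/-- K1 -/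
theorem stK1 (h1 : StS1) (h2 : StS2) : StK1 := by
  intro N k G hk hG d x x' hc
  have hx := ov_card h1 h2 hk hG d hc.1
  have hx' := ov_card h1 h2 hk hG d hc.2.1
  have hio := (h2 N k G hk hG (d + 1) x x' hc).1
  set A : Finset (Fin (N + 1) × Fin (N + 1)) :=
    univ.filter (fun e => G.Adj e.1 e.2 ∧ (x < e.1 ∧ e.1 < x' ∧ x' < e.2)) with hA
  set B : Finset (Fin (N + 1) × Fin (N + 1)) :=
    univ.filter (fun e => G.Adj e.1 e.2 ∧ (e.1 < x ∧ x < e.2 ∧ e.2 < x')) with hB
  have hsub : lst G d x x' ⊆ (A ∪ B) ∪ (ov G d x ∪ ov G d x') := by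
    intro e he
    unfold lst at he
    rw [mem_filter] at he
    obtain ⟨-, hlt, hadj, h | h | h | h⟩ := he
    · exact mem_union_left _ (mem_union_left _ (by
        rw [hA, mem_filter]; exact ⟨mem_univ _, hadj, h⟩))
    · exact mem_union_left _ (mem_union_right _ (by
        rw [hB, mem_filter]; exact ⟨mem_univ _, hadj, h⟩))
    · exact mem_union_right _ (mem_union_left _ (by
        unfold ov; rw [mem_filter]; exact ⟨mem_univ _, hlt, hadj, h⟩))
    · exact mem_union_right _ (mem_union_right _ (by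
        unfold ov; rw [mem_filter]; exact ⟨mem_univ _, hlt, hadj, h⟩))
  have hdis : Disjoint A (B.image Prod.swap) := by
    rw [Finset.disjoint_left]
    intro e he he'
    rw [hA, mem_filter] at he
    rw [mem_image] at he'
    obtain ⟨f, hf, rfl⟩ := he'
    rw [hB, mem_filter] at hf
    have h3 : x' < f.1 := he.2.2.2.2
    have h4 : f.1 < x := hf.2.2.1
    exact absurd (h3.trans h4) (not_lt.2 hc.2.2.1.le)
  have hAB : A ∪ B.image Prod.swap ⊆ io G x x' := by
    intro e he
    unfold io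
    rw [mem_filter]
    rw [mem_union] at he
    rcases he with he | he
    · rw [hA, mem_filter] at he
      exact ⟨mem_univ _, he.2.2.1, he.2.2.2.1, Or.inr he.2.2.2.2, he.2.1⟩
    · rw [mem_image] at he
      obtain ⟨f, hf, rfl⟩ := he
      rw [hB, mem_filter] at hf
      exact ⟨mem_univ _, hf.2.2.2.1, hf.2.2.2.2, Or.inl hf.2.2.1, hf.2.1.symm⟩
  have hcard : A.card + B.card ≤ 2 * k := by
    have h3 : (B.image Prod.swap).card = B.card :=
      card_image_of_injective _ Prod.swap_injective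
    rw [← h3, ← card_union_of_disjoint hdis]
    exact (card_le_card hAB).trans hio
  have h5 := card_le_card hsub
  have h6 := card_union_le (A ∪ B) (ov G d x ∪ ov G d x')
  have h7 := card_union_le A B
  have h8 := card_union_le (ov G d x) (ov G d x')
  omega

/-- K2 -/
theorem stK2 (h1 : StS1) : StK2 := by
  intro N G d x x' c u v hc hxc hcx' huc hcv hadj hin hw hu hv
  obtain ⟨-, -, h3, -, -, -, -⟩ := h1 N G
  have huv : u < v := lt_of_le_of_lt huc hcv
  have hno : ∀ s ∈ SS G d, ¬ (u ≤ s ∧ s ≤ v) := by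
    rintro s hs ⟨hus, hsv⟩
    have hl : lv G s ≤ d := (h3 s d).1 hs
    rcases hus.eq_or_lt with rfl | hus
    · omega
    rcases hsv.eq_or_lt with rfl | hsv
    · omega
    have := hin s hus hsv
    omega
  obtain ⟨w, huw, hwv, hlw⟩ := hw
  have hwS : w ∈ SS G (d + 1) := (h3 w (d + 1)).2 hlw.le
  have hgap := hc.2.2.2 w hwS
  unfold lst
  rw [mem_filter]
  refine ⟨mem_univ _, huv, hadj, ?_⟩
  rcases lt_trichotomy x u with hxu | rfl | hux
  · left
    have h4 : x' ≤ w := by
      by_contra h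
      exact hgap ⟨hxu.trans huw, not_le.1 h⟩
    exact ⟨hxu, lt_of_le_of_lt huc hcx', lt_of_le_of_lt h4 hwv⟩
  · right; right; right
    have h4 : x' ≤ w := by
      by_contra h
      exact hgap ⟨huw, not_le.1 h⟩
    exact ⟨lt_of_le_of_lt huc hcx', lt_of_le_of_lt h4 hwv, hno⟩
  · right; right; left
    exact ⟨hux, lt_of_le_of_lt hxc hcv, hno⟩

end

end Pool.Agent.Lib.MP_1fca17_co
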