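import Mathlib
import Pool.Agent.Lib.MP_1fca17_co.Stmts

/-! K3: there are few gaps in a block. -/

namespace Pool.Agent.Lib.MP_1fca17_co

open Finset
open scoped Classical

namespace K3Aux

theorem first (h1 : StS1) (h2 : StS2) {N k : ℕ} {G : SimpleGraph (Fin (N + 1))} (hk : 1 ≤ k)
    (hG : OKP k G) {d : ℕ} {a b : Fin (N + 1)} (h : Cons (SS G d) a b) :
    ((SS G (d + 1)).filter (fun x => a ≤ x ∧ x < b)).card ≤ 2 * k + 1 := by
  have hs : (SS G (d + 1)).filter (fun x => a ≤ x ∧ x < b) ⊆ insert a (PP G a b) := by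
    intro x hx
    rw [mem_filter] at hx
    obtain ⟨hx, hax, hxb⟩ := hx
    rw [mem_insert]
    rcases eq_or_lt_of_le hax with h3 | h3
    · exact Or.inl h3.symm
    · exact Or.inr (((h1 N G).2.2.2.1 d a b h x h3 hxb).1 hx)
  calc _ ≤ (insert a (PP G a b)).card := card_le_card hs
    _ ≤ (PP G a b).card + 1 := card_insert_le _ _
    _ ≤ 2 * k + 1 := Nat.succ_le_succ (h2 N k G hk hG d a b h).2.1

end K3Aux

open K3Aux in
theorem stK3 (h1 : StS1) (h2 : StS2) : StK3 := by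
  intro N k G hk hG d a b h
  refine ⟨first h1 h2 hk hG h, ?_⟩
  obtain ⟨ha, hb, hab, hc⟩ := h
  have ha' : a ∈ SS G (d + 1) := (h1 N G).1 d ha
  set T : Fin (N + 1) → Finset (Fin (N + 1)) := fun x => (SS G (d + 2)).filter (fun y =>
    ∃ x', Cons (SS G (d + 1)) x x' ∧ x ≤ y ∧ y < x') with hT
  have hs : (SS G (d + 2)).filter (fun x => a ≤ x ∧ x < b) ⊆
      ((SS G (d + 1)).filter (fun x => a ≤ x ∧ x < b)).biUnion T := by
    intro y hy
    rw [mem_filter] at hy
    obtain ⟨hy, hay, hyb⟩ := hy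
    obtain ⟨x, x', hx, hxy, hyx⟩ := (h1 N G).2.2.2.2.2.2 (d + 1) y
      (lt_of_lt_of_le hyb (Fin.le_last b))
    rw [mem_biUnion]
    refine ⟨x, ?_, ?_⟩
    · rw [mem_filter]
      refine ⟨hx.1, ?_, lt_of_le_of_lt hxy hyb⟩
      by_contra hxa
      exact hx.2.2.2 a ha' ⟨not_le.1 hxa, lt_of_le_of_lt hay hyx⟩
    · rw [hT]
      simp only [mem_filter]
      exact ⟨hy, x', hx, hxy, hyx⟩
  have hcard : ∀ x ∈ (SS G (d + 1)).filter (fun x => a ≤ x ∧ x < b), (T x).card ≤ 2 * k + 1 := by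
    intro x _
    by_cases hx : ∃ x', Cons (SS G (d + 1)) x x'
    · obtain ⟨x', hx⟩ := hx
      have hs' : T x ⊆ (SS G (d + 2)).filter (fun y => x ≤ y ∧ y < x') := by
        intro y hy
        rw [hT] at hy
        simp only [mem_filter] at hy ⊢
        obtain ⟨hy, x'', hx'', hxy, hyx⟩ := hy
        refine ⟨hy, hxy, ?_⟩
        have hle : x'' ≤ x' := by
          by_contra hlt
          exact hx''.2.2.2 x' hx.2.1 ⟨hx.2.2.1, not_le.1 hlt⟩
        exact lt_of_lt_of_le hyx hle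
      exact (card_le_card hs').trans (first h1 h2 hk hG hx)
    · have : T x = ∅ := by
        rw [hT]
        apply Finset.filter_eq_empty_iff.2
        rintro y _ ⟨x', hx', _⟩
        exact hx ⟨x', hx'⟩
      rw [this]
      simp
  calc _ ≤ (((SS G (d + 1)).filter (fun x => a ≤ x ∧ x < b)).biUnion T).card := card_le_card hs
    _ ≤ ((SS G (d + 1)).filter (fun x => a ≤ x ∧ x < b)).card * (2 * k + 1) :=
        card_biUnion_le_card_mul _ _ _ hcard
    _ ≤ (2 * k + 1) * (2 * k + 1) :=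
        Nat.mul_le_mul_right _ (first h1 h2 hk hG ⟨ha, hb, hab, hc⟩)
    _ = (2 * k + 1) ^ 2 := by ring

end Pool.Agent.Lib.MP_1fca17_co
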