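import Mathlib
import Pool.Agent.Lib.MP_1fca17_co.Stmts
import Pool.Agent.Lib.MP_763321_co.LLL

/-!
# MP_1fca17_co, module LL: heights by the local lemma
-/

namespace Pool.Agent.Lib.MP_1fca17_co

open Finset
open scoped Classical

open Pool.Agent.Lib.MP_763321_co.LLL (DetBy product_lll)

section LLproof

variable {V : Type} [Fintype V] {k m : ℕ} {G : SimpleGraph V} {L p : V → ℕ}

theorem mem_cl_true (u : V) (e : V × V) : e ∈ cl G L p true u ↔
    G.Adj e.1 e.2 ∧ L e.1 = L u ∧ L e.2 = L u + 1 ∧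
    ∃ v, G.Adj u v ∧ L v = L u + 1 ∧ (∀ w, G.Adj u w → L w = L u + 1 → p v ≤ p w) ∧
      (p e.1 < p u ∧ p v < p e.2) := by
  unfold cl
  rw [mem_filter]
  simp only [mem_univ, true_and, if_true]

theorem mem_cl_false (u : V) (e : V × V) : e ∈ cl G L p false u ↔
    G.Adj e.1 e.2 ∧ L e.1 = L u ∧ L e.2 = L u + 1 ∧
    ∃ v, G.Adj u v ∧ L v = L u + 1 ∧ (∀ w, G.Adj u w → L w = L u + 1 → p v ≤ p w) ∧
      (p u < p e.1 ∧ p e.2 < p v) := by
  unfold cl
  rw [mem_filter]
  simp only [mem_univ, true_and]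
  rfl

/-- The two lists of a vertex together have at most `k` elements. -/
theorem cl_union_card (h : LKP k G L p) (u : V) :
    (cl G L p true u ∪ cl G L p false u).card ≤ k := by
  by_cases hne : (cl G L p true u ∪ cl G L p false u).Nonempty
  · obtain ⟨e0, he0⟩ := hne
    have hv0 : ∃ v, G.Adj u v ∧ L v = L u + 1 ∧
        (∀ w, G.Adj u w → L w = L u + 1 → p v ≤ p w) := by
      rcases mem_union.1 he0 with h1 | h1
      · obtain ⟨_, _, _, v, a, b, c, _⟩ := (mem_cl_true u e0).1 h1
        exact ⟨v, a, b, c⟩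
      · obtain ⟨_, _, _, v, a, b, c, _⟩ := (mem_cl_false u e0).1 h1
        exact ⟨v, a, b, c⟩
    obtain ⟨v, hv1, hv2, hv3⟩ := hv0
    have huniq : ∀ v', G.Adj u v' → L v' = L u + 1 →
        (∀ w, G.Adj u w → L w = L u + 1 → p v' ≤ p w) → v' = v := by
      intro v' h1 h2 h3
      exact h.inj v' v (by rw [h2, hv2]) (le_antisymm (h3 v hv1 hv2) (hv3 v' h1 h2))
    refine le_trans (card_le_card ?_) (h.crs u v hv1 hv2)
    intro e he
    rw [mem_filter]
    refine ⟨mem_univ _, ?_⟩
    rcases mem_union.1 he with h1 | h1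
    · obtain ⟨a1, a2, a3, v', b1, b2, b3, b4⟩ := (mem_cl_true u e).1 h1
      rw [huniq v' b1 b2 b3] at b4
      exact ⟨a1, a2, by rw [a3, hv2], Or.inl b4⟩
    · obtain ⟨a1, a2, a3, v', b1, b2, b3, b4⟩ := (mem_cl_false u e).1 h1
      rw [huniq v' b1 b2 b3] at b4
      exact ⟨a1, a2, by rw [a3, hv2], Or.inr b4⟩
  · rw [not_nonempty_iff_eq_empty] at hne
    rw [hne]
    simp

/-- The coordinates on which the bad event at `u` depends. -/
noncomputable def tt (G : SimpleGraph V) (L p : V → ℕ) (u : V) : Finset V :=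
  (cl G L p true u ∪ cl G L p false u).image Prod.snd

theorem tt_card (h : LKP k G L p) (u : V) : (tt G L p u).card ≤ k :=
  card_image_le.trans (cl_union_card h u)

/-- Few events depend on the height of `v`: one side. -/
theorem occ_true (h : LKP k G L p) (v : V) :
    (univ.filter (fun u : V => ∃ a, (a, v) ∈ cl G L p true u)).card ≤ k := by
  by_cases hne : (univ.filter (fun u : V => ∃ a, (a, v) ∈ cl G L p true u)).Nonempty
  · obtain ⟨u0, hu0⟩ := hne
    obtain ⟨a0, ha0⟩ := (mem_filter.1 hu0).2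
    obtain ⟨c1, c2, c3, _⟩ := (mem_cl_true u0 (a0, v)).1 ha0
    -- the leftmost lower neighbour of `v`
    have hS : (univ.filter (fun a : V => G.Adj a v ∧ L v = L a + 1)).Nonempty :=
      ⟨a0, mem_filter.2 ⟨mem_univ _, c1, by simp only at c2 c3; omega⟩⟩
    obtain ⟨am, ham, hmin⟩ := exists_min_image _ p hS
    obtain ⟨-, ham1, ham2⟩ := mem_filter.1 ham
    refine le_trans (le_trans (card_le_card ?_) (card_image_le (f := Prod.fst)))
      (h.crs am v ham1 ham2)
    intro u hu
    obtain ⟨a, ha⟩ := (mem_filter.1 hu).2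
    obtain ⟨d1, d2, d3, l, l1, l2, l3, l4, l5⟩ := (mem_cl_true u (a, v)).1 ha
    simp only at d1 d2 d3 l4 l5
    refine mem_image.2 ⟨(u, l), mem_filter.2 ⟨mem_univ _, l1, ?_, ?_, Or.inr ⟨?_, l5⟩⟩, rfl⟩
    · simp only
      omega
    · simp only
      omega
    · have := hmin a (mem_filter.2 ⟨mem_univ _, d1, by omega⟩)
      simp only
      omega
  · rw [not_nonempty_iff_eq_empty] at hne
    rw [hne]
    simp

/-- Few events depend on the height of `v`: the other side. -/
theorem occ_false (h : LKP k G L p) (v : V) :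
    (univ.filter (fun u : V => ∃ a, (a, v) ∈ cl G L p false u)).card ≤ k := by
  by_cases hne : (univ.filter (fun u : V => ∃ a, (a, v) ∈ cl G L p false u)).Nonempty
  · obtain ⟨u0, hu0⟩ := hne
    obtain ⟨a0, ha0⟩ := (mem_filter.1 hu0).2
    obtain ⟨c1, c2, c3, _⟩ := (mem_cl_false u0 (a0, v)).1 ha0
    -- the rightmost lower neighbour of `v`
    have hS : (univ.filter (fun a : V => G.Adj a v ∧ L v = L a + 1)).Nonempty :=
      ⟨a0, mem_filter.2 ⟨mem_univ _, c1, by simp only at c2 c3; omega⟩⟩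
    obtain ⟨am, ham, hmax⟩ := exists_max_image _ p hS
    obtain ⟨-, ham1, ham2⟩ := mem_filter.1 ham
    refine le_trans (le_trans (card_le_card ?_) (card_image_le (f := Prod.fst)))
      (h.crs am v ham1 ham2)
    intro u hu
    obtain ⟨a, ha⟩ := (mem_filter.1 hu).2
    obtain ⟨d1, d2, d3, l, l1, l2, l3, l4, l5⟩ := (mem_cl_false u (a, v)).1 ha
    simp only at d1 d2 d3 l4 l5
    refine mem_image.2 ⟨(u, l), mem_filter.2 ⟨mem_univ _, l1, ?_, ?_, Or.inl ⟨?_, l5⟩⟩, rfl⟩
    · simp only
      omega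
    · simp only
      omega
    · have := hmax a (mem_filter.2 ⟨mem_univ _, d1, by omega⟩)
      simp only
      omega
  · rw [not_nonempty_iff_eq_empty] at hne
    rw [hne]
    simp

theorem occ_tt (h : LKP k G L p) (v : V) :
    (univ.filter (fun u : V => v ∈ tt G L p u)).card ≤ 2 * k := by
  have hsub : (univ.filter (fun u : V => v ∈ tt G L p u)) ⊆
      (univ.filter (fun u : V => ∃ a, (a, v) ∈ cl G L p true u)) ∪
      (univ.filter (fun u : V => ∃ a, (a, v) ∈ cl G L p false u)) := by
    intro u hu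
    obtain ⟨e, he, hev⟩ := mem_image.1 (mem_filter.1 hu).2
    have he' : e = (e.1, v) := Prod.ext rfl hev
    rcases mem_union.1 he with h1 | h1
    · exact mem_union_left _ (mem_filter.2 ⟨mem_univ _, e.1, he' ▸ h1⟩)
    · exact mem_union_right _ (mem_filter.2 ⟨mem_univ _, e.1, he' ▸ h1⟩)
  have h1 := card_le_card hsub
  have h2 := card_union_le (univ.filter (fun u : V => ∃ a, (a, v) ∈ cl G L p true u))
      (univ.filter (fun u : V => ∃ a, (a, v) ∈ cl G L p false u))
  have h3 := occ_true h v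
  have h4 := occ_false h v
  omega

theorem dep_card (h : LKP k G L p) (u : V) :
    (univ.filter (fun u' : V => ¬ Disjoint (tt G L p u) (tt G L p u'))).card ≤ 2 * k ^ 2 := by
  have hsub : (univ.filter (fun u' : V => ¬ Disjoint (tt G L p u) (tt G L p u'))) ⊆
      (tt G L p u).biUnion (fun v => univ.filter (fun u' : V => v ∈ tt G L p u')) := by
    intro u' hu'
    obtain ⟨v, hv1, hv2⟩ := not_disjoint_iff.1 (mem_filter.1 hu').2
    exact mem_biUnion.2 ⟨v, hv1, mem_filter.2 ⟨mem_univ _, hv2⟩⟩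
  calc (univ.filter (fun u' : V => ¬ Disjoint (tt G L p u) (tt G L p u'))).card
      ≤ _ := card_le_card hsub
    _ ≤ (tt G L p u).card * (2 * k) :=
        card_biUnion_le_card_mul _ _ _ (fun v _ => occ_tt h v)
    _ ≤ k * (2 * k) := Nat.mul_le_mul_right _ (tt_card h u)
    _ = 2 * k ^ 2 := by ring

end LLproof

/-- The bad set for one list. -/
noncomputable def badS {V : Type} [Fintype V] (m : ℕ) (E : Finset (V × V)) (s : V → ℤ) :
    Finset (V → Fin m) :=
  univ.filter (fun X : V → Fin m => ∃ F ⊆ E, F.card = m ∧ MonoFam s (fun v => (X v : ℕ)) F)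

theorem badS_det {V : Type} [Fintype V] (m : ℕ) (E : Finset (V × V)) (s : V → ℤ) (T : Finset V)
    (hT : E.image Prod.snd ⊆ T) : DetBy (badS m E s) T := by
  have key : ∀ κ κ' : V → Fin m, (∀ v ∈ T, κ v = κ' v) → κ ∈ badS m E s → κ' ∈ badS m E s := by
    intro κ κ' hk hκ
    obtain ⟨F, hFE, hFc, hF⟩ := (mem_filter.1 hκ).2
    refine mem_filter.2 ⟨mem_univ _, F, hFE, hFc, ?_⟩
    intro e he f hf hef
    have h1 := hF e he f hf hef
    have e1 : κ e.2 = κ' e.2 := hk _ (hT (mem_image_of_mem _ (hFE he)))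
    have e2 : κ f.2 = κ' f.2 := hk _ (hT (mem_image_of_mem _ (hFE hf)))
    simp only at h1 ⊢
    rw [← e1, ← e2]
    exact h1
  intro κ κ' hk
  exact ⟨key κ κ' hk, key κ' κ (fun v hv => (hk v hv).symm)⟩

theorem stLL (hc : StCount) (hn : StNum2) : StLL := by
  intro V _ k m G L p hk hkm hL
  have hm : 1 ≤ m := by
    rcases Nat.eq_zero_or_pos m with h0 | h0
    · subst h0
      omega
    · exact h0
  set CC : ℕ := k.choose m * (2 * m - 1).choose m with hCC
  have hnum : 8 * (2 * k ^ 2 + 1) * CC ≤ m ^ m := hn k m hk hkm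
  have hmm : (0 : ℝ) < (m : ℝ) ^ m := by positivity
  have hnumR : 8 * (2 * (k : ℝ) ^ 2 + 1) * (CC : ℝ) ≤ (m : ℝ) ^ m := by exact_mod_cast hnum
  -- the size of one bad set
  have hbad : ∀ (E : Finset (V × V)) (s : V → ℤ), E.card ≤ k →
      (badS m E s).card * m ^ m ≤ CC * m ^ Fintype.card V := by
    intro E s hE
    refine (hc V m hm E s).trans ?_
    rw [hCC]
    exact Nat.mul_le_mul_right _ (Nat.mul_le_mul_right _ (Nat.choose_le_choose _ hE))
  let E : V → Finset (V → Fin m) := fun u =>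
    badS m (cl G L p true u) (fun v => (p v : ℤ)) ∪
    badS m (cl G L p false u) (fun v => - (p v : ℤ))
  have hEcard : ∀ u, (E u).card * m ^ m ≤ 2 * CC * m ^ Fintype.card V := by
    intro u
    have h0 := cl_union_card hL u
    have h1 := hbad (cl G L p true u) (fun v => (p v : ℤ))
      ((card_le_card subset_union_left).trans h0)
    have h2 := hbad (cl G L p false u) (fun v => - (p v : ℤ))
      ((card_le_card subset_union_right).trans h0)
    have h3 : (E u).card ≤ _ := card_union_le _ _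
    calc (E u).card * m ^ m
        ≤ ((badS m (cl G L p true u) (fun v => (p v : ℤ))).card +
          (badS m (cl G L p false u) (fun v => - (p v : ℤ))).card) * m ^ m :=
          Nat.mul_le_mul_right _ h3
      _ = (badS m (cl G L p true u) (fun v => (p v : ℤ))).card * m ^ m +
          (badS m (cl G L p false u) (fun v => - (p v : ℤ))).card * m ^ m := by ring
      _ ≤ CC * m ^ Fintype.card V + CC * m ^ Fintype.card V := Nat.add_le_add h1 h2
      _ = 2 * CC * m ^ Fintype.card V := by ring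
  obtain ⟨κ, hκ⟩ := product_lll (V := V) (K := m) hm E (tt G L p)
    (by
      intro u κ κ' hk'
      have h1 := badS_det m (cl G L p true u) (fun v => (p v : ℤ)) (tt G L p u)
        (image_subset_image subset_union_left) κ κ' hk'
      have h2 := badS_det m (cl G L p false u) (fun v => - (p v : ℤ)) (tt G L p u)
        (image_subset_image subset_union_right) κ κ' hk'
      simp only [E, mem_union]
      rw [h1, h2])
    (2 * (CC : ℝ) / (m : ℝ) ^ m) (2 * (k : ℝ) ^ 2) (by positivity)
    (by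
      rw [← mul_div_assoc, div_lt_one hmm]
      nlinarith [sq_nonneg (k : ℝ), Nat.cast_nonneg (α := ℝ) CC,
        mul_nonneg (sq_nonneg (k : ℝ)) (Nat.cast_nonneg (α := ℝ) CC)])
    (by
      intro u
      rw [card_univ, Fintype.card_fun, Fintype.card_fin, div_mul_eq_mul_div, le_div_iff₀ hmm]
      exact_mod_cast hEcard u)
    (by
      intro u
      have := dep_card hL u
      have h' : ((univ.filter (fun u' : V => ¬ Disjoint (tt G L p u) (tt G L p u'))).card : ℝ) ≤
          ((2 * k ^ 2 : ℕ) : ℝ) := by exact_mod_cast this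
      push_cast at h'
      exact h')
    (by
      rw [mul_div_assoc', div_mul_eq_mul_div, div_le_one hmm]
      nlinarith [Nat.cast_nonneg (α := ℝ) CC])
  refine ⟨κ, fun u => ⟨?_, ?_⟩⟩
  · intro F hF hFc hmono
    exact hκ u (mem_union_left _ (mem_filter.2 ⟨mem_univ _, F, hF, hFc, hmono⟩))
  · intro F hF hFc hmono
    exact hκ u (mem_union_right _ (mem_filter.2 ⟨mem_univ _, F, hF, hFc, hmono⟩))

end Pool.Agent.Lib.MP_1fca17_co
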