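import Mathlib
import Pool.Agent.Lib.MP_1fca17_co.Stmts

/-!
Module LX: the order from left to right of a levelled graph.
-/

namespace Pool.Agent.Lib.MP_1fca17_co

open Finset
open scoped Classical

namespace LXAux

/-- The smallest value on the upper neighbours. -/
noncomputable def mn {V : Type} (G : SimpleGraph V) (L : V → ℕ) (x : V → ℕ) (u : V) : ℕ :=
  sInf (x '' {v | G.Adj u v ∧ L v = L u + 1})

/-- The maximum of `mn` over the vertices to the left on the same level. -/
noncomputable def AA {V : Type} [Fintype V] (G : SimpleGraph V) (L p : V → ℕ) (x : V → ℕ)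
    (u : V) : ℕ :=
  (univ.filter (fun u' : V => L u' = L u ∧ p u' ≤ p u)).sup (mn G L x)

/-- The recursion. -/
noncomputable def Ph {V : Type} [Fintype V] (G : SimpleGraph V) (L p : V → ℕ) (N : ℕ)
    (x : V → ℕ) (u : V) : ℕ :=
  AA G L p x u + (p u + 1) * N ^ L u

theorem mn_congr {V : Type} {G : SimpleGraph V} {L : V → ℕ} {x y : V → ℕ} {u : V}
    (h : ∀ v, L v = L u + 1 → x v = y v) : mn G L x u = mn G L y u := by
  unfold mn
  congr 1
  exact Set.image_congr fun v hv => h v hv.2

theorem Ph_congr {V : Type} [Fintype V] {G : SimpleGraph V} {L p : V → ℕ} {N : ℕ}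
    {x y : V → ℕ} {u : V} (h : ∀ v, L v = L u + 1 → x v = y v) :
    Ph G L p N x u = Ph G L p N y u := by
  unfold Ph AA
  congr 1
  refine Finset.sup_congr rfl fun u' hu' => ?_
  have h1 : L u' = L u := (Finset.mem_filter.mp hu').2.1
  exact mn_congr fun v hv => h v (by rw [hv, h1])

theorem exists_fix {V : Type} [Fintype V] (G : SimpleGraph V) (L p : V → ℕ) (N : ℕ) :
    ∃ x : V → ℕ, ∀ u, x u = Ph G L p N x u := by
  set H : ℕ := univ.sup L + 1 with hH
  have hL : ∀ u, L u < H := fun u =>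
    Nat.lt_succ_of_le (Finset.le_sup (f := L) (Finset.mem_univ u))
  have key : ∀ n : ℕ, ∃ x : V → ℕ, ∀ u, H ≤ L u + n → x u = Ph G L p N x u := by
    intro n
    induction n with
    | zero => exact ⟨fun _ => 0, fun u hu => absurd hu (by have := hL u; omega)⟩
    | succ n ih =>
      obtain ⟨x, hx⟩ := ih
      refine ⟨Ph G L p N x, fun u hu => Ph_congr fun v hv => hx v ?_⟩
      omega
  obtain ⟨x, hx⟩ := key H
  exact ⟨x, fun u => hx u (by omega)⟩

section

variable {V : Type} [Fintype V] {G : SimpleGraph V} {L p : V → ℕ} {N : ℕ} {x : V → ℕ}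

theorem exists_AA (u : V) : ∃ u', L u' = L u ∧ p u' ≤ p u ∧ AA G L p x u = mn G L x u' := by
  have hne : (univ.filter (fun u' : V => L u' = L u ∧ p u' ≤ p u)).Nonempty :=
    ⟨u, by simp⟩
  obtain ⟨u', hu', h⟩ := Finset.exists_mem_eq_sup _ hne (mn G L x)
  obtain ⟨-, h1, h2⟩ := Finset.mem_filter.mp hu'
  exact ⟨u', h1, h2, h⟩

theorem mn_le_AA {u u' : V} (h1 : L u' = L u) (h2 : p u' ≤ p u) :
    mn G L x u' ≤ AA G L p x u :=
  Finset.le_sup (f := mn G L x) (Finset.mem_filter.mpr ⟨Finset.mem_univ u', h1, h2⟩)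

theorem exists_mn {u : V} (h : mn G L x u ≠ 0) :
    ∃ v, G.Adj u v ∧ L v = L u + 1 ∧ x v = mn G L x u := by
  have hne : (x '' {v | G.Adj u v ∧ L v = L u + 1}).Nonempty := by
    by_contra h'
    rw [Set.not_nonempty_iff_eq_empty] at h'
    apply h
    unfold mn
    rw [h', Nat.sInf_empty]
  obtain ⟨v, hv, h1⟩ := Nat.sInf_mem hne
  exact ⟨v, hv.1, hv.2, h1⟩

theorem mn_le {u v : V} (h : G.Adj u v) (h' : L v = L u + 1) : mn G L x u ≤ x v :=
  Nat.sInf_le ⟨v, ⟨h, h'⟩, rfl⟩

theorem dvd_x (hx : ∀ u, x u = Ph G L p N x u) : ∀ u, N ^ L u ∣ x u ∧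
    N ^ (L u + 1) ∣ AA G L p x u := by
  set H : ℕ := univ.sup L + 1 with hH
  have hL : ∀ u, L u < H := fun u =>
    Nat.lt_succ_of_le (Finset.le_sup (f := L) (Finset.mem_univ u))
  have key : ∀ n : ℕ, ∀ u, H ≤ L u + n → N ^ L u ∣ x u ∧ N ^ (L u + 1) ∣ AA G L p x u := by
    intro n
    induction n with
    | zero => exact fun u hu => absurd hu (by have := hL u; omega)
    | succ n ih =>
      intro u hu
      have h2 : N ^ (L u + 1) ∣ AA G L p x u := by
        obtain ⟨u', h1, -, h3⟩ := exists_AA (G := G) (L := L) (p := p) (x := x) u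
        rw [h3]
        rcases eq_or_ne (mn G L x u') 0 with h | h
        · rw [h]
          exact dvd_zero _
        · obtain ⟨v, -, h4, h5⟩ := exists_mn h
          rw [← h5]
          have h6 := (ih v (by omega)).1
          rwa [h4, h1] at h6
      refine ⟨?_, h2⟩
      rw [hx u]
      exact dvd_add ((pow_dvd_pow N (Nat.le_succ _)).trans h2) (Dvd.intro_left _ rfl)
  exact fun u => key H u (by omega)

theorem x_lt (hN : 0 < N) (hx : ∀ u, x u = Ph G L p N x u) {u v : V} (h : L u = L v)
    (h' : p u < p v) : x u < x v := by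
  rw [hx u, hx v]
  unfold Ph
  rw [h]
  have h1 : AA G L p x u ≤ AA G L p x v := by
    obtain ⟨u', h2, h3, h4⟩ := exists_AA (G := G) (L := L) (p := p) (x := x) u
    rw [h4]
    exact mn_le_AA (h2.trans h) (h3.trans h'.le)
  have h2 : 0 < N ^ L v := Nat.pow_pos hN
  have h3 : (p u + 1) * N ^ L v < (p v + 1) * N ^ L v := Nat.mul_lt_mul_of_pos_right (by omega) h2
  omega

end

end LXAux

open LXAux

/-- LX -/
theorem stLX : StLX := by
  intro V _ G L p hp
  set N : ℕ := univ.sup p + 2 with hN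
  have hpN : ∀ u, p u + 1 < N := fun u => by
    have := Finset.le_sup (f := p) (Finset.mem_univ u)
    omega
  have hN0 : 0 < N := by omega
  obtain ⟨x, hx⟩ := exists_fix G L p N
  have hd := dvd_x hx
  have hmono : ∀ u v, L u = L v → (x u < x v ↔ p u < p v) := by
    intro u v h
    refine ⟨fun h1 => ?_, fun h1 => x_lt hN0 hx h h1⟩
    by_contra h2
    rcases Nat.lt_or_ge (p v) (p u) with h3 | h3
    · exact absurd (x_lt hN0 hx h.symm h3) (by omega)
    · rw [hp u v h (by omega)] at h1
      exact absurd h1 (lt_irrefl _)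
  have hpos : ∀ u, 0 < x u := by
    intro u
    rw [hx u]
    unfold Ph
    have : 0 < (p u + 1) * N ^ L u := Nat.mul_pos (by omega) (Nat.pow_pos hN0)
    omega
  have hsmall : ∀ u, (p u + 1) * N ^ L u < N ^ (L u + 1) := by
    intro u
    rw [pow_succ, mul_comm (N ^ L u) N]
    exact Nat.mul_lt_mul_of_pos_right (hpN u) (Nat.pow_pos hN0)
  have hne : ∀ u v, L u < L v → x u ≠ x v := by
    intro u v h h'
    have h1 : N ^ (L u + 1) ∣ x u := by
      rw [h']
      exact (pow_dvd_pow N h).trans (hd v).1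
    rw [hx u] at h1
    unfold Ph at h1
    have h2 := (Nat.dvd_add_right (hd u).2).mp h1
    have h3 := Nat.le_of_dvd (Nat.mul_pos (by omega) (Nat.pow_pos hN0)) h2
    exact absurd (hsmall u) (by omega)
  have hupper : ∀ u v, L v = L u + 1 → x v < x u → x v ≤ AA G L p x u := by
    intro u v h h'
    by_contra h1
    rw [not_le] at h1
    have h2 : N ^ (L u + 1) ∣ x v := by
      rw [← h]
      exact (hd v).1
    have h3 : N ^ (L u + 1) ∣ x v - AA G L p x u := Nat.dvd_sub h2 (hd u).2
    have h4 := Nat.le_of_dvd (by omega) h3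
    have h5 := hsmall u
    have h6 : x u = AA G L p x u + (p u + 1) * N ^ L u := hx u
    omega
  have hle : ∀ u v, L u = L v → x u ≤ x v → p u ≤ p v := by
    intro u v h h'
    by_contra h1
    rw [not_le] at h1
    exact absurd ((hmono v u h.symm).mpr h1) (by omega)
  refine ⟨x, ?_, hmono, ?_, ?_⟩
  · intro u v h
    rcases lt_trichotomy (L u) (L v) with h1 | h1 | h1
    · exact absurd h (hne u v h1)
    · refine hp u v h1 ?_
      have h2 := hle u v h1 h.le
      have h3 := hle v u h1.symm h.ge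
      omega
    · exact absurd h.symm (hne v u h1)
  · rintro u ⟨v, h1, h2⟩
    have h3 : (x '' {v | G.Adj u v ∧ L v = L u + 1}).Nonempty := ⟨x v, v, ⟨h1, h2⟩, rfl⟩
    obtain ⟨v', hv', h4⟩ := Nat.sInf_mem h3
    refine ⟨v', hv'.1, hv'.2, ?_⟩
    have h5 : x v' ≤ AA G L p x u := by
      rw [h4]
      exact mn_le_AA rfl le_rfl
    have h6 : x u = AA G L p x u + (p u + 1) * N ^ L u := hx u
    have h7 : 0 < (p u + 1) * N ^ L u := Nat.mul_pos (by omega) (Nat.pow_pos hN0)
    omega
  · intro u v h h'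
    have h1 := hupper u v h h'
    obtain ⟨u', h2, h3, h4⟩ := exists_AA (G := G) (L := L) (p := p) (x := x) u
    have h5 : mn G L x u' ≠ 0 := by
      have := hpos v
      omega
    obtain ⟨v', h6, h7, h8⟩ := exists_mn h5
    rw [h2] at h7
    refine ⟨u', v', h2, h3, h6, h7, ?_, ?_, ?_⟩
    · exact hle v v' (by omega) (by omega)
    · intro v'' h9 h10
      refine hle v' v'' (by omega) ?_
      rw [h8]
      exact mn_le h9 (by omega)
    · intro w h9 h10
      have h11 := hupper u w h9 h10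
      exact hle w v' (by omega) (by omega)

end Pool.Agent.Lib.MP_1fca17_co
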