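import Mathlib
import Pool.Agent.Lib.MP_1fca17_co.Stmts

/-!
# LEVEL: assembly of the theorem for levelled k-planar graphs
-/

namespace Pool.Agent.Lib.MP_1fca17_co

open Finset
open scoped Classical

noncomputable section

namespace Lev

/-- the member with the highest top L-crosses all others -/
theorem lc_max {V : Type} {ρ T : V → ℕ} {F : Finset (V × V)} (hF : Fam ρ T F) {e f : V × V}
    (he : e ∈ F) (hf : f ∈ F) (hne : f ≠ e) (hmax : ∀ g ∈ F, T g.2 ≤ T e.2) : LC ρ T f e := by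
  rcases hF.2 e he f hf hne.symm with h | h
  · exact h
  · exact absurd h.1 (not_lt.2 (hmax f hf))

theorem tops {V : Type} {ρ T : V → ℕ} {F : Finset (V × V)} (hF : Fam ρ T F) {e f : V × V}
    (he : e ∈ F) (hf : f ∈ F) (hne : e ≠ f) : e.2 ≠ f.2 := by
  intro h
  rcases hF.2 e he f hf hne with h1 | h1
  · exact absurd h1.1 (by rw [h]; exact lt_irrefl _)
  · exact absurd h1.1 (by rw [h]; exact lt_irrefl _)

theorem fam_sub {V : Type} {ρ T : V → ℕ} {F F' : Finset (V × V)} (hF : Fam ρ T F)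
    (h : F' ⊆ F) : Fam ρ T F' :=
  ⟨fun e he => hF.1 e (h he), fun e he f hf hne => hF.2 e (h he) f (h hf) hne⟩

section

variable {V : Type} [Fintype V] {k m : ℕ} {G : SimpleGraph V} {L p ρ T : V → ℕ} {X : V → Fin m}

/-- the data of the proof -/
structure Dat (m : ℕ) (G : SimpleGraph V) (L p ρ T : V → ℕ) (X : V → Fin m) : Prop where
  m1 : 1 ≤ m
  inj : ∀ u v, L u = L v → p u = p v → u = v
  po : ∀ u v, L u = L v → (ρ u < ρ v ↔ p u < p v)
  lx : ∀ u, (∃ v, G.Adj u v ∧ L v = L u + 1) → ∃ v, G.Adj u v ∧ L v = L u + 1 ∧ ρ v < ρ u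
  ld : ∀ u v, L v = L u + 1 → ρ v < ρ u → ∃ u' v', L u' = L u ∧ p u' ≤ p u ∧ G.Adj u' v' ∧
      L v' = L u + 1 ∧ p v ≤ p v' ∧ (∀ v'', G.Adj u' v'' → L v'' = L u + 1 → p v' ≤ p v'') ∧
      ∀ w, L w = L u + 1 → ρ w < ρ u → p w ≤ p v'
  tx : ∀ u v, L u = L v → T u < T v → X u ≤ X v
  xt : ∀ u, (∀ F ⊆ cl G L p true u, F.card = m →
      ¬ MonoFam (fun v => (p v : ℤ)) (fun v => (X v : ℕ)) F)
  xf : ∀ u, (∀ F ⊆ cl G L p false u, F.card = m →
      ¬ MonoFam (fun v => - (p v : ℤ)) (fun v => (X v : ℕ)) F)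

theorem Dat.right (D : Dat m G L p ρ T X) {F : Finset (V × V)} (hF : Fam ρ T F)
    (hadj : ∀ e ∈ F, G.Adj e.1 e.2) {t : ℕ} (h2 : ∀ e ∈ F, L e.2 = t + 1)
    (h1 : ∀ e ∈ F, L e.1 = t) (hdir : ∀ e ∈ F, ρ e.1 < ρ e.2) : F.card ≤ m := by
  rcases F.eq_empty_or_nonempty with rfl | hne
  · simp
  obtain ⟨e, he, hmax⟩ := F.exists_max_image (fun e => T e.2) hne
  -- the order of the bottoms
  have key : ∀ f ∈ F, ∀ g ∈ F, LC ρ T f g → ρ f.1 < ρ g.1 ∧ ρ g.1 < ρ f.2 := by
    intro f hf g hg h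
    rcases h.2.2 with h3 | h3
    · exact h3
    · have := hdir f hf
      omega
  -- the leftmost upper neighbour
  have hup : ∃ v, G.Adj e.1 v ∧ L v = L e.1 + 1 := ⟨e.2, hadj e he, by rw [h2 e he, h1 e he]⟩
  obtain ⟨v, hv1, hv2, hv3⟩ := D.lx e.1 hup
  obtain ⟨v0, hv0, hmin⟩ := (univ.filter fun w => G.Adj e.1 w ∧ L w = L e.1 + 1).exists_min_image p
    ⟨v, by simp [hv1, hv2]⟩
  rw [mem_filter] at hv0
  obtain ⟨-, ha0, hl0⟩ := hv0
  have hmin' : ∀ w, G.Adj e.1 w → L w = L e.1 + 1 → p v0 ≤ p w := fun w hw1 hw2 =>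
    hmin w (by simp [hw1, hw2])
  have hv0r : ρ v0 < ρ e.1 := by
    have h3 := hmin' v hv1 hv2
    have h4 := D.po v v0 (by rw [hv2, hl0])
    by_contra h5
    have : ρ v < ρ v0 := by omega
    have := h4.1 this
    omega
  have hcl : F.erase e ⊆ cl G L p true e.1 := by
    intro f hf
    rw [mem_erase] at hf
    obtain ⟨hfe, hf⟩ := hf
    have h3 := key f hf e he (lc_max hF he hf hfe hmax)
    unfold cl
    rw [mem_filter]
    refine ⟨mem_univ _, hadj f hf, by rw [h1 f hf, h1 e he], by rw [h2 f hf, h1 e he], v0, ha0, hl0,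
      hmin', ?_⟩
    rw [if_pos rfl]
    constructor
    · exact (D.po f.1 e.1 (by rw [h1 f hf, h1 e he])).1 h3.1
    · exact (D.po v0 f.2 (by rw [hl0, h1 e he, h2 f hf])).1 (by omega)
  by_contra hcard
  have hm : m ≤ (F.erase e).card := by
    rw [card_erase_of_mem he]
    omega
  obtain ⟨F0, hF0, hc0⟩ := exists_subset_card_eq hm
  refine D.xt e.1 F0 (hF0.trans hcl) hc0 ?_
  have hsub : ∀ f ∈ F0, f ∈ F := fun f hf => mem_of_mem_erase (hF0 hf)
  have hcase : ∀ f ∈ F, ∀ g ∈ F, LC ρ T f g → ((p f.1 : ℤ) < p g.1 ∧ (X f.2 : ℕ) ≤ X g.2) := by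
    intro f hf g hg h
    refine ⟨?_, ?_⟩
    · exact_mod_cast (D.po f.1 g.1 (by rw [h1 f hf, h1 g hg])).1 (key f hf g hg h).1
    · exact D.tx f.2 g.2 (by rw [h2 f hf, h2 g hg]) h.1
  intro f hf g hg hfg
  refine ⟨tops hF (hsub f hf) (hsub g hg) hfg, ?_⟩
  rcases hF.2 f (hsub f hf) g (hsub g hg) hfg with h | h
  · exact Or.inr (hcase g (hsub g hg) f (hsub f hf) h)
  · exact Or.inl (hcase f (hsub f hf) g (hsub g hg) h)

theorem Dat.left (D : Dat m G L p ρ T X) {F : Finset (V × V)} (hF : Fam ρ T F)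
    (hadj : ∀ e ∈ F, G.Adj e.1 e.2) {t : ℕ} (h2 : ∀ e ∈ F, L e.2 = t + 1)
    (h1 : ∀ e ∈ F, L e.1 = t) (hdir : ∀ e ∈ F, ρ e.2 < ρ e.1) : F.card ≤ m + 1 := by
  rcases F.eq_empty_or_nonempty with rfl | hne
  · simp
  obtain ⟨e, he, hmax⟩ := F.exists_max_image (fun e => T e.2) hne
  have key : ∀ f ∈ F, ∀ g ∈ F, LC ρ T f g → ρ f.2 < ρ g.1 ∧ ρ g.1 < ρ f.1 := by
    intro f hf g hg h
    rcases h.2.2 with h3 | h3
    · have := hdir f hf
      omega
    · exact h3
  obtain ⟨u', v', hu1, hu2, hu3, hv1, hv2, hv3, hv4⟩ := D.ld e.1 e.2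
    (by rw [h2 e he, h1 e he]) (hdir e he)
  have hcl : (F.erase e).filter (fun f => f.2 ≠ v') ⊆ cl G L p false u' := by
    intro f hf
    rw [mem_filter, mem_erase] at hf
    obtain ⟨⟨hfe, hf⟩, hfv⟩ := hf
    have h3 := key f hf e he (lc_max hF he hf hfe hmax)
    unfold cl
    rw [mem_filter]
    refine ⟨mem_univ _, hadj f hf, by rw [h1 f hf, hu1, h1 e he], by rw [h2 f hf, hu1, h1 e he], v',
      hu3, by rw [hv1, hu1], fun w hw1 hw2 => hv3 w hw1 (by rw [hw2, hu1]), ?_⟩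
    rw [if_neg (by simp)]
    constructor
    · have := (D.po e.1 f.1 (by rw [h1 f hf, h1 e he])).1 h3.2
      omega
    · have h4 := hv4 f.2 (by rw [h2 f hf, h1 e he]) h3.1
      have h5 : p f.2 ≠ p v' := fun h => hfv (D.inj _ _ (by rw [h2 f hf, hv1, h1 e he]) h)
      omega
  have hone : ((F.erase e).filter (fun f => f.2 = v')).card ≤ 1 := by
    rw [card_le_one]
    intro f hf g hg
    rw [mem_filter, mem_erase] at hf hg
    by_contra hfg
    exact tops hF hf.1.2 hg.1.2 hfg (by rw [hf.2, hg.2])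
  have hsum := card_filter_add_card_filter_not (s := F.erase e) (fun f => f.2 = v')
  rw [card_erase_of_mem he] at hsum
  by_contra hcard
  have hm : m ≤ ((F.erase e).filter (fun f => f.2 ≠ v')).card := by
    have : ((F.erase e).filter (fun f => f.2 ≠ v')).card =
        ((F.erase e).filter (fun f => ¬ f.2 = v')).card := rfl
    omega
  obtain ⟨F0, hF0, hc0⟩ := exists_subset_card_eq hm
  refine D.xf u' F0 (hF0.trans hcl) hc0 ?_
  have hsub : ∀ f ∈ F0, f ∈ F := fun f hf => mem_of_mem_erase (mem_of_mem_filter f (hF0 hf))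
  have hcase : ∀ f ∈ F, ∀ g ∈ F, LC ρ T f g →
      (-(p f.1 : ℤ) < -(p g.1 : ℤ) ∧ (X f.2 : ℕ) ≤ X g.2) := by
    intro f hf g hg h
    refine ⟨?_, ?_⟩
    · have := (D.po g.1 f.1 (by rw [h1 f hf, h1 g hg])).1 (key f hf g hg h).2
      omega
    · exact D.tx f.2 g.2 (by rw [h2 f hf, h2 g hg]) h.1
  intro f hf g hg hfg
  refine ⟨tops hF (hsub f hf) (hsub g hg) hfg, ?_⟩
  rcases hF.2 f (hsub f hf) g (hsub g hg) hfg with h | h
  · exact Or.inr (hcase g (hsub g hg) f (hsub f hf) h)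
  · exact Or.inl (hcase f (hsub f hf) g (hsub g hg) h)

theorem Dat.strip (D : Dat m G L p ρ T X) (hρ : Function.Injective ρ) {F : Finset (V × V)}
    (hF : Fam ρ T F) (hadj : ∀ e ∈ F, G.Adj e.1 e.2) {t : ℕ} (h2 : ∀ e ∈ F, L e.2 = t + 1)
    (h1 : ∀ e ∈ F, L e.1 = t) : F.card ≤ 2 * m + 1 := by
  have ha := card_filter_add_card_filter_not (s := F) (fun e => ρ e.1 < ρ e.2)
  have hr : (F.filter (fun e => ρ e.1 < ρ e.2)).card ≤ m := by
    refine D.right (fam_sub hF (filter_subset _ _)) (fun e he => hadj e (mem_of_mem_filter e he))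
      (fun e he => h2 e (mem_of_mem_filter e he)) (fun e he => h1 e (mem_of_mem_filter e he))
      (fun e he => (mem_filter.1 he).2)
  have hl : (F.filter (fun e => ¬ ρ e.1 < ρ e.2)).card ≤ m + 1 := by
    refine D.left (fam_sub hF (filter_subset _ _)) (fun e he => hadj e (mem_of_mem_filter e he))
      (fun e he => h2 e (mem_of_mem_filter e he)) (fun e he => h1 e (mem_of_mem_filter e he))
      (fun e he => ?_)
    rw [mem_filter] at he
    have h3 : ρ e.1 ≠ ρ e.2 := fun h => (hadj e he.1).ne (hρ h)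
    have := he.2
    omega
  omega

end

end Lev

open Lev in
theorem stLevel (hx : StLX) (hl : StLL) : StLevel := by
  intro V _ k m G L p hk hm hG
  obtain ⟨ρ, hρ, hpo, hc, hd⟩ := hx V G L p hG.inj
  obtain ⟨X, hX⟩ := hl V k m G L p hk hm hG
  have hm1 : 1 ≤ m := by
    rcases Nat.eq_zero_or_pos m with rfl | h
    · simp at hm
      omega
    · exact h
  set M : ℕ := Fintype.card V with hM
  set j : V → ℕ := fun v => (Fintype.equivFin V v : ℕ) with hj
  have hjM : ∀ v, j v < M := fun v => (Fintype.equivFin V v).2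
  set T : V → ℕ := fun v => (L v * m + X v) * M + j v with hT
  have hTinj : Function.Injective T := by
    intro u v h
    have h1 : j u = j v := by
      have h2 : T u % M = T v % M := by rw [h]
      simp only [hT, Nat.mul_add_mod_self_right, Nat.mod_eq_of_lt (hjM _)] at h2
      exact h2
    exact (Fintype.equivFin V).injective (Fin.ext h1)
  have hTlt : ∀ u v, T u < T v → L u * m + (X u : ℕ) ≤ L v * m + (X v : ℕ) := by
    intro u v h
    by_contra h1
    have h2 : L v * m + (X v : ℕ) + 1 ≤ L u * m + (X u : ℕ) := by omega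
    have h3 := Nat.mul_le_mul_right M h2
    have h4 := hjM v
    simp only [hT] at h
    rw [add_mul, one_mul] at h3
    omega
  have hTL : ∀ u v, T u < T v → L u ≤ L v := by
    intro u v h
    have h1 := hTlt u v h
    by_contra h2
    have h3 : L v + 1 ≤ L u := by omega
    have h4 := Nat.mul_le_mul_right m h3
    have h5 := (X v).2
    rw [add_mul, one_mul] at h4
    omega
  have hTX : ∀ u v, L u = L v → T u < T v → X u ≤ X v := by
    intro u v hL h
    have h1 := hTlt u v h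
    rw [hL] at h1
    exact Fin.le_def.2 (by omega)
  have D : Dat m G L p ρ T X := ⟨hm1, hG.inj, hpo, hc, hd, hTX, fun u => (hX u).1,
    fun u => (hX u).2⟩
  refine ⟨ρ, T, hρ, hTinj, fun F hF hadj => ?_⟩
  have hlev : ∀ e ∈ F, L e.2 = L e.1 + 1 := by
    intro e he
    have h1 := hTL _ _ (hF.1 e he)
    rcases hG.lev _ _ (hadj e he) with h | h
    · exact h
    · omega
  rcases F.eq_empty_or_nonempty with rfl | hne
  · simp
  obtain ⟨e, he, hmax⟩ := F.exists_max_image (fun e => T e.2) hne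
  have hsplit : ∀ f ∈ F, L f.2 = L e.1 + 1 ∨ L f.2 = L e.1 := by
    intro f hf
    by_cases hfe : f = e
    · subst hfe
      exact Or.inl (hlev f hf)
    · have h1 := lc_max hF he hf hfe hmax
      have h2 := hTL _ _ h1.1
      have h3 := hTL _ _ h1.2.1
      have h4 := hlev e he
      omega
  have ha := card_filter_add_card_filter_not (s := F) (fun f => L f.2 = L e.1 + 1)
  have h1 : (F.filter (fun f => L f.2 = L e.1 + 1)).card ≤ 2 * m + 1 := by
    refine D.strip hρ (fam_sub hF (filter_subset _ _)) (t := L e.1)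
      (fun f hf => hadj f (mem_of_mem_filter f hf)) (fun f hf => (mem_filter.1 hf).2)
      (fun f hf => ?_)
    have h2 := (mem_filter.1 hf).2
    have h3 := hlev f (mem_of_mem_filter f hf)
    omega
  have h2 : (F.filter (fun f => ¬ L f.2 = L e.1 + 1)).card ≤ 2 * m + 1 := by
    rcases (F.filter (fun f => ¬ L f.2 = L e.1 + 1)).eq_empty_or_nonempty with h0 | ⟨g, hg⟩
    · rw [h0]
      simp
    have hg1 := hlev g (mem_of_mem_filter g hg)
    have hs : ∀ f ∈ F.filter (fun f => ¬ L f.2 = L e.1 + 1), L f.2 = L e.1 := by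
      intro f hf
      rcases hsplit f (mem_of_mem_filter f hf) with h | h
      · exact absurd h (mem_filter.1 hf).2
      · exact h
    have hg2 := hs g hg
    refine D.strip hρ (fam_sub hF (filter_subset _ _)) (t := L g.1)
      (fun f hf => hadj f (mem_of_mem_filter f hf)) (fun f hf => ?_)
      (fun f hf => ?_)
    · have h3 := hs f hf
      omega
    · have h3 := hs f hf
      have h4 := hlev f (mem_of_mem_filter f hf)
      omega
  omega

end

end Pool.Agent.Lib.MP_1fca17_co
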