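import Mathlib
import Pool.Agent.Lib.MP_1fca17_co.Final

/-!
# MP_1fca17_co : the final form of the theorem on levelled k-planar graphs
-/

namespace Pool.Agent.Lib.MP_1fca17_co

open Finset
open scoped Classical

noncomputable section

/-- `G` is levelled k-planar: the vertices can be placed at distinct points `(p v, L v)` with
integer coordinates such that every edge joins two consecutive levels and in the straight-line
drawing every edge `uv` (`u` lower, `v` upper) is crossed by at most `k` edges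
(written as (lower end, upper end)). -/
def LevelledKPlanar {V : Type} (k : ℕ) (G : SimpleGraph V) : Prop :=
  ∃ L p : V → ℕ, (∀ u v : V, L u = L v → p u = p v → u = v) ∧
    (∀ u v : V, G.Adj u v → L v = L u + 1 ∨ L u = L v + 1) ∧
    ∀ u v : V, G.Adj u v → L v = L u + 1 →
      Set.ncard {e : V × V | G.Adj e.1 e.2 ∧ L e.1 = L u ∧ L e.2 = L v ∧
        ((p e.1 < p u ∧ p v < p e.2) ∨ (p u < p e.1 ∧ p e.2 < p v))} ≤ k

theorem level_final (hgeo : StGeo) (hlev : StLevel) (V : Type) [Fintype V] (k : ℕ) (hk : 1 ≤ k)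
    (G : SimpleGraph V) (hG : LevelledKPlanar k G) :
    ∃ P : V → ℝ × ℝ, Good G P ∧ ∀ F : Finset (Sym2 V), (∀ e ∈ F, e ∈ G.edgeSet) →
      (∀ e ∈ F, ∀ f ∈ F, e ≠ f → (edgeSeg P e ∩ edgeSeg P f).Nonempty) →
      (F.card : ℝ) ≤ 34 * Real.sqrt k := by
  obtain ⟨L, p, h1, h2, h3⟩ := hG
  have hk' : (1 : ℝ) ≤ Real.sqrt k := by
    rw [Real.one_le_sqrt]; exact_mod_cast hk
  have hL : LKP k G L p := by
    refine ⟨h1, h2, fun u v huv hl => ?_⟩
    refine le_trans (le_of_eq ?_) (h3 u v huv hl)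
    rw [← Set.ncard_coe_finset]
    congr 1
    ext e
    simp
  set m : ℕ := Nat.sqrt (48 * k) + 1 with hm
  have hm1 : 48 * k ≤ m ^ 2 := by
    have := Nat.lt_succ_sqrt (48 * k)
    rw [hm, pow_two]
    exact this.le
  have hm2 : ((4 * m + 2 : ℕ) : ℝ) ≤ 34 * Real.sqrt k := by
    have h1 : ((Nat.sqrt (48 * k) : ℕ) : ℝ) ≤ 7 * Real.sqrt k := by
      have h2 : ((Nat.sqrt (48 * k) : ℕ) : ℝ) ≤ Real.sqrt (48 * k) := by
        apply Real.le_sqrt_of_sq_le
        have := Nat.sqrt_le' (48 * k)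
        exact_mod_cast this
      have h3 : Real.sqrt (48 * k) ≤ 7 * Real.sqrt k := by
        rw [Real.sqrt_mul (by norm_num)]
        apply mul_le_mul_of_nonneg_right _ (Real.sqrt_nonneg _)
        rw [Real.sqrt_le_left (by norm_num)]
        norm_num
      linarith
    have : (m : ℝ) = (Nat.sqrt (48 * k) : ℕ) + 1 := by rw [hm]; push_cast; ring
    push_cast
    rw [this]
    linarith
  obtain ⟨ρ, T, hρ, hT, hF⟩ := hlev V k m G L p hk hm1 hL
  obtain ⟨P, hP, hcross⟩ := final hgeo G ρ T hρ hT (4 * m + 2) hF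
  refine ⟨P, hP, fun F h1 h2 => ?_⟩
  have := hcross F h1 h2
  have h3 : (F.card : ℝ) ≤ ((4 * m + 2 : ℕ) : ℝ) := by exact_mod_cast this
  linarith

end

end Pool.Agent.Lib.MP_1fca17_co
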