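import Mathlib
import Pool.Agent.Lib.MP_1fca17_co.Stmts

/-! # OUTER: the combinatorial theorem for outer k-planar graphs -/

namespace Pool.Agent.Lib.MP_1fca17_co

open Finset
open scoped Classical

noncomputable section

namespace OuterAux

variable {N : ℕ}

/-- Membership in a class: smallest level `μ ≥ 1` inside the span, top of level `l`, direction. -/
def Cl (G : SimpleGraph (Fin (N + 1))) (z : ℕ × ℕ × Bool) (e : Fin (N + 1) × Fin (N + 1)) : Prop :=
  (∃ d, d + 1 = z.1) ∧ lv G e.2 = z.2.1 ∧
    (∀ w, Btw (fun v : Fin (N + 1) => (v : ℕ)) w e.1 e.2 → z.1 ≤ lv G w) ∧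
    (∃ w, Btw (fun v : Fin (N + 1) => (v : ℕ)) w e.1 e.2 ∧ lv G w = z.1) ∧
    ((z.2.2 = true ∧ e.1 < e.2) ∨ (z.2.2 = false ∧ e.2 < e.1))

theorem fam_subset {V : Type} {ρ T : V → ℕ} {F F' : Finset (V × V)} (h : Fam ρ T F)
    (hs : F' ⊆ F) : Fam ρ T F' :=
  ⟨fun e he => h.1 e (hs he), fun e he f hf => h.2 e (hs he) f (hs hf)⟩

end OuterAux

open OuterAux in
theorem stOuter (ht : StT) (hh : StH) (hC : StC) (hD : StD) : StOuter := by
  intro N k m G hk hG hm
  have hm1 : 1 ≤ m := by
    by_contra h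
    have h0 : m = 0 := by omega
    rw [h0] at hm
    omega
  obtain ⟨T, hT⟩ := ht N k m G hk hG hm
  refine ⟨T, hT.1, fun F hF hadj => ?_⟩
  -- the hub members
  set Fh := F.filter fun e => ∀ w, Btw (fun v : Fin (N + 1) => (v : ℕ)) w e.1 e.2 →
    lv G e.2 < lv G w with hFh
  set Fn := F.filter fun e => ¬ ∀ w, Btw (fun v : Fin (N + 1) => (v : ℕ)) w e.1 e.2 →
    lv G e.2 < lv G w with hFn
  have hsum : Fh.card + Fn.card = F.card := card_filter_add_card_filter_not _
  have h4 : Fh.card ≤ 4 := hh N G T hT.1 hT.2.1 Fh (fam_subset hF (filter_subset _ _))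
    (fun e he => hadj e (mem_filter.1 he).1) (fun e he => (mem_filter.1 he).2)
  have hFnF : Fn ⊆ F := filter_subset _ _
  obtain ⟨c, hc⟩ := hD N G T hT.1 hT.2.1 Fn (fam_subset hF hFnF)
    (fun e he => hadj e (hFnF he)) (fun e he => by
      have := (mem_filter.1 he).2
      push Not at this
      exact this)
  -- the classes
  have hcls : ∀ z : ℕ × ℕ × Bool, (z.2.1 = z.1 ∨ z.2.1 = z.1 + 1) →
      (Fn.filter (Cl G z)).card ≤ m - 1 := by
    rintro ⟨μ, l, b⟩ hz
    by_cases hμ : ∃ d, d + 1 = μ
    · obtain ⟨d, rfl⟩ := hμ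
      have hsub : Fn.filter (Cl G (d + 1, l, b)) ⊆ F := (filter_subset _ _).trans hFnF
      have h5 := hC N m G T hm1 hT d l (by simp only at hz; omega)
        (Fn.filter (Cl G (d + 1, l, b))) (fam_subset hF hsub) (fun e he => hadj e (hsub he))
        (fun e he => (mem_filter.1 he).2.2.1)
        (fun e he => ⟨(mem_filter.1 he).2.2.2.1, (mem_filter.1 he).2.2.2.2.1⟩) (by
          rcases b with _ | _
          · right
            intro e he
            rcases (mem_filter.1 he).2.2.2.2.2 with h | h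
            · exact absurd h.1 (by simp)
            · exact h.2
          · left
            intro e he
            rcases (mem_filter.1 he).2.2.2.2.2 with h | h
            · exact h.2
            · exact absurd h.1 (by simp))
      omega
    · have h5 : Fn.filter (Cl G (μ, l, b)) = ∅ := by
        rw [filter_eq_empty_iff]
        intro e _ he
        exact hμ he.1
      rw [h5, card_empty]
      omega
  -- the cover
  set Z : Finset (ℕ × ℕ × Bool) :=
    {(c, c + 1, true), (c, c + 1, false), (c + 1, c + 1, true), (c + 1, c + 1, false),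
      (c + 1, c + 2, true), (c + 1, c + 2, false), (c + 2, c + 2, true), (c + 2, c + 2, false)}
    with hZ
  have hcover : Fn ⊆ Z.biUnion fun z => Fn.filter (Cl G z) := by
    intro e he
    obtain ⟨d, l, h1, h2, h3, h5⟩ := hc e he
    have hne : e.1 ≠ e.2 := by
      intro h
      have := hF.1 e (hFnF he)
      rw [h] at this
      exact lt_irrefl _ this
    rw [mem_biUnion]
    rcases lt_or_gt_of_ne hne with h6 | h6
    · refine ⟨(d + 1, l, true), ?_, mem_filter.2 ⟨he, ⟨d, rfl⟩, h1, h2, h3, Or.inl ⟨rfl, h6⟩⟩⟩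
      rw [hZ]
      simp only [mem_insert, mem_singleton, Prod.mk.injEq]
      rcases h5 with h5 | h5 | h5 | h5 <;> simp [h5.1, h5.2]
    · refine ⟨(d + 1, l, false), ?_, mem_filter.2 ⟨he, ⟨d, rfl⟩, h1, h2, h3, Or.inr ⟨rfl, h6⟩⟩⟩
      rw [hZ]
      simp only [mem_insert, mem_singleton, Prod.mk.injEq]
      rcases h5 with h5 | h5 | h5 | h5 <;> simp [h5.1, h5.2]
  have hZc : Z.card ≤ 8 := by
    rw [hZ]
    refine (card_insert_le _ _).trans ?_
    refine Nat.succ_le_succ ((card_insert_le _ _).trans ?_)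
    refine Nat.succ_le_succ ((card_insert_le _ _).trans ?_)
    refine Nat.succ_le_succ ((card_insert_le _ _).trans ?_)
    refine Nat.succ_le_succ ((card_insert_le _ _).trans ?_)
    refine Nat.succ_le_succ ((card_insert_le _ _).trans ?_)
    refine Nat.succ_le_succ ((card_insert_le _ _).trans ?_)
    rw [card_singleton]
  have h7 : Fn.card ≤ 8 * (m - 1) := by
    refine (card_le_card hcover).trans (card_biUnion_le.trans ?_)
    refine (sum_le_card_nsmul _ _ (m - 1) fun z hz => hcls z ?_).trans ?_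
    · rw [hZ] at hz
      simp only [mem_insert, mem_singleton] at hz
      rcases hz with rfl | rfl | rfl | rfl | rfl | rfl | rfl | rfl <;> simp
    · rw [smul_eq_mul]
      exact Nat.mul_le_mul_right _ hZc
  omega

end

end Pool.Agent.Lib.MP_1fca17_co
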