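import Mathlib
import Pool.Agent.Lib.MP_1fca17_co.Final

/-!
# MP_1fca17_co : the final form of the two theorems
-/

namespace Pool.Agent.Lib.MP_1fca17_co

open Finset
open scoped Classical

noncomputable section

/-- `G` is outer k-planar: there is an order `c` of the vertices on a circle (cut open at a point)
such that in the drawing with straight chords every edge `uv` is crossed by at most `k` edges.
A crossing edge is written as (endpoint strictly between `u` and `v`, endpoint outside). -/
def OuterKPlanar {V : Type} (k : ℕ) (G : SimpleGraph V) : Prop :=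
  ∃ c : V → ℕ, Function.Injective c ∧ ∀ u v : V, G.Adj u v → c u < c v →
    Set.ncard {e : V × V | G.Adj e.1 e.2 ∧ c u < c e.1 ∧ c e.1 < c v ∧
      (c e.2 < c u ∨ c v < c e.2)} ≤ k

theorem outer_final (hgeo : StGeo) (hout : StOuter) (V : Type) [Fintype V] (k : ℕ) (hk : 1 ≤ k)
    (G : SimpleGraph V) (hG : OuterKPlanar k G) :
    ∃ P : V → ℝ × ℝ, Good G P ∧ ∀ F : Finset (Sym2 V), (∀ e ∈ F, e ∈ G.edgeSet) →
      (∀ e ∈ F, ∀ f ∈ F, e ≠ f → (edgeSeg P e ∩ edgeSeg P f).Nonempty) →
      (F.card : ℝ) ≤ 120 * Real.sqrt k := by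
  obtain ⟨c, hc, hcr⟩ := hG
  have hk' : (1 : ℝ) ≤ Real.sqrt k := by
    rw [Real.one_le_sqrt]; exact_mod_cast hk
  rcases isEmpty_or_nonempty V with hV | hV
  · refine ⟨fun _ => 0, ⟨fun a => (hV.false a).elim, fun a => (hV.false a).elim, ?_⟩, ?_⟩
    · intro e
      induction e using Sym2.ind with
      | _ u v => exact (hV.false u).elim
    · intro F _ _
      have : F = ∅ := by
        ext e
        induction e using Sym2.ind with
        | _ u v => exact (hV.false u).elim
      rw [this]
      simp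
  obtain ⟨N, hN⟩ : ∃ N, Fintype.card V = N + 1 :=
    ⟨Fintype.card V - 1, by have := Fintype.card_pos (α := V); omega⟩
  let _ : LinearOrder V := LinearOrder.lift' c hc
  have hlt : ∀ u v : V, u < v ↔ c u < c v := fun u v => Iff.rfl
  let φ : Fin (N + 1) ≃o V := monoEquivOfFin V hN
  have hφ : ∀ a b : Fin (N + 1), c (φ a) < c (φ b) ↔ a < b := fun a b => by
    rw [← hlt]; exact φ.lt_iff_lt
  let G' : SimpleGraph (Fin (N + 1)) := G.comap φ
  have hOKP : OKP k G' := by
    intro a b hab hadj
    refine le_trans ?_ (hcr (φ a) (φ b) hadj ((hφ a b).2 hab))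
    have hfin : Set.Finite {e : V × V | G.Adj e.1 e.2 ∧ c (φ a) < c e.1 ∧ c e.1 < c (φ b) ∧
      (c e.2 < c (φ a) ∨ c (φ b) < c e.2)} := Set.toFinite _
    rw [← Set.ncard_coe_finset]
    refine Set.ncard_le_ncard_of_injOn
      (fun e : Fin (N + 1) × Fin (N + 1) => if a < e.1 then (φ e.1, φ e.2) else (φ e.2, φ e.1))
      ?_ ?_ hfin
    · rintro ⟨x, y⟩ hxy
      obtain ⟨h1, h2, h3⟩ := (Finset.mem_filter.1 (Finset.mem_coe.1 hxy)).2
      have h2' : G.Adj (φ x) (φ y) := h2
      by_cases hax : a < x
      · have h4 : a < x ∧ x < b ∧ b < y := by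
          rcases h3 with h3 | h3
          · exact h3
          · exact absurd h3.1 (not_lt.2 hax.le)
        simp only [hax, if_true, Set.mem_ofPred_eq]
        exact ⟨h2', (hφ _ _).2 h4.1, (hφ _ _).2 h4.2.1, Or.inr ((hφ _ _).2 h4.2.2)⟩
      · have h4 : x < a ∧ a < y ∧ y < b := by
          rcases h3 with h3 | h3
          · exact absurd h3.1 hax
          · exact h3
        simp only [hax, if_false, Set.mem_ofPred_eq]
        exact ⟨h2'.symm, (hφ _ _).2 h4.2.1, (hφ _ _).2 h4.2.2, Or.inl ((hφ _ _).2 h4.1)⟩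
    · rintro ⟨x, y⟩ hxy0 ⟨x', y'⟩ hxy0' heq
      have hxy := (Finset.mem_filter.1 (Finset.mem_coe.1 hxy0)).2
      have hxy' := (Finset.mem_filter.1 (Finset.mem_coe.1 hxy0')).2
      by_cases hax : a < x <;> by_cases hax' : a < x'
      · simp only [hax, hax', if_true, Prod.mk.injEq, EmbeddingLike.apply_eq_iff_eq] at heq
        exact Prod.ext heq.1 heq.2
      · simp only [hax, hax', if_true, if_false, Prod.mk.injEq,
          EmbeddingLike.apply_eq_iff_eq] at heq
        exfalso
        obtain ⟨rfl, rfl⟩ := heq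
        have h1 := hxy.1
        have h2 := hxy'.1
        exact absurd h1 (not_lt.2 h2.le)
      · simp only [hax, hax', if_true, if_false, Prod.mk.injEq,
          EmbeddingLike.apply_eq_iff_eq] at heq
        exfalso
        obtain ⟨rfl, rfl⟩ := heq
        have h1 := hxy.1
        have h2 := hxy'.1
        exact absurd h1 (not_lt.2 h2.le)
      · simp only [hax, hax', if_false, Prod.mk.injEq, EmbeddingLike.apply_eq_iff_eq] at heq
        exact Prod.ext heq.2 heq.1
  -- the size m
  set m : ℕ := Nat.sqrt (192 * k) + 1 with hm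
  have hm1 : 192 * k ≤ m ^ 2 := by
    have := Nat.lt_succ_sqrt (192 * k)
    rw [hm, pow_two]
    exact this.le
  have hm2 : (8 * m : ℝ) ≤ 120 * Real.sqrt k := by
    have h1 : ((Nat.sqrt (192 * k) : ℕ) : ℝ) ≤ 13.9 * Real.sqrt k := by
      have h2 : ((Nat.sqrt (192 * k) : ℕ) : ℝ) ≤ Real.sqrt (192 * k) := by
        apply Real.le_sqrt_of_sq_le
        have := Nat.sqrt_le' (192 * k)
        exact_mod_cast this
      have h3 : Real.sqrt (192 * k) ≤ 13.9 * Real.sqrt k := by
        rw [Real.sqrt_mul (by norm_num)]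
        apply mul_le_mul_of_nonneg_right _ (Real.sqrt_nonneg _)
        rw [Real.sqrt_le_left (by norm_num)]
        norm_num
      linarith
    have : (m : ℝ) = (Nat.sqrt (192 * k) : ℕ) + 1 := by rw [hm]; push_cast; ring
    rw [this]
    linarith
  obtain ⟨T, hT, hF⟩ := hout N k m G' hk hOKP hm1
  obtain ⟨P, hP, hcross⟩ := final hgeo G (fun v => ((φ.symm v : Fin (N + 1)) : ℕ))
    (fun v => T (φ.symm v)) (fun u v h => φ.symm.injective (Fin.ext h))
    (fun u v h => φ.symm.injective (hT h)) (8 * m) (by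
      intro F hFam hadj
      let ψ : V × V → Fin (N + 1) × Fin (N + 1) := fun e => (φ.symm e.1, φ.symm e.2)
      have hψ : Function.Injective ψ := by
        intro e f h
        have h1 : φ.symm e.1 = φ.symm f.1 := congrArg Prod.fst h
        have h2 : φ.symm e.2 = φ.symm f.2 := congrArg Prod.snd h
        exact Prod.ext (φ.symm.injective h1) (φ.symm.injective h2)
      rw [← Finset.card_image_of_injective F hψ]
      apply hF
      · refine ⟨?_, ?_⟩
        · intro p hp
          obtain ⟨e, he, rfl⟩ := Finset.mem_image.1 hp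
          exact hFam.1 e he
        · intro p hp q hq hpq
          obtain ⟨e, he, rfl⟩ := Finset.mem_image.1 hp
          obtain ⟨f, hf, rfl⟩ := Finset.mem_image.1 hq
          exact hFam.2 e he f hf (fun h => hpq (by rw [h]))
      · intro p hp
        obtain ⟨e, he, rfl⟩ := Finset.mem_image.1 hp
        have := hadj e he
        show G.Adj (φ (φ.symm e.1)) (φ (φ.symm e.2))
        simpa using this)
  refine ⟨P, hP, fun F h1 h2 => ?_⟩
  have := hcross F h1 h2
  have h3 : (F.card : ℝ) ≤ 8 * m := by exact_mod_cast this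
  linarith

end

end Pool.Agent.Lib.MP_1fca17_co
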