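import Mathlib
import Pool.Agent.Lib.MP_1fca17_co.Stmts

/-!
# S1: elementary properties of the level sets `SS G d`
-/

namespace Pool.Agent.Lib.MP_1fca17_co

open Finset
open scoped Classical

namespace S1Aux

variable {N : ℕ} (G : SimpleGraph (Fin (N + 1)))

theorem mem_succ (d : ℕ) (y : Fin (N + 1)) :
    y ∈ SS G (d + 1) ↔ y ∈ SS G d ∨ ∃ a b, Cons (SS G d) a b ∧ y ∈ PP G a b := by
  rw [SS, Finset.mem_filter]
  simp

theorem mono (d : ℕ) : SS G d ⊆ SS G (d + 1) := by
  intro y hy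
  rw [mem_succ]
  exact Or.inl hy

theorem mono' {d e : ℕ} (h : d ≤ e) : SS G d ⊆ SS G e := by
  induction e, h using Nat.le_induction with
  | base => exact Finset.Subset.refl _
  | succ e _ ih => exact ih.trans (mono G e)

theorem zero_mem (d : ℕ) : (0 : Fin (N + 1)) ∈ SS G d := by
  apply mono' G (Nat.zero_le d)
  rw [SS]
  simp

theorem last_mem (d : ℕ) : (Fin.last N) ∈ SS G d := by
  apply mono' G (Nat.zero_le d)
  rw [SS]
  simp

theorem mem_outP {a b y : Fin (N + 1)} : y ∈ outP G a b ↔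
    a < y ∧ y < b ∧ ∃ z, (z < a ∨ b < z) ∧ G.Adj y z := by
  rw [outP, Finset.mem_filter]
  simp

theorem mem_nbP {a b y : Fin (N + 1)} : y ∈ nbP G a b ↔ a < y ∧ y < b ∧ G.Adj a y := by
  rw [nbP, Finset.mem_filter]
  simp

/-- the new corners are inside the cell -/
theorem PP_sub {a b y : Fin (N + 1)} (h : y ∈ PP G a b) : a < y ∧ y < b := by
  rw [PP] at h
  split_ifs at h with h1 h2 h3
  · rw [mem_outP] at h
    exact ⟨h.1, h.2.1⟩
  · rw [Finset.mem_singleton] at h
    subst h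
    have := Finset.max'_mem _ h2
    rw [mem_nbP] at this
    exact ⟨this.1, this.2.1⟩
  · rw [Finset.mem_singleton] at h
    subst h
    have := Finset.min'_mem _ h3
    rwa [Finset.mem_Ioo] at this
  · simp at h

theorem PP_nonempty {a b v : Fin (N + 1)} (h1 : a < v) (h2 : v < b) : (PP G a b).Nonempty := by
  have h3 : (Finset.Ioo a b).Nonempty := ⟨v, Finset.mem_Ioo.2 ⟨h1, h2⟩⟩
  rw [PP]
  split_ifs with h4 h5
  · exact h4
  · exact Finset.singleton_nonempty _
  · exact Finset.singleton_nonempty _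

theorem outP_sub_PP {a b y : Fin (N + 1)} (h : y ∈ outP G a b) : y ∈ PP G a b := by
  rw [PP, if_pos ⟨y, h⟩]
  exact h

theorem cell (d : ℕ) {v : Fin (N + 1)} (hv : v ∉ SS G d) :
    ∃ a b, Cons (SS G d) a b ∧ a < v ∧ v < b := by
  have h0 : (0 : Fin (N + 1)) < v := by
    rcases eq_or_ne v 0 with h | h
    · exact absurd (h ▸ zero_mem G d) hv
    · exact Fin.pos_iff_ne_zero.2 h
  have hl : v < Fin.last N := by
    rcases eq_or_ne v (Fin.last N) with h | h
    · exact absurd (h ▸ last_mem G d) hv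
    · exact lt_of_le_of_ne (Fin.le_last v) h
  have hA : ((SS G d).filter (fun z => z < v)).Nonempty :=
    ⟨0, Finset.mem_filter.2 ⟨zero_mem G d, h0⟩⟩
  have hB : ((SS G d).filter (fun z => v < z)).Nonempty :=
    ⟨Fin.last N, Finset.mem_filter.2 ⟨last_mem G d, hl⟩⟩
  have ha := Finset.mem_filter.1 (Finset.max'_mem _ hA)
  have hb := Finset.mem_filter.1 (Finset.min'_mem _ hB)
  refine ⟨_, _, ⟨ha.1, hb.1, ha.2.trans hb.2, fun z hz hzz => ?_⟩, ha.2, hb.2⟩
  rcases lt_trichotomy z v with h | h | h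
  · have := Finset.le_max' ((SS G d).filter (fun z => z < v)) z (Finset.mem_filter.2 ⟨hz, h⟩)
    exact absurd hzz.1 (not_lt.2 this)
  · exact hv (h ▸ hz)
  · have := Finset.min'_le ((SS G d).filter (fun z => v < z)) z (Finset.mem_filter.2 ⟨hz, h⟩)
    exact absurd hzz.2 (not_lt.2 this)

theorem cut (d : ℕ) {c : Fin (N + 1)} (hc : c < Fin.last N) :
    ∃ a b, Cons (SS G d) a b ∧ a ≤ c ∧ c < b := by
  have hA : ((SS G d).filter (fun z => z ≤ c)).Nonempty :=
    ⟨0, Finset.mem_filter.2 ⟨zero_mem G d, Fin.zero_le c⟩⟩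
  have hB : ((SS G d).filter (fun z => c < z)).Nonempty :=
    ⟨Fin.last N, Finset.mem_filter.2 ⟨last_mem G d, hc⟩⟩
  have ha := Finset.mem_filter.1 (Finset.max'_mem _ hA)
  have hb := Finset.mem_filter.1 (Finset.min'_mem _ hB)
  refine ⟨_, _, ⟨ha.1, hb.1, lt_of_le_of_lt ha.2 hb.2, fun z hz hzz => ?_⟩, ha.2, hb.2⟩
  rcases le_or_gt z c with h | h
  · have := Finset.le_max' ((SS G d).filter (fun z => z ≤ c)) z (Finset.mem_filter.2 ⟨hz, h⟩)
    exact absurd hzz.1 (not_lt.2 this)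
  · have := Finset.min'_le ((SS G d).filter (fun z => c < z)) z (Finset.mem_filter.2 ⟨hz, h⟩)
    exact absurd hzz.2 (not_lt.2 this)

theorem cell_unique {S : Finset (Fin (N + 1))} {a b a' b' y : Fin (N + 1)} (h : Cons S a b)
    (h' : Cons S a' b') (h1 : a < y) (h2 : y < b) (h1' : a' < y) (h2' : y < b') :
    a = a' ∧ b = b' := by
  constructor
  · rcases lt_trichotomy a a' with h3 | h3 | h3
    · exact absurd ⟨h3, h1'.trans h2⟩ (h.2.2.2 a' h'.1)
    · exact h3
    · exact absurd ⟨h3, h1.trans h2'⟩ (h'.2.2.2 a h.1)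
  · rcases lt_trichotomy b b' with h3 | h3 | h3
    · exact absurd ⟨h1'.trans h2, h3⟩ (h'.2.2.2 b h.2.1)
    · exact h3
    · exact absurd ⟨h1.trans h2', h3⟩ (h.2.2.2 b' h'.2.1)

theorem new_iff (d : ℕ) {a b : Fin (N + 1)} (h : Cons (SS G d) a b) {y : Fin (N + 1)}
    (h1 : a < y) (h2 : y < b) : y ∈ SS G (d + 1) ↔ y ∈ PP G a b := by
  rw [mem_succ]
  constructor
  · rintro (h3 | ⟨a', b', h3, h4⟩)
    · exact absurd ⟨h1, h2⟩ (h.2.2.2 y h3)
    · have h5 := PP_sub G h4
      obtain ⟨rfl, rfl⟩ := cell_unique h h3 h1 h2 h5.1 h5.2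
      exact h4
  · intro h3
    exact Or.inr ⟨a, b, h, h3⟩

theorem exhaust (v : Fin (N + 1)) : ∃ d, v ∈ SS G d := by
  by_contra hcon
  push Not at hcon
  have key : ∀ d, d ≤ (SS G d).card := by
    intro d
    induction d with
    | zero => exact Nat.zero_le _
    | succ d ih =>
      obtain ⟨a, b, h, h1, h2⟩ := cell G d (hcon d)
      obtain ⟨y, hy⟩ := PP_nonempty G h1 h2
      have h3 := PP_sub G hy
      have h4 : y ∉ SS G d := fun h5 => h.2.2.2 y h5 h3
      have h5 : y ∈ SS G (d + 1) := (mem_succ G d y).2 (Or.inr ⟨a, b, h, hy⟩)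
      have h6 : SS G d ⊂ SS G (d + 1) :=
        ⟨mono G d, fun h7 => h4 (h7 h5)⟩
      have h7 := Finset.card_lt_card h6
      omega
  have h1 := key (N + 2)
  have h2 := Finset.card_le_univ (SS G (N + 2))
  rw [Fintype.card_fin] at h2
  omega

theorem lv_iff (v : Fin (N + 1)) (d : ℕ) : v ∈ SS G d ↔ lv G v ≤ d := by
  have hne : {e | v ∈ SS G e}.Nonempty := exhaust G v
  constructor
  · intro h
    exact Nat.sInf_le h
  · intro h
    exact mono' G h (Nat.sInf_mem hne)

end S1Aux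

open S1Aux in
theorem stS1 : StS1 := by
  intro N G
  refine ⟨mono G, exhaust G, lv_iff G, fun d a b h y h1 h2 => new_iff G d h h1 h2, ?_,
    fun d v hv => cell G d hv, fun d c hc => cut G d hc⟩
  intro d u v w hw huw hwv hadj
  constructor
  · by_cases hu : u ∈ SS G d
    · exact mono G d hu
    · obtain ⟨a, b, h, h1, h2⟩ := cell G d hu
      have h3 : b ≤ w := by
        by_contra h4
        exact h.2.2.2 w hw ⟨h1.trans huw, not_le.1 h4⟩
      rw [new_iff G d h h1 h2]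
      apply outP_sub_PP
      rw [mem_outP]
      exact ⟨h1, h2, v, Or.inr (lt_of_le_of_lt h3 hwv), hadj⟩
  · by_cases hv : v ∈ SS G d
    · exact mono G d hv
    · obtain ⟨a, b, h, h1, h2⟩ := cell G d hv
      have h3 : w ≤ a := by
        by_contra h4
        exact h.2.2.2 w hw ⟨not_le.1 h4, hwv.trans h2⟩
      rw [new_iff G d h h1 h2]
      apply outP_sub_PP
      rw [mem_outP]
      exact ⟨h1, h2, u, Or.inl (lt_of_lt_of_le huw h3), hadj.symm⟩

end Pool.Agent.Lib.MP_1fca17_co
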