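import Mathlib
import Pool.Agent.Lib.MP_1fca17_co.Stmts

/-!
# Module S2 : counting edges that leave a cell of an outer k-planar graph
-/

namespace Pool.Agent.Lib.MP_1fca17_co

open Finset
open scoped Classical

noncomputable section

section S2

variable {N k : ℕ} {G : SimpleGraph (Fin (N + 1))}

theorem s2_mem_io {a b : Fin (N + 1)} {e : Fin (N + 1) × Fin (N + 1)} :
    e ∈ io G a b ↔ a < e.1 ∧ e.1 < b ∧ (e.2 < a ∨ b < e.2) ∧ G.Adj e.1 e.2 := by
  simp [io]

theorem s2_mem_outP {a b y : Fin (N + 1)} :
    y ∈ outP G a b ↔ a < y ∧ y < b ∧ ∃ z, (z < a ∨ b < z) ∧ G.Adj y z := by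
  simp [outP]

theorem s2_mem_nbP {a b y : Fin (N + 1)} :
    y ∈ nbP G a b ↔ a < y ∧ y < b ∧ G.Adj a y := by
  simp [nbP]

/-- an edge is crossed by at most `k` edges (written as (inside, outside)) -/
theorem s2_io_le (hG : OKP k G) {p q : Fin (N + 1)} (hpq : p < q) (hadj : G.Adj p q) :
    (io G p q).card ≤ k := by
  refine le_trans ?_ (hG p q hpq hadj)
  refine Finset.card_le_card_of_injOn (fun e => if e.1 < e.2 then e else (e.2, e.1)) ?_ ?_
  · intro e he
    rw [Finset.mem_coe, s2_mem_io] at he
    obtain ⟨h1, h2, h3, h4⟩ := he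
    rw [Finset.mem_coe]
    simp only [crs, Finset.mem_filter, Finset.mem_univ, true_and]
    rcases h3 with h3 | h3
    · have hlt : ¬ e.1 < e.2 := not_lt.mpr (le_of_lt (h3.trans h1))
      simp only [hlt, if_false]
      exact ⟨h3.trans h1, h4.symm, Or.inr ⟨h3, h1, h2⟩⟩
    · have hlt : e.1 < e.2 := h2.trans h3
      simp only [hlt, if_true]
      exact ⟨trivial, h4, Or.inl ⟨h1, h2, h3⟩⟩
  · intro e he f hf hef
    rw [Finset.mem_coe, s2_mem_io] at he hf
    obtain ⟨h1, h2, h3, h4⟩ := he
    obtain ⟨g1, g2, g3, g4⟩ := hf
    have key : ∀ x y : Fin (N + 1), p < x → x < q → (y < p ∨ q < y) → x ≠ y := by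
      intro x y hx1 hx2 hy hxy
      subst hxy
      rcases hy with hy | hy
      · exact absurd hx1 (not_lt.mpr hy.le)
      · exact absurd hx2 (not_lt.mpr hy.le)
    by_cases c1 : e.1 < e.2 <;> by_cases c2 : f.1 < f.2
    · simpa [c1, c2] using hef
    · simp only [c1, c2, if_true, if_false] at hef
      have : e.1 = f.2 := by rw [hef]
      exact absurd this (key _ _ h1 h2 g3)
    · simp only [c1, c2, if_true, if_false] at hef
      have : f.1 = e.2 := by rw [← hef]
      exact absurd this (key _ _ g1 g2 h3)
    · simp only [c1, c2, if_false] at hef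
      have e1 := congrArg Prod.fst hef
      have e2 := congrArg Prod.snd hef
      exact Prod.ext e2 e1

theorem s2_le_of_io (hG : OKP k G) {p q : Fin (N + 1)} (hpq : p < q) (hadj : G.Adj p q)
    (E : Finset (Fin (N + 1) × Fin (N + 1))) (hE : ∀ e ∈ E, e ∈ io G p q) : E.card ≤ k :=
  (Finset.card_le_card hE).trans (s2_io_le hG hpq hadj)

theorem s2_le_of_io_swap (hG : OKP k G) {p q : Fin (N + 1)} (hpq : p < q) (hadj : G.Adj p q)
    (E : Finset (Fin (N + 1) × Fin (N + 1))) (hE : ∀ e ∈ E, (e.2, e.1) ∈ io G p q) :
    E.card ≤ k := by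
  refine le_trans ?_ (s2_io_le hG hpq hadj)
  refine Finset.card_le_card_of_injOn (fun e => (e.2, e.1)) ?_ ?_
  · intro e he
    exact hE e he
  · intro e _ f _ hef
    have e1 := congrArg Prod.fst hef
    have e2 := congrArg Prod.snd hef
    exact Prod.ext e2 e1

/-- the three cases in the definition of the new corners -/
theorem s2_cases (G : SimpleGraph (Fin (N + 1))) (a b : Fin (N + 1)) :
    (PP G a b = outP G a b) ∨
    (outP G a b = ∅ ∧ ∃ w, PP G a b = {w} ∧ a < w ∧ w < b ∧ G.Adj a w ∧
      ∀ y ∈ nbP G a b, y ≤ w) ∨
    (outP G a b = ∅ ∧ nbP G a b = ∅ ∧ ∃ w, PP G a b = {w} ∧ a < w ∧ w < b ∧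
      ∀ y, a < y → y < b → w ≤ y) ∨
    (PP G a b = ∅ ∧ ∀ y, a < y → ¬ y < b) := by
  by_cases hA : (outP G a b).Nonempty
  · left
    simp [PP, hA]
  · have hA' : outP G a b = ∅ := Finset.not_nonempty_iff_eq_empty.mp hA
    by_cases hB : (nbP G a b).Nonempty
    · right; left
      refine ⟨hA', (nbP G a b).max' hB, ?_, ?_⟩
      · simp [PP, hA, hB]
      · have hm := (nbP G a b).max'_mem hB
        rw [s2_mem_nbP] at hm
        exact ⟨hm.1, hm.2.1, hm.2.2, fun y hy => Finset.le_max' _ y hy⟩
    · have hB' : nbP G a b = ∅ := Finset.not_nonempty_iff_eq_empty.mp hB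
      by_cases hC : (Ioo a b).Nonempty
      · right; right; left
        refine ⟨hA', hB', (Ioo a b).min' hC, ?_, ?_⟩
        · unfold PP
          rw [if_neg hA, dif_neg hB, dif_pos hC]
        · have hm := (Ioo a b).min'_mem hC
          rw [Finset.mem_Ioo] at hm
          exact ⟨hm.1, hm.2, fun y hy1 hy2 =>
            Finset.min'_le _ y (Finset.mem_Ioo.mpr ⟨hy1, hy2⟩)⟩
      · right; right; right
        refine ⟨?_, ?_⟩
        · unfold PP
          rw [if_neg hA, dif_neg hB, dif_neg hC]
        · intro y hy1 hy2
          exact hC ⟨y, Finset.mem_Ioo.mpr ⟨hy1, hy2⟩⟩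

/-- the edges that leave a gap of `SS G (d+1)` -/
theorem s2_part1 (h1 : StS1) (hG : OKP k G) (d : ℕ) (a b : Fin (N + 1))
    (hab : Cons (SS G d) a b) : (io G a b).card ≤ 2 * k := by
  obtain ⟨hmono, -, -, hcell, -, -, hgap⟩ := h1 N G
  cases d with
  | zero =>
    have : io G a b = ∅ := by
      obtain ⟨ha, hb, hlt, -⟩ := hab
      simp only [SS, Finset.mem_insert, Finset.mem_singleton] at ha hb
      have ha0 : a = 0 := by
        rcases ha with ha | ha
        · exact ha
        · exact absurd (ha ▸ hlt) (not_lt.mpr (Fin.le_last b))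
      have hb0 : b = Fin.last N := by
        rcases hb with hb | hb
        · exact absurd (hb ▸ hlt) (not_lt.mpr (Fin.zero_le a))
        · exact hb
      rw [Finset.eq_empty_iff_forall_notMem]
      intro e he
      rw [s2_mem_io] at he
      rcases he.2.2.1 with h | h
      · rw [ha0] at h
        exact absurd h (not_lt.mpr (Fin.zero_le _))
      · rw [hb0] at h
        exact absurd h (not_lt.mpr (Fin.le_last _))
    rw [this]
    simp
  | succ d =>
    obtain ⟨hx, hx', hxx', hno⟩ := hab
    have hlast : a < Fin.last N := lt_of_lt_of_le hxx' (Fin.le_last b)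
    obtain ⟨u, v, huv, hua, hav⟩ := hgap d a hlast
    have hvS : v ∈ SS G (d + 1) := hmono d huv.2.1
    have hbv : b ≤ v := by
      by_contra h
      exact hno v hvS ⟨hav, not_le.mp h⟩
    have hPP : ∀ y, u < y → y < v → (y ∈ SS G (d + 1) ↔ y ∈ PP G u v) := hcell d u v huv
    have hnotPP : ∀ y, a < y → y < b → y ∉ PP G u v := by
      intro y hy1 hy2 hy
      have := (hPP y (lt_of_le_of_lt hua hy1) (lt_of_lt_of_le hy2 hbv)).mpr hy
      exact hno y this ⟨hy1, hy2⟩
    rcases s2_cases G u v with hA | ⟨hA, w, hw, huw, hwv, hadj, hmax⟩ |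
      ⟨hA, hB, w, hw, huw, hwv, hmin⟩ | ⟨-, hE⟩
    · -- case A
      have hcorner : ∀ w, u < w → w < v → w ∈ SS G (d + 1) →
          ∃ t, (t < u ∨ v < t) ∧ G.Adj w t := by
        intro w hw1 hw2 hwS
        have := (hPP w hw1 hw2).mp hwS
        rw [hA, s2_mem_outP] at this
        exact this.2.2
      have hnot : ∀ y, a < y → y < b → ∀ z, G.Adj y z → u ≤ z ∧ z ≤ v := by
        intro y hy1 hy2 z hz
        have := hnotPP y hy1 hy2
        rw [hA, s2_mem_outP] at this
        push Not at this
        have h := this (lt_of_le_of_lt hua hy1) (lt_of_lt_of_le hy2 hbv) z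
        constructor
        · by_contra hc
          exact h (Or.inl (not_le.mp hc)) hz
        · by_contra hc
          exact h (Or.inr (not_le.mp hc)) hz
      have hsplit : io G a b = (io G a b).filter (fun e => b < e.2) ∪
          (io G a b).filter (fun e => e.2 < a) := by
        ext e
        simp only [Finset.mem_union, Finset.mem_filter]
        constructor
        · intro he
          rcases (s2_mem_io.mp he).2.2.1 with h | h
          · exact Or.inr ⟨he, h⟩
          · exact Or.inl ⟨he, h⟩
        · rintro (h | h) <;> exact h.1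
      have c1 : ((io G a b).filter (fun e => b < e.2)).card ≤ k := by
        by_cases hne : ((io G a b).filter (fun e => b < e.2)).Nonempty
        · obtain ⟨e, he⟩ := hne
          rw [Finset.mem_filter, s2_mem_io] at he
          obtain ⟨⟨e1, e2, e3, e4⟩, e5⟩ := he
          have hev := (hnot e.1 e1 e2 e.2 e4).2
          have hbv' : b < v := lt_of_lt_of_le e5 hev
          obtain ⟨t, ht, htadj⟩ := hcorner b (lt_of_le_of_lt hua hxx') hbv' hx'
          rcases ht with ht | ht
          · refine s2_le_of_io hG (p := t) (q := b) (ht.trans (lt_of_le_of_lt hua hxx'))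
              htadj.symm _ ?_
            intro f hf
            rw [Finset.mem_filter, s2_mem_io] at hf
            obtain ⟨⟨f1, f2, f3, f4⟩, f5⟩ := hf
            rw [s2_mem_io]
            exact ⟨(lt_of_lt_of_le ht hua).trans f1, f2, Or.inr f5, f4⟩
          · refine s2_le_of_io_swap hG (p := b) (q := t) (hbv'.trans ht) htadj _ ?_
            intro f hf
            rw [Finset.mem_filter, s2_mem_io] at hf
            obtain ⟨⟨f1, f2, f3, f4⟩, f5⟩ := hf
            rw [s2_mem_io]
            exact ⟨f5, lt_of_le_of_lt (hnot f.1 f1 f2 f.2 f4).2 ht, Or.inl f2, f4.symm⟩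
        · rw [Finset.not_nonempty_iff_eq_empty.mp hne]
          simp
      have c2 : ((io G a b).filter (fun e => e.2 < a)).card ≤ k := by
        by_cases hne : ((io G a b).filter (fun e => e.2 < a)).Nonempty
        · obtain ⟨e, he⟩ := hne
          rw [Finset.mem_filter, s2_mem_io] at he
          obtain ⟨⟨e1, e2, e3, e4⟩, e5⟩ := he
          have hev := (hnot e.1 e1 e2 e.2 e4).1
          have hua' : u < a := lt_of_le_of_lt hev e5
          obtain ⟨t, ht, htadj⟩ := hcorner a hua' (lt_of_lt_of_le hxx' hbv) hx
          rcases ht with ht | ht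
          · refine s2_le_of_io_swap hG (p := t) (q := a) (ht.trans hua')
              htadj.symm _ ?_
            intro f hf
            rw [Finset.mem_filter, s2_mem_io] at hf
            obtain ⟨⟨f1, f2, f3, f4⟩, f5⟩ := hf
            rw [s2_mem_io]
            exact ⟨lt_of_lt_of_le ht (hnot f.1 f1 f2 f.2 f4).1, f5, Or.inr f1, f4.symm⟩
          · refine s2_le_of_io hG (p := a) (q := t) (hav.trans ht) htadj _ ?_
            intro f hf
            rw [Finset.mem_filter, s2_mem_io] at hf
            obtain ⟨⟨f1, f2, f3, f4⟩, f5⟩ := hf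
            rw [s2_mem_io]
            exact ⟨f1, (lt_of_lt_of_le f2 hbv).trans ht, Or.inl f5, f4⟩
        · rw [Finset.not_nonempty_iff_eq_empty.mp hne]
          simp
      rw [hsplit]
      refine (Finset.card_union_le _ _).trans ?_
      omega
    · -- case B
      have hwS : w ∈ SS G (d + 1) := by
        rw [hPP w huw hwv, hw]
        exact Finset.mem_singleton_self w
      have honly : ∀ y, u < y → y < v → y ∈ SS G (d + 1) → y = w := by
        intro y hy1 hy2 hy
        rw [hPP y hy1 hy2, hw, Finset.mem_singleton] at hy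
        exact hy
      rcases eq_or_lt_of_le hua with hau | hau
      · -- `a = u`, `b = w`
        have hbw : b ≤ w := by
          by_contra h
          exact hno w hwS ⟨hau ▸ huw, not_le.mp h⟩
        have hbw' : b = w := honly b (hau ▸ hxx') (lt_of_le_of_lt hbw hwv) hx'
        subst hau
        subst hbw'
        have := s2_io_le hG huw hadj
        omega
      · -- `a = w`
        have haw : a = w := honly a hau hav hx
        subst haw
        have : (io G a b).card ≤ k := by
          refine s2_le_of_io_swap hG (p := u) (q := a) huw hadj _ ?_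
          intro f hf
          rw [s2_mem_io] at hf
          obtain ⟨f1, f2, f3, f4⟩ := hf
          have hf1 : u < f.1 := hau.trans f1
          have hf2 : f.1 < v := lt_of_lt_of_le f2 hbv
          have hin : u ≤ f.2 ∧ f.2 ≤ v := by
            have : f.1 ∉ outP G u v := by rw [hA]; exact Finset.notMem_empty _
            rw [s2_mem_outP] at this
            push Not at this
            have h := this hf1 hf2 f.2
            constructor
            · by_contra hc
              exact h (Or.inl (not_le.mp hc)) f4
            · by_contra hc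
              exact h (Or.inr (not_le.mp hc)) f4
          have hbv' : b = v := by
            rcases eq_or_lt_of_le hbv with h | h
            · exact h
            · exact absurd (honly b (hau.trans hxx') h hx') (ne_of_gt hxx')
          rw [s2_mem_io]
          rcases f3 with f3 | f3
          · refine ⟨?_, f3, Or.inr f1, f4.symm⟩
            refine lt_of_le_of_ne hin.1 ?_
            intro hc
            have : f.1 ∈ nbP G u v := by
              rw [s2_mem_nbP]
              exact ⟨hf1, hf2, hc ▸ f4.symm⟩
            exact absurd f1 (not_lt.mpr (hmax f.1 this))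
          · exact absurd hin.2 (not_le.mpr (hbv' ▸ f3))
        omega
    · -- case C
      have hwS : w ∈ SS G (d + 1) := by
        rw [hPP w huw hwv, hw]
        exact Finset.mem_singleton_self w
      have honly : ∀ y, u < y → y < v → y ∈ SS G (d + 1) → y = w := by
        intro y hy1 hy2 hy
        rw [hPP y hy1 hy2, hw, Finset.mem_singleton] at hy
        exact hy
      have : io G a b = ∅ := by
        rw [Finset.eq_empty_iff_forall_notMem]
        intro f hf
        rw [s2_mem_io] at hf
        obtain ⟨f1, f2, f3, f4⟩ := hf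
        have hf1 : u < f.1 := lt_of_le_of_lt hua f1
        have hf2 : f.1 < v := lt_of_lt_of_le f2 hbv
        rcases eq_or_lt_of_le hua with hau | hau
        · have hbw : b ≤ w := by
            by_contra h
            exact hno w hwS ⟨hau ▸ huw, not_le.mp h⟩
          exact absurd (hmin f.1 hf1 hf2) (not_le.mpr (lt_of_lt_of_le f2 hbw))
        · have haw : a = w := honly a hau hav hx
          subst haw
          have hin : u ≤ f.2 ∧ f.2 ≤ v := by
            have : f.1 ∉ outP G u v := by rw [hA]; exact Finset.notMem_empty _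
            rw [s2_mem_outP] at this
            push Not at this
            have h := this hf1 hf2 f.2
            constructor
            · by_contra hc
              exact h (Or.inl (not_le.mp hc)) f4
            · by_contra hc
              exact h (Or.inr (not_le.mp hc)) f4
          have hbv' : b = v := by
            rcases eq_or_lt_of_le hbv with h | h
            · exact h
            · exact absurd (honly b (hau.trans hxx') h hx') (ne_of_gt hxx')
          rcases f3 with f3 | f3
          · rcases eq_or_lt_of_le hin.1 with hc | hc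
            · have : f.1 ∈ nbP G u v := by
                rw [s2_mem_nbP]
                exact ⟨hf1, hf2, hc ▸ f4.symm⟩
              rw [hB] at this
              exact absurd this (Finset.notMem_empty _)
            · exact absurd (hmin f.2 hc (f3.trans hav)) (not_le.mpr f3)
          · exact absurd hin.2 (not_le.mpr (hbv' ▸ f3))
      rw [this]
      simp
    · -- empty cell
      have : io G a b = ∅ := by
        rw [Finset.eq_empty_iff_forall_notMem]
        intro f hf
        rw [s2_mem_io] at hf
        exact hE f.1 (lt_of_le_of_lt hua hf.1) (lt_of_lt_of_le hf.2.1 hbv)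
      rw [this]
      simp

theorem stS2 (h1 : StS1) : StS2 := by
  intro N k G hk hG d a b hab
  have hio := s2_part1 h1 hG d a b hab
  refine ⟨hio, ?_, ?_⟩
  · rcases s2_cases G a b with hA | ⟨-, w, hw, -⟩ | ⟨-, -, w, hw, -⟩ | ⟨hE, -⟩
    · rw [hA]
      refine le_trans ?_ hio
      have hsub : outP G a b ⊆ (io G a b).image Prod.fst := by
        intro y hy
        rw [s2_mem_outP] at hy
        obtain ⟨hy1, hy2, z, hz, hadj⟩ := hy
        rw [Finset.mem_image]
        exact ⟨(y, z), s2_mem_io.mpr ⟨hy1, hy2, hz, hadj⟩, rfl⟩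
      exact (Finset.card_le_card hsub).trans Finset.card_image_le
    · rw [hw, Finset.card_singleton]
      omega
    · rw [hw, Finset.card_singleton]
      omega
    · rw [hE, Finset.card_empty]
      omega
  · intro x hx
    rcases s2_cases G a b with hA | ⟨-, w, hw, haw, hwb, hadj, -⟩ |
      ⟨-, -, w, hw, haw, hwb, hmin⟩ | ⟨hE, -⟩
    · rw [hA, s2_mem_outP] at hx
      obtain ⟨hx1, hx2, t, ht, hadj⟩ := hx
      rcases ht with ht | ht
      · refine s2_le_of_io hG (p := t) (q := x) (ht.trans hx1) hadj.symm _ ?_
        intro f hf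
        simp only [Finset.mem_filter, Finset.mem_univ, true_and] at hf
        obtain ⟨f1, f2, f3, f4, f5⟩ := hf
        rw [s2_mem_io]
        exact ⟨ht.trans f1, f2, Or.inr f3, f5⟩
      · refine s2_le_of_io_swap hG (p := x) (q := t) (hx2.trans ht) hadj _ ?_
        intro f hf
        simp only [Finset.mem_filter, Finset.mem_univ, true_and] at hf
        obtain ⟨f1, f2, f3, f4, f5⟩ := hf
        rw [s2_mem_io]
        exact ⟨f3, f4.trans ht, Or.inl f2, f5.symm⟩
    · rw [hw, Finset.mem_singleton] at hx
      subst hx
      refine s2_le_of_io hG (p := a) (q := x) haw hadj _ ?_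
      intro f hf
      simp only [Finset.mem_filter, Finset.mem_univ, true_and] at hf
      obtain ⟨f1, f2, f3, f4, f5⟩ := hf
      rw [s2_mem_io]
      exact ⟨f1, f2, Or.inr f3, f5⟩
    · rw [hw, Finset.mem_singleton] at hx
      subst hx
      have : (univ.filter (fun e : Fin (N + 1) × Fin (N + 1) =>
          a < e.1 ∧ e.1 < x ∧ x < e.2 ∧ e.2 < b ∧ G.Adj e.1 e.2)) = ∅ := by
        rw [Finset.eq_empty_iff_forall_notMem]
        intro f hf
        simp only [Finset.mem_filter, Finset.mem_univ, true_and] at hf
        obtain ⟨f1, f2, f3, f4, f5⟩ := hf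
        exact absurd (hmin f.1 f1 (f2.trans hwb)) (not_le.mpr f2)
      rw [this]
      simp
    · rw [hE] at hx
      exact absurd hx (Finset.notMem_empty _)

end S2

end

end Pool.Agent.Lib.MP_1fca17_co
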