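import Mathlib
import Pool.Agent.Lib.MP_1fca17_co.Stmts

/-!
# MP_1fca17_co : one order `T` from the heights of the blocks (module T)
-/

namespace Pool.Agent.Lib.MP_1fca17_co

open Finset
open scoped Classical

noncomputable section

/-- The gap around a vertex is unique. -/
theorem tAux_gap {N : ℕ} {S : Finset (Fin (N + 1))} {a b a' b' v : Fin (N + 1)}
    (h : Cons S a b) (h' : Cons S a' b') (h1 : a < v) (h2 : v < b) (h3 : a' < v) (h4 : v < b') :
    a = a' ∧ b = b' := by
  obtain ⟨ha, hb, -, hz⟩ := h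
  obtain ⟨ha', hb', -, hz'⟩ := h'
  constructor
  · apply le_antisymm
    · by_contra hc
      exact hz' a ha ⟨not_le.1 hc, h1.trans h4⟩
    · by_contra hc
      exact hz a' ha' ⟨not_le.1 hc, h3.trans h2⟩
  · apply le_antisymm
    · by_contra hc
      exact hz b' hb' ⟨h1.trans h4, not_le.1 hc⟩
    · by_contra hc
      exact hz' b hb ⟨h3.trans h2, not_le.1 hc⟩

/-- Comparison of two values of `T`. -/
theorem tAux_lt {N A B : ℕ} (u v : Fin (N + 1)) (h : A < B) :
    A * (N + 1) + (v : ℕ) < B * (N + 1) + (u : ℕ) := by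
  have h1 : (v : ℕ) < N + 1 := v.2
  have h2 : (A + 1) * (N + 1) ≤ B * (N + 1) := Nat.mul_le_mul_right _ h
  have h3 : (A + 1) * (N + 1) = A * (N + 1) + (N + 1) := by ring
  omega

/-- T. -/
theorem stT (h1 : StS1) (hb : StB) : StT := by
  intro N k m G hk hG hm2
  obtain ⟨-, -, S1c, -, -, S1f, -⟩ := h1 N G
  have hm : 0 < m := by
    rcases Nat.eq_zero_or_pos m with h | h
    · subst h; simp at hm2; omega
    · exact h
  let XX : ℕ → Fin (N + 1) → Fin (N + 1) → Fin (N + 1) → Fin m := fun l a b =>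
    if h : 1 ≤ l ∧ Cons (SS G (l - 2)) a b then
      (hb N k m G hk hG hm2 l h.1 a b h.2).choose else fun _ => ⟨0, hm⟩
  have hXX : ∀ l a b, 1 ≤ l → Cons (SS G (l - 2)) a b → GoodX G m l a b (XX l a b) := by
    intro l a b hl hc
    have e : XX l a b = (hb N k m G hk hG hm2 l hl a b hc).choose := dif_pos ⟨hl, hc⟩
    rw [e]
    exact (hb N k m G hk hG hm2 l hl a b hc).choose_spec
  have hgap : ∀ v, ∃ ab : Fin (N + 1) × Fin (N + 1), 1 ≤ lv G v →
      Cons (SS G (lv G v - 2)) ab.1 ab.2 ∧ ab.1 < v ∧ v < ab.2 := by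
    intro v
    by_cases h : 1 ≤ lv G v
    · have hn : v ∉ SS G (lv G v - 2) := by
        rw [S1c]; omega
      obtain ⟨a, b, hc, h2, h3⟩ := S1f _ v hn
      exact ⟨(a, b), fun _ => ⟨hc, h2, h3⟩⟩
    · exact ⟨(v, v), fun h' => absurd h' h⟩
  choose g hg using hgap
  let Y : Fin (N + 1) → Fin m := fun v => XX (lv G v) (g v).1 (g v).2 v
  let M : ℕ := univ.sup (lv G)
  have hM : ∀ v, lv G v ≤ M := fun v => Finset.le_sup (f := lv G) (mem_univ v)
  let A : Fin (N + 1) → ℕ := fun v => (M - lv G v) * m + (Y v : ℕ)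
  refine ⟨fun v => A v * (N + 1) + (v : ℕ), ?_, ?_, ?_⟩
  · intro u v huv
    have huv' : A u * (N + 1) + (u : ℕ) = A v * (N + 1) + (v : ℕ) := huv
    rcases lt_trichotomy (A u) (A v) with h | h | h
    · exact absurd huv' (tAux_lt v u h).ne
    · rw [h] at huv'
      exact Fin.ext (by omega)
    · exact absurd huv' (tAux_lt u v h).ne'
  · intro u v huv
    apply tAux_lt u v
    have hu := hM u
    have hv := hM v
    have h3 : (M - lv G v + 1) * m ≤ (M - lv G u) * m := Nat.mul_le_mul_right _ (by omega)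
    have h4 : (M - lv G v + 1) * m = (M - lv G v) * m + m := by ring
    have h5 : (Y v : ℕ) < m := (Y v).2
    show (M - lv G v) * m + (Y v : ℕ) < (M - lv G u) * m + (Y u : ℕ)
    omega
  · intro l hl a b hc
    refine ⟨XX l a b, hXX l a b hl hc, ?_⟩
    intro p q hp hq hap hpb haq hqb hT
    have key : ∀ r, lv G r = l → a < r → r < b → Y r = XX l a b r := by
      intro r hr har hrb
      obtain ⟨hc', h2, h3⟩ := hg r (by rw [hr]; exact hl)
      rw [hr] at hc'
      obtain ⟨e1, e2⟩ := tAux_gap hc hc' har hrb h2 h3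
      show XX (lv G r) (g r).1 (g r).2 r = XX l a b r
      rw [hr, ← e1, ← e2]
    by_contra hcon
    rw [not_le] at hcon
    have h6 : A q < A p := by
      show (M - lv G q) * m + (Y q : ℕ) < (M - lv G p) * m + (Y p : ℕ)
      rw [hq, hp, key p hp hap hpb, key q hq haq hqb]
      have : ((XX l a b q : Fin m) : ℕ) < (XX l a b p : ℕ) := hcon
      omega
    exact absurd hT (not_lt.2 (tAux_lt p q h6).le)

end

end Pool.Agent.Lib.MP_1fca17_co
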